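import Pool.Agent.D0H68.SQ.Prob

set_option autoImplicit false

open Filter Topology Finset

namespace Pool.Agent.D0H68.SQ

/-- product form of `W_refine` -/
theorem W_refine_prod {δ : ℝ} (hδ : 0 < δ) (m : ℕ) (hm : 1 ≤ m) (k : ℕ) (w : ℕ → ℝ) :
    ∏ n ∈ W δ k, w n = ∏ i ∈ range m, ∏ n ∈ W (δ / m) (m * k + i), w n := by
  have hm0 : (0 : ℝ) < m := by exact_mod_cast hm
  have hlo : ∀ j, lo δ j = lo (δ / m) (m * j) := by
    intro j
    unfold lo
    congr 2
    push_cast
    field_simp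
  have hδm : 0 < δ / m := by positivity
  have key : ∀ r : ℕ, ∏ i ∈ range r, ∏ n ∈ W (δ / m) (m * k + i), w n =
      ∏ n ∈ Ioc (lo (δ / m) (m * k)) (lo (δ / m) (m * k + r)), w n := by
    intro r
    induction r with
    | zero => simp
    | succ r ih =>
      rw [Finset.prod_range_succ, ih]
      unfold W
      rw [Finset.prod_Ioc_consecutive _ (lo_mono hδm (by omega)) (lo_mono hδm (by omega))]
      rfl
  rw [key m]
  unfold W
  rw [hlo k, hlo (k + 1)]
  congr 2

theorem crit_compare {p p' : ℕ → ℝ} (h0 : ∀ n, 0 ≤ p n) (h1 : ∀ n, p n ≤ 1) (h1' : ∀ n, p' n ≤ 1)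
    (h0' : ∀ n, 0 ≤ p' n)
    {c : ℝ} (hc : 0 < c) (h : ∀ n, 1 - p' n ≤ (1 - p n) ^ c) (hcrit : Crit p) : Crit p' := by
  intro δ hδ
  obtain ⟨m, hmdef⟩ : ∃ m, m = ⌈1 / c⌉₊ := ⟨_, rfl⟩
  have hm : 1 ≤ m := by
    rw [hmdef]
    exact Nat.ceil_pos.2 (by positivity)
  have hm0 : (0 : ℝ) < m := by exact_mod_cast hm
  have hmc : 1 ≤ m * c := by
    have : 1 / c ≤ m := by rw [hmdef]; exact Nat.le_ceil _
    rwa [div_le_iff₀ hc] at this
  have hs := hcrit (δ / m) (by positivity)
  obtain ⟨P, hP⟩ : ∃ P : ℕ → ℝ, P = fun k => ∏ n ∈ W (δ / m) k, (1 - p n) := ⟨_, rfl⟩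
  rw [← hP] at hs
  have hP0 : ∀ k, 0 ≤ P k := by
    intro k
    rw [hP]
    exact Finset.prod_nonneg (fun n _ => by linarith [h1 n])
  have hsum : Summable (fun k : ℕ => ∑ i ∈ range m, P (m * k + i)) := by
    apply summable_sum
    intro i _
    apply hs.comp_injective (i := fun k : ℕ => m * k + i)
    intro a b hab
    have : m * a = m * b := by simpa using hab
    exact Nat.eq_of_mul_eq_mul_left (by omega) this
  refine Summable.of_nonneg_of_le (fun k => Finset.prod_nonneg (fun n _ => by linarith [h1' n])) (fun k => ?_) hsum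
  have e1 : ∏ n ∈ W δ k, (1 - p' n) ≤ ∏ n ∈ W δ k, (1 - p n) ^ c :=
    Finset.prod_le_prod (fun n _ => by linarith [h1' n]) (fun n _ => h n)
  have e2 : ∏ n ∈ W δ k, (1 - p n) ^ c = (∏ n ∈ W δ k, (1 - p n)) ^ c :=
    Real.finsetProd_rpow _ _ (fun n _ => by linarith [h1 n]) c
  have e3 : ∏ n ∈ W δ k, (1 - p n) = ∏ i ∈ range m, P (m * k + i) := by
    rw [W_refine_prod hδ m hm k, hP]
  obtain ⟨Q, hQ⟩ : ∃ Q, Q = ∑ i ∈ range m, P (m * k + i) := ⟨_, rfl⟩
  rw [← hQ]
  have hQ0 : 0 ≤ Q := by rw [hQ]; exact Finset.sum_nonneg (fun i _ => hP0 _)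
  by_cases hQ1 : 1 ≤ Q
  · refine le_trans ?_ hQ1
    exact Finset.prod_le_one (fun n _ => by linarith [h1' n]) (fun n _ => by linarith [h0' n])
  · push Not at hQ1
    have e4 : ∏ i ∈ range m, P (m * k + i) ≤ Q ^ m := by
      have := Finset.prod_le_prod (s := range m) (f := fun i => P (m * k + i)) (g := fun _ => Q)
        (fun i _ => hP0 _) (fun i hi => by
          rw [hQ]
          exact Finset.single_le_sum (f := fun i => P (m * k + i)) (fun j _ => hP0 _) hi)
      simpa using this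
    rw [e2, e3] at e1
    refine e1.trans ?_
    have e5 : (∏ i ∈ range m, P (m * k + i)) ^ c ≤ (Q ^ m) ^ c :=
      Real.rpow_le_rpow (Finset.prod_nonneg (fun i _ => hP0 _)) e4 hc.le
    refine e5.trans ?_
    rw [← Real.rpow_natCast, ← Real.rpow_mul hQ0]
    have e6 := Real.rpow_le_rpow_of_exponent_ge' hQ0 hQ1.le (by norm_num : (0 : ℝ) ≤ 1) hmc
    rwa [Real.rpow_one] at e6

/-- the indicator of a set, times `t` -/
noncomputable def thin (A : Set ℕ) (t : ℝ) (n : ℕ) : ℝ := by
  classical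
  exact if n ∈ A then t else 0

theorem thin_prod (A : Set ℕ) (t : ℝ) (T : Finset ℕ) :
    ∏ n ∈ T, (1 - thin A t n) = (1 - t) ^ (((T : Set ℕ) ∩ A).ncard) := by
  classical
  have h1 : ∀ n, 1 - thin A t n = if n ∈ A then 1 - t else 1 := by
    intro n
    unfold thin
    split_ifs <;> simp
  simp_rw [h1]
  rw [Finset.prod_ite, Finset.prod_const, Finset.prod_const_one, mul_one]
  congr 1
  rw [← Set.ncard_coe_finset]
  congr 1
  ext n
  simp

theorem crit_thin_iff (A : Set ℕ) (t : ℝ) :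
    Crit (thin A t) ↔ ∀ δ : ℝ, 0 < δ → Summable (fun k => (1 - t) ^ (((W δ k : Finset ℕ) : Set ℕ) ∩ A).ncard) := by
  unfold Crit
  simp_rw [thin_prod]

theorem thin_nonneg (A : Set ℕ) {t : ℝ} (ht : 0 ≤ t) (n : ℕ) : 0 ≤ thin A t n := by
  unfold thin
  split_ifs <;> simp [ht]

theorem thin_le (A : Set ℕ) {t : ℝ} (ht : t ≤ 1) (n : ℕ) : thin A t n ≤ 1 := by
  unfold thin
  split_ifs <;> simp [ht]

theorem crit_thin_mono (A : Set ℕ) {t t' : ℝ} (ht : 0 < t) (ht1 : t < 1) (ht' : 0 < t') (ht1' : t' ≤ 1)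
    (h : Crit (thin A t)) : Crit (thin A t') := by
  rcases eq_or_lt_of_le ht1' with he | hlt
  · apply crit_compare (thin_nonneg A ht.le) (thin_le A ht1.le) (thin_le A ht1') (thin_nonneg A ht'.le)
      one_pos _ h
    intro n
    rw [Real.rpow_one]
    unfold thin
    split_ifs
    · linarith
    · simp
  · have hl : Real.log (1 - t) < 0 := Real.log_neg (by linarith) (by linarith)
    have hl' : Real.log (1 - t') < 0 := Real.log_neg (by linarith) (by linarith)
    have hc : 0 < Real.log (1 - t') / Real.log (1 - t) := div_pos_of_neg_of_neg hl' hl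
    apply crit_compare (thin_nonneg A ht.le) (thin_le A ht1.le) (thin_le A ht1') (thin_nonneg A ht'.le)
      hc _ h
    intro n
    unfold thin
    split_ifs
    · rw [Real.rpow_def_of_pos (by linarith), mul_div_cancel₀ _ hl.ne, Real.exp_log (by linarith)]
    · simp

/-- for a deterministic set the criterion is the property itself -/
theorem crit_one_iff (A : Set ℕ) : Crit (thin A 1) ↔ DQ (fun n => n ∈ A) := by
  rw [crit_thin_iff]
  constructor
  · intro h
    apply DQ_of_win
    intro m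
    have h1 := (h (1 / ((m : ℝ) + 1)) (by positivity)).tendsto_atTop_zero
    filter_upwards [h1.eventually (gt_mem_nhds (by norm_num : (0 : ℝ) < 1))] with k hk
    by_contra hcon
    push Not at hcon
    have : ((W (1 / ((m : ℝ) + 1)) k : Finset ℕ) : Set ℕ) ∩ A = ∅ := by
      ext n
      simp only [Set.mem_inter_iff, Finset.mem_coe, Set.mem_empty_iff_false, iff_false, not_and]
      exact hcon n
    rw [this] at hk
    simp at hk
  · intro h δ hδ
    apply summable_of_finite_support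
    obtain ⟨K, hK⟩ := eventually_atTop.1 (win_of_DQ h hδ)
    apply (Set.finite_lt_nat K).subset
    intro k hk
    rw [Function.mem_support] at hk
    by_contra hcon
    simp only [Set.mem_setOf_eq, not_lt] at hcon
    obtain ⟨n, hn, hA⟩ := hK k hcon
    apply hk
    rw [sub_self, zero_pow]
    have : (((W δ k : Finset ℕ) : Set ℕ) ∩ A).Nonempty := ⟨n, hn, hA⟩
    rw [← Set.ncard_pos ((Finset.finite_toSet _).inter_of_left _)] at this
    omega

end Pool.Agent.D0H68.SQ
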