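import Pool.Agent.D0H68.SQ.Thr

set_option autoImplicit false

open Filter Topology Finset

namespace Pool.Agent.D0H68.SQ

/-- the difference of the square roots of two consecutive elements -/
noncomputable def gap (p : ℕ → Prop) (k : ℕ) : ℝ :=
  √((Nat.nth p (k + 1) : ℕ) : ℝ) - √((Nat.nth p k : ℕ) : ℝ)

theorem gap_nonneg {p : ℕ → Prop} (hinf : {n | p n}.Infinite) (k : ℕ) : 0 ≤ gap p k := by
  have hinf' : (Set.ofPred p).Infinite := hinf
  unfold gap
  rw [sub_nonneg]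
  apply Real.sqrt_le_sqrt
  exact_mod_cast (Nat.nth_strictMono hinf' (Nat.lt_succ_self k)).le

/-- empty windows give long gaps -/
theorem freq_gap {p : ℕ → Prop} (hinf : {n | p n}.Infinite) {D : ℝ} (hD : 0 < D)
    (h : ∃ᶠ k in atTop, ∀ n ∈ W D k, ¬ p n) : ∃ᶠ j in atTop, D ≤ gap p j := by
  classical
  have hinf' : (Set.ofPred p).Infinite := hinf
  have hmono : StrictMono (Nat.nth p) := Nat.nth_strictMono hinf'
  rw [frequently_atTop] at h ⊢
  intro J
  obtain ⟨K, hK⟩ := eventually_atTop.1 ((lo_tendsto hD).eventually (eventually_ge_atTop (Nat.nth p J)))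
  obtain ⟨k, hk, hemp⟩ := h K
  have hlo := hK k hk
  have hc : J < Nat.count p (lo D k + 1) := by
    by_contra hcon
    have e1 : lo D k + 1 ≤ Nat.nth p (Nat.count p (lo D k + 1)) := Nat.le_nth_count hinf' _
    have e2 : Nat.nth p (Nat.count p (lo D k + 1)) ≤ Nat.nth p J := hmono.monotone (by omega)
    omega
  obtain ⟨c, hc'⟩ : ∃ c, Nat.count p (lo D k + 1) = c + 1 := ⟨Nat.count p (lo D k + 1) - 1, by omega⟩
  have h1 : lo D k + 1 ≤ Nat.nth p (c + 1) := by rw [← hc']; exact Nat.le_nth_count hinf' _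
  have h2 : Nat.nth p c < lo D k + 1 := Nat.nth_lt_of_lt_count (by omega)
  refine ⟨c, by omega, ?_⟩
  have h3 : lo D (k + 1) < Nat.nth p (c + 1) := by
    by_contra hcon
    apply hemp (Nat.nth p (c + 1))
    · unfold W
      rw [mem_Ioc]
      omega
    · exact Nat.nth_mem_of_infinite hinf' _
  have h4 : √((Nat.nth p c : ℕ) : ℝ) ≤ D * k := by
    apply Real.sqrt_le_iff.2
    exact ⟨by positivity, le_lo (by omega)⟩
  have h5 : D * ((k + 1 : ℕ) : ℝ) ≤ √((Nat.nth p (c + 1) : ℕ) : ℝ) := by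
    apply Real.le_sqrt_of_sq_le
    exact (lo_lt h3).le
  unfold gap
  push_cast at h5
  linarith

/-- nonempty windows of length `r` steps give gaps of length at most `η (r + 1)` -/
theorem event_gap {p : ℕ → Prop} {η : ℝ} (hη : 0 < η) (r : ℕ)
    (h : ∀ᶠ k in atTop, ∃ n ∈ Ioc (lo η k) (lo η (k + r)), p n) :
    {n | p n}.Infinite ∧ ∀ᶠ j in atTop, gap p j ≤ η * (r + 1) := by
  classical
  have hinf : {n | p n}.Infinite := by
    apply Set.infinite_of_forall_exists_gt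
    intro N
    obtain ⟨k, h1, h2⟩ := (h.and ((lo_tendsto hη).eventually (eventually_ge_atTop N))).exists
    obtain ⟨n, hn, hpn⟩ := h1
    rw [mem_Ioc] at hn
    exact ⟨n, hpn, by omega⟩
  refine ⟨hinf, ?_⟩
  have hinf' : (Set.ofPred p).Infinite := hinf
  have hmono : StrictMono (Nat.nth p) := Nat.nth_strictMono hinf'
  obtain ⟨K0, hK0⟩ := eventually_atTop.1 h
  obtain ⟨J, hJ⟩ := exists_nat_gt ((η * (K0 + 1)) ^ 2)
  filter_upwards [eventually_ge_atTop J] with j hj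
  have hs : (J : ℝ) ≤ ((Nat.nth p j : ℕ) : ℝ) := by exact_mod_cast hj.trans (hmono.id_le j)
  obtain ⟨s, hsdef⟩ : ∃ s, s = Nat.nth p j := ⟨_, rfl⟩
  rw [← hsdef] at hs
  have hsq : η * (K0 + 1) < √(s : ℝ) := by
    apply Real.lt_sqrt_of_sq_lt
    linarith
  obtain ⟨k, hk⟩ : ∃ k, k = ⌈√(s : ℝ) / η⌉₊ - 1 := ⟨_, rfl⟩
  have hceil : √(s : ℝ) / η ≤ ⌈√(s : ℝ) / η⌉₊ := Nat.le_ceil _
  have hceil2 : (⌈√(s : ℝ) / η⌉₊ : ℝ) < √(s : ℝ) / η + 1 := Nat.ceil_lt_add_one (by positivity)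
  have hpos : K0 + 1 < √(s : ℝ) / η := by
    rw [lt_div_iff₀ hη]; linarith
  have hc1 : 1 ≤ ⌈√(s : ℝ) / η⌉₊ := by
    have : (0 : ℝ) < ⌈√(s : ℝ) / η⌉₊ := by
      have : (0 : ℝ) ≤ K0 := Nat.cast_nonneg _
      linarith
    exact_mod_cast this
  have hkr : (k : ℝ) = ⌈√(s : ℝ) / η⌉₊ - 1 := by rw [hk, Nat.cast_sub hc1]; simp
  have h1 : η * k < √(s : ℝ) := by
    have : (k : ℝ) < √(s : ℝ) / η := by linarith
    rw [lt_div_iff₀ hη] at this
    linarith
  have h2 : √(s : ℝ) ≤ η * (k + 1) := by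
    have : √(s : ℝ) / η ≤ k + 1 := by linarith
    rw [div_le_iff₀ hη] at this
    linarith
  have hkK : K0 ≤ k + 1 := by
    have : (K0 : ℝ) < k + 1 := by linarith
    have h' : K0 < k + 1 := by exact_mod_cast this
    omega
  obtain ⟨n, hn, hpn⟩ := hK0 (k + 1) hkK
  rw [mem_Ioc] at hn
  have h3 : s ≤ lo η (k + 1) := by
    unfold lo
    apply Nat.le_floor
    push_cast
    exact (Real.sqrt_le_iff.1 h2).2
  have h4 : s < n := by omega
  have h5 : Nat.nth p (Nat.count p n) = n := Nat.nth_count hpn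
  have h6 : j < Nat.count p n := by
    rw [← hmono.lt_iff_lt, h5, ← hsdef]
    exact h4
  have h7 : Nat.nth p (j + 1) ≤ n := by
    rw [← h5]
    exact hmono.monotone h6
  have h8 : √((Nat.nth p (j + 1) : ℕ) : ℝ) ≤ η * (k + 1 + r) := by
    apply Real.sqrt_le_iff.2
    refine ⟨by positivity, ?_⟩
    have h9 : (n : ℝ) ≤ (η * ((k + 1 + r : ℕ) : ℝ)) ^ 2 := le_lo hn.2
    have h10 : ((Nat.nth p (j + 1) : ℕ) : ℝ) ≤ n := by exact_mod_cast h7
    refine h10.trans (h9.trans (le_of_eq ?_))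
    push_cast
    ring
  unfold gap
  rw [← hsdef]
  linarith

/-- `p` does not increase much on short ranges -/
def Tame (p : ℕ → ℝ) : Prop :=
  ∀ ε : ℝ, 0 < ε → ∃ κ : ℝ, 0 < κ ∧ ∀ᶠ n : ℕ in atTop, ∀ m : ℕ, n ≤ m → (m : ℝ) ≤ (1 + κ) * n →
    p m ≤ (1 + ε) * p n

theorem tame_of_antitone {p : ℕ → ℝ} (h0 : ∀ n, 0 ≤ p n) (h : Antitone p) : Tame p := by
  intro ε hε
  refine ⟨1, one_pos, Eventually.of_forall (fun n m hnm _ => ?_)⟩
  have := h hnm
  nlinarith [h0 n]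

/-- exact divergence: the series for the width `D` diverges if `4 D c < 1` and `p n < c log n / √n` for
infinitely many `n` -/
theorem not_summable_of_frequently {p : ℕ → ℝ} (h0 : ∀ n, 0 ≤ p n) (h1' : ∀ n, p n ≤ 1) (ht : Tame p)
    {D c : ℝ} (hD : 0 < D) (hc : 0 < c) (hcD : 4 * c * D < 1)
    (hfr : ∃ᶠ n : ℕ in atTop, p n * √n / Real.log n < c) :
    ¬ Summable (fun k => ∏ n ∈ W D k, (1 - p n)) := by
  intro hsum
  obtain ⟨S, hS⟩ : ∃ S, S = ∑' k, ∏ n ∈ W D k, (1 - p n) := ⟨_, rfl⟩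
  -- parameters
  obtain ⟨θ, hθ⟩ : ∃ θ, θ = 4 * c * D := ⟨_, rfl⟩
  have hθ0 : 0 < θ := by rw [hθ]; positivity
  rw [← hθ] at hcD
  obtain ⟨ε, hε⟩ : ∃ ε, ε = (1 - θ) / 30 := ⟨_, rfl⟩
  have hε0 : 0 < ε := by rw [hε]; linarith
  have hε1 : ε ≤ 1 / 30 := by rw [hε]; linarith
  obtain ⟨κ, hκ0, hκ⟩ := ht ε hε0
  obtain ⟨ρ, hρ⟩ : ∃ ρ, ρ = min ε (κ / 3) := ⟨_, rfl⟩
  have hρ0 : 0 < ρ := by rw [hρ]; exact lt_min hε0 (by positivity)
  have hρε : ρ ≤ ε := by rw [hρ]; exact min_le_left _ _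
  have hρκ : 3 * ρ ≤ κ := by
    have : ρ ≤ κ / 3 := by rw [hρ]; exact min_le_right _ _
    linarith
  have hρ2 : (1 + ρ) ^ 2 ≤ 1 + κ := by nlinarith
  obtain ⟨β, hβ⟩ : ∃ β, β = (1 + θ) / 4 := ⟨_, rfl⟩
  have hβ2 : 0 < 1 / 2 - β := by rw [hβ]; linarith
  have hlog : Tendsto (fun k : ℕ => Real.log (k : ℝ)) atTop atTop :=
    Real.tendsto_log_atTop.comp tendsto_natCast_atTop_atTop
  have hsqrt : Tendsto (fun k : ℕ => √(k : ℝ)) atTop atTop :=
    Real.tendsto_sqrt_atTop.comp tendsto_natCast_atTop_atTop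
  have hbig : Tendsto (fun k : ℕ => Real.exp ((1 / 2 - β) * Real.log (k : ℝ))) atTop atTop :=
    Real.tendsto_exp_atTop.comp (hlog.const_mul_atTop hβ2)
  have hsmall : Tendsto (fun k : ℕ => (1 + ε) * c * (Real.log (k : ℝ) / √(k : ℝ))) atTop (𝓝 ((1 + ε) * c * 0)) := by
    apply Tendsto.const_mul
    have := (isLittleO_log_rpow_atTop (by norm_num : (0 : ℝ) < 1 / 2)).tendsto_div_nhds_zero
    refine (this.comp tendsto_natCast_atTop_atTop).congr (fun k => ?_)
    simp only [Function.comp, Real.sqrt_eq_rpow]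
  rw [mul_zero] at hsmall
  obtain ⟨n, h1, h2, h3, h4, h5, h6⟩ := (hfr.and_eventually ((hsmall.eventually (gt_mem_nhds (by positivity : 0 < ε / 2))).and
    ((hbig.eventually (eventually_gt_atTop (2 * D / ρ * Real.exp 1 * (|S| + 1)))).and
    ((hsqrt.eventually (eventually_ge_atTop (4 * D / ρ))).and ((eventually_ge_atTop 2).and hκ))))).exists
  have hn0 : (1 : ℝ) < n := by exact_mod_cast (by omega : 1 < n)
  have hl : 0 < Real.log n := Real.log_pos hn0
  have hsq : 0 < √(n : ℝ) := Real.sqrt_pos.2 (by linarith)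
  obtain ⟨q, hq⟩ : ∃ q, q = (1 + ε) * c * (Real.log (n : ℝ) / √(n : ℝ)) := ⟨_, rfl⟩
  rw [← hq] at h2
  have hq0 : 0 ≤ q := by rw [hq]; positivity
  have hpn : (1 + ε) * p n ≤ q := by
    rw [div_lt_iff₀ hl] at h1
    rw [hq, mul_assoc]
    apply mul_le_mul_of_nonneg_left _ (by positivity)
    rw [mul_div_assoc', le_div_iff₀ hsq]
    exact h1.le
  have hqs : q * √(n : ℝ) = (1 + ε) * c * Real.log n := by rw [hq]; field_simp
  -- the windows
  obtain ⟨a, ha⟩ : ∃ a, a = ⌈√(n : ℝ) / D⌉₊ := ⟨_, rfl⟩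
  obtain ⟨b, hb⟩ : ∃ b, b = ⌊(1 + ρ) * √(n : ℝ) / D⌋₊ := ⟨_, rfl⟩
  have hwin : ∀ k ∈ Ico a b, Real.exp (-(β * Real.log n) - 1) ≤ ∏ m ∈ W D k, (1 - p m) := by
    intro k hk
    rw [mem_Ico] at hk
    have e1 : √(n : ℝ) ≤ D * k := by
      have : √(n : ℝ) / D ≤ k := by
        refine (Nat.le_ceil _).trans ?_
        rw [← ha]
        exact_mod_cast hk.1
      rw [div_le_iff₀ hD] at this
      linarith
    have e2 : D * (k + 1) ≤ (1 + ρ) * √(n : ℝ) := by
      have : ((k + 1 : ℕ) : ℝ) ≤ (1 + ρ) * √(n : ℝ) / D := by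
        refine le_trans ?_ (Nat.floor_le (by positivity : 0 ≤ (1 + ρ) * √(n : ℝ) / D))
        rw [← hb]
        exact_mod_cast hk.2
      rw [le_div_iff₀ hD] at this
      push_cast at this
      linarith
    have hmem : ∀ m ∈ W D k, p m ≤ q := by
      intro m hm
      unfold W at hm
      rw [mem_Ioc] at hm
      have e3 : (D * k) ^ 2 < m := lo_lt hm.1
      have e4 : (n : ℝ) ≤ (D * k) ^ 2 := by
        have := pow_le_pow_left₀ hsq.le e1 2
        rwa [Real.sq_sqrt (by linarith)] at this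
      have e5 : n ≤ m := by
        have : (n : ℝ) < m := by linarith
        exact_mod_cast this.le
      have e6 : (m : ℝ) ≤ (1 + κ) * n := by
        have e7 : (m : ℝ) ≤ (D * ((k + 1 : ℕ) : ℝ)) ^ 2 := le_lo hm.2
        push_cast at e7
        have e8 : (D * (k + 1)) ^ 2 ≤ (1 + ρ) ^ 2 * n := by
          have e8' := pow_le_pow_left₀ (by positivity) e2 2
          rwa [mul_pow (1 + ρ), Real.sq_sqrt (by linarith : (0 : ℝ) ≤ n)] at e8'
        have e9 := mul_le_mul_of_nonneg_right hρ2 (by linarith : (0 : ℝ) ≤ n)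
        linarith
      exact (h6 m e5 e6).trans hpn
    have hcard : ((W D k).card : ℝ) ≤ 2 * D * (1 + ρ) * √(n : ℝ) + 1 := by
      unfold W
      rw [Nat.card_Ioc, Nat.cast_sub (lo_mono hD (by omega))]
      have e6 := lt_lo D k
      have e7 := lo_le D (k + 1)
      push_cast at e7
      have e8 : D * (D * (k + 1)) ≤ D * ((1 + ρ) * √(n : ℝ)) := mul_le_mul_of_nonneg_left e2 hD.le
      have e9 : 0 ≤ D * D := by positivity
      have e10 : (D * ((k : ℝ) + 1)) ^ 2 - (D * k) ^ 2 = 2 * (D * (D * (k + 1))) - D * D := by ring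
      linarith
    have hsum' : ∑ m ∈ W D k, p m ≤ (2 * D * (1 + ρ) * √(n : ℝ) + 1) * q := by
      have := Finset.sum_le_card_nsmul (W D k) p q hmem
      rw [nsmul_eq_mul] at this
      exact this.trans (mul_le_mul_of_nonneg_right hcard hq0)
    have hex := exp_le_prod (show ε / 2 < 1 by linarith) (W D k)
      (fun m hm => (hmem m hm).trans h2.le) (fun m _ => h0 m)
    refine le_trans ?_ hex
    apply Real.exp_le_exp.2
    have e8 : (2 * D * (1 + ρ) * √(n : ℝ) + 1) * q = θ / 2 * ((1 + ρ) * (1 + ε)) * Real.log n + q := by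
      rw [hθ]
      have : (2 * D * (1 + ρ) * √(n : ℝ) + 1) * q = 2 * D * (1 + ρ) * (q * √(n : ℝ)) + q := by ring
      rw [this, hqs]; ring
    have e9 : 1 / (1 - ε / 2) ≤ 1 + ε := by
      rw [div_le_iff₀ (by linarith)]
      nlinarith
    have e10 : 0 ≤ ∑ m ∈ W D k, p m := Finset.sum_nonneg (fun m _ => h0 m)
    have e11 : 1 / (1 - ε / 2) * ∑ m ∈ W D k, p m ≤ (1 + ε) * (θ / 2 * ((1 + ρ) * (1 + ε)) * Real.log n + q) := by
      refine (mul_le_mul_of_nonneg_right e9 e10).trans ?_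
      apply mul_le_mul_of_nonneg_left _ (by linarith)
      rw [← e8]
      exact hsum'
    have e12 : (1 + ε) * (θ / 2 * ((1 + ρ) * (1 + ε))) ≤ β := by
      have f1 : (1 + ε) * ((1 + ρ) * (1 + ε)) ≤ 1 + 4 * ε := by
        have f2 : (1 + ε) * ((1 + ρ) * (1 + ε)) ≤ (1 + ε) * ((1 + ε) * (1 + ε)) := by
          apply mul_le_mul_of_nonneg_left _ (by linarith)
          apply mul_le_mul_of_nonneg_right _ (by linarith)
          linarith
        refine f2.trans ?_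
        have f6 : (1 + ε) * ((1 + ε) * (1 + ε)) = 1 + 4 * ε - ε * (1 - 3 * ε - ε * ε) := by ring
        have f7 : 0 ≤ ε * (1 - 3 * ε - ε * ε) := by
          apply mul_nonneg hε0.le
          nlinarith
        linarith
      have f3 : (1 + ε) * (θ / 2 * ((1 + ρ) * (1 + ε))) = θ / 2 * ((1 + ε) * ((1 + ρ) * (1 + ε))) := by ring
      rw [f3, hβ]
      have f4 := mul_le_mul_of_nonneg_left f1 (by positivity : 0 ≤ θ / 2)
      have f5 : θ / 2 * (1 + 4 * ε) ≤ (1 + θ) / 4 := by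
        have f8 : θ * ε ≤ 1 * ε := mul_le_mul_of_nonneg_right hcD.le hε0.le
        have f9 : θ / 2 * (1 + 4 * ε) = θ / 2 + 2 * (θ * ε) := by ring
        rw [f9]
        have f10 : 2 * ε ≤ (1 - θ) / 15 := by rw [hε]; linarith
        linarith
      linarith
    have e13 : (1 + ε) * (θ / 2 * ((1 + ρ) * (1 + ε)) * Real.log n + q) ≤ β * Real.log n + 1 := by
      have g1 := mul_le_mul_of_nonneg_right e12 hl.le
      have g2 : (1 + ε) * q ≤ 1 := by nlinarith
      have g3 : (1 + ε) * (θ / 2 * ((1 + ρ) * (1 + ε)) * Real.log n + q) =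
          (1 + ε) * (θ / 2 * ((1 + ρ) * (1 + ε))) * Real.log n + (1 + ε) * q := by ring
      rw [g3]
      linarith
    rw [neg_mul]
    linarith
  have hle : ∑ k ∈ Ico a b, ∏ m ∈ W D k, (1 - p m) ≤ S := by
    rw [hS]
    exact hsum.sum_le_tsum _ (fun k _ => Finset.prod_nonneg (fun m _ => by linarith [h1' m]))
  have hge : ((Ico a b).card : ℝ) * Real.exp (-(β * Real.log n) - 1) ≤ ∑ k ∈ Ico a b, ∏ m ∈ W D k, (1 - p m) := by
    rw [← nsmul_eq_mul]
    exact Finset.card_nsmul_le_sum _ _ _ hwin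
  have hcard : ρ * √(n : ℝ) / D - 2 ≤ ((Ico a b).card : ℝ) := by
    rw [Nat.card_Ico]
    have e1 : (a : ℝ) < √(n : ℝ) / D + 1 := by rw [ha]; exact Nat.ceil_lt_add_one (by positivity)
    have e2 : (1 + ρ) * √(n : ℝ) / D < b + 1 := by rw [hb]; exact Nat.lt_floor_add_one _
    have e3 : (b : ℝ) - a ≤ ((b - a : ℕ) : ℝ) := by
      rw [sub_le_iff_le_add]
      exact_mod_cast (by omega : b ≤ (b - a) + a)
    have e4 : (1 + ρ) * √(n : ℝ) / D = √(n : ℝ) / D + ρ * √(n : ℝ) / D := by ring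
    linarith
  have hcard2 : ρ * √(n : ℝ) / (2 * D) ≤ ρ * √(n : ℝ) / D - 2 := by
    have e1 : 4 ≤ ρ * √(n : ℝ) / D := by
      rw [le_div_iff₀ hD]
      rw [div_le_iff₀ hρ0] at h4
      linarith
    have e2 : ρ * √(n : ℝ) / (2 * D) = ρ * √(n : ℝ) / D / 2 := by field_simp
    rw [e2]
    linarith
  have hfin : ρ * √(n : ℝ) / (2 * D) * Real.exp (-(β * Real.log n) - 1) ≤ S := by
    refine le_trans ?_ (hge.trans hle)
    exact mul_le_mul_of_nonneg_right (hcard2.trans hcard) (Real.exp_pos _).le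
  have hsqe : √(n : ℝ) = Real.exp ((1 / 2 - β) * Real.log n) * Real.exp (β * Real.log n) := by
    rw [← Real.exp_add, Real.sqrt_eq_rpow, Real.rpow_def_of_pos (by linarith)]
    congr 1
    ring
  have hx : ρ * √(n : ℝ) / (2 * D) * Real.exp (-(β * Real.log n) - 1) =
      Real.exp ((1 / 2 - β) * Real.log n) / (2 * D / ρ * Real.exp 1) := by
    rw [hsqe, Real.exp_sub, Real.exp_neg]
    field_simp
  rw [hx, div_le_iff₀ (by positivity)] at hfin
  have hS' : S ≤ |S| := le_abs_self S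
  have hpos : 0 < 2 * D / ρ * Real.exp 1 := by positivity
  have := mul_le_mul_of_nonneg_right hS' hpos.le
  nlinarith

end Pool.Agent.D0H68.SQ
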