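import Pool.Agent.D0H68.SQ.Gap
import Pool.Agent.D0H68.SQ.Comp

set_option autoImplicit false

open Filter Topology Finset MeasureTheory ProbabilityTheory ENNReal

namespace Pool.Agent.D0H68.SQ

/-- `liminf p n √n / log n` in `[0, ∞]` -/
noncomputable def lam (p : ℕ → ℝ) : ℝ≥0∞ :=
  liminf (fun n : ℕ => ENNReal.ofReal (p n * √n / Real.log n)) atTop

/-- `limsup (√q_{k+1} - √q_k)` in `[0, ∞]`, for the elements `q_0 < q_1 < ...` of the set -/
noncomputable def lsup (q : ℕ → Prop) : ℝ≥0∞ := limsup (fun k : ℕ => ENNReal.ofReal (gap q k)) atTop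

theorem exists_c_upper {l : ℝ≥0∞} {D : ℝ} (hD : 0 < D) (h : (4 * l)⁻¹ < ENNReal.ofReal D) :
    ∃ c : ℝ, 0 < c ∧ ENNReal.ofReal c < l ∧ 1 < 4 * c * D := by
  rw [ENNReal.inv_lt_iff_inv_lt, ← ENNReal.ofReal_inv_of_pos hD] at h
  have h2 : ENNReal.ofReal D⁻¹ / 4 < l := by
    rw [ENNReal.div_lt_iff (Or.inl (by norm_num)) (Or.inl (by norm_num))]
    rwa [mul_comm]
  obtain ⟨r, hr0, hr1, hr2⟩ := ENNReal.lt_iff_exists_real_btwn.1 h2
  rw [ENNReal.div_lt_iff (Or.inl (by norm_num)) (Or.inl (by norm_num))] at hr1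
  have h4 : (4 : ℝ≥0∞) = ENNReal.ofReal 4 := by norm_num
  rw [h4, ← ENNReal.ofReal_mul hr0, ENNReal.ofReal_lt_ofReal_iff_of_nonneg (by positivity)] at hr1
  have h5 : 1 < 4 * r * D := by
    have := mul_lt_mul_of_pos_right hr1 hD
    rw [inv_mul_cancel₀ hD.ne'] at this
    linarith
  refine ⟨r, ?_, hr2, h5⟩
  rcases hr0.eq_or_lt with h0 | h0
  · rw [← h0] at h5
    norm_num at h5
  · exact h0

theorem exists_c_lower {l : ℝ≥0∞} {D : ℝ} (hD : 0 < D) (h : ENNReal.ofReal D < (4 * l)⁻¹) :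
    ∃ c : ℝ, 0 < c ∧ l < ENNReal.ofReal c ∧ 4 * c * D < 1 := by
  rw [ENNReal.lt_inv_iff_lt_inv, ← ENNReal.ofReal_inv_of_pos hD] at h
  have h2 : l < ENNReal.ofReal D⁻¹ / 4 := by
    rw [ENNReal.lt_div_iff_mul_lt (Or.inl (by norm_num)) (Or.inl (by norm_num))]
    rwa [mul_comm]
  obtain ⟨r, hr0, hr1, hr2⟩ := ENNReal.lt_iff_exists_real_btwn.1 h2
  rw [ENNReal.lt_div_iff_mul_lt (Or.inl (by norm_num)) (Or.inl (by norm_num))] at hr2
  have h4 : (4 : ℝ≥0∞) = ENNReal.ofReal 4 := by norm_num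
  rw [h4, ← ENNReal.ofReal_mul hr0, ENNReal.ofReal_lt_ofReal_iff_of_nonneg (by positivity)] at hr2
  have h5 : 4 * r * D < 1 := by
    have := mul_lt_mul_of_pos_right hr2 hD
    rw [inv_mul_cancel₀ hD.ne'] at this
    linarith
  refine ⟨r, ?_, hr1, h5⟩
  rcases hr0.eq_or_lt with h0 | h0
  · rw [← h0] at hr1
    simp at hr1
  · exact h0

theorem large_of_lt_lam {p : ℕ → ℝ} {c : ℝ} (hc : 0 < c) (h : ENNReal.ofReal c < lam p) :
    ∀ᶠ n : ℕ in atTop, c * Real.log n / √n ≤ p n := by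
  have h1 := eventually_lt_of_lt_liminf h
  filter_upwards [h1, eventually_ge_atTop 2] with n hn hn2
  have hn0 : (1 : ℝ) < n := by exact_mod_cast (by omega : 1 < n)
  have hl : 0 < Real.log n := Real.log_pos hn0
  have hsq : 0 < √(n : ℝ) := Real.sqrt_pos.2 (by linarith)
  rw [ENNReal.ofReal_lt_ofReal_iff_of_nonneg hc.le, lt_div_iff₀ hl] at hn
  rw [div_le_iff₀ hsq]
  exact hn.le

theorem small_of_lam_lt {p : ℕ → ℝ} {c : ℝ} (hc : 0 < c) (h : lam p < ENNReal.ofReal c) :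
    ∃ᶠ n : ℕ in atTop, p n * √n / Real.log n < c := by
  have h1 := frequently_lt_of_liminf_lt (by isBoundedDefault) h
  refine h1.mono (fun n hn => ?_)
  exact (ENNReal.ofReal_lt_ofReal_iff hc).1 hn

variable {Ω : Type*} [MeasurableSpace Ω] {μ : Measure Ω} [IsProbabilityMeasure μ] {E : ℕ → Set Ω}

theorem real_le_one (n : ℕ) : μ.real (E n) ≤ 1 := measureReal_le_one

theorem ae_infinite (hE : ∀ n, MeasurableSet (E n)) (hind : iIndepSet E μ)
    (hs : ¬ Summable (fun n => μ.real (E n))) : ∀ᵐ ω ∂μ, {n | ω ∈ E n}.Infinite := by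
  have h1 : (∑' n, μ (E n)) = ∞ := by
    by_contra hne
    exact hs (ENNReal.summable_toReal hne)
  have h3 := measure_limsup_eq_one hE hind h1
  have h4 : ∀ᵐ ω ∂μ, ω ∈ limsup E atTop := by
    rw [← prob_compl_eq_zero_iff (MeasurableSet.measurableSet_limsup hE)] at h3
    exact h3
  filter_upwards [h4] with ω hω
  rw [mem_limsup_iff_frequently_mem] at hω
  exact Nat.frequently_atTop_iff_infinite.1 hω

theorem ae_upper (hE : ∀ n, MeasurableSet (E n)) (hind : iIndepSet E μ) {D : ℝ} (hD : 0 < D)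
    (h : (4 * lam (fun n => μ.real (E n)))⁻¹ < ENNReal.ofReal D) :
    ∀ᵐ ω ∂μ, lsup (fun n => ω ∈ E n) ≤ ENNReal.ofReal D := by
  obtain ⟨c, hc, hcl, hcD⟩ := exists_c_upper hD h
  obtain ⟨η, hη⟩ : ∃ η, η = (D - 1 / (4 * c)) / 3 := ⟨_, rfl⟩
  have h4c : 1 / (4 * c) < D := by
    rw [div_lt_iff₀ (by positivity)]
    linarith
  have hη0 : 0 < η := by rw [hη]; linarith
  have h4c0 : 0 < 1 / (4 * c) := by positivity
  have hηD : η < D := by rw [hη]; linarith
  obtain ⟨R, hR⟩ : ∃ R, R = ⌊D / η⌋₊ := ⟨_, rfl⟩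
  have hR1 : 1 ≤ R := by
    rw [hR]
    apply Nat.le_floor
    rw [Nat.cast_one, le_div_iff₀ hη0]
    linarith
  obtain ⟨r, hr⟩ : ∃ r, R = r + 1 := ⟨R - 1, by omega⟩
  have hr1 : η * (r + 1) ≤ D := by
    have : (R : ℝ) ≤ D / η := by rw [hR]; exact Nat.floor_le (by positivity)
    rw [le_div_iff₀ hη0, hr] at this
    push_cast at this
    linarith
  have hr2 : D < η * (r + 2) := by
    have : D / η < R + 1 := by rw [hR]; exact Nat.lt_floor_add_one _
    rw [div_lt_iff₀ hη0, hr] at this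
    push_cast at this
    linarith
  have hr3 : 1 < 4 * c * η * r := by
    have e1 : 1 / (4 * c) < η * r := by
      have : 3 * η = D - 1 / (4 * c) := by rw [hη]; ring
      nlinarith
    rw [div_lt_iff₀ (by positivity)] at e1
    linarith
  have hlow := sum_lower hc hη0 r (large_of_lt_lam hc hcl) ((1 + 4 * c * η * r) / 2) (by linarith)
  have hsum := summable_of_sum_lower (fun n => real_le_one (μ := μ) (E := E) n)
    (fun k => Ioc (lo η k) (lo η (k + r))) (by linarith) hlow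
  filter_upwards [ae_eventually_hit hE hind _ hsum] with ω hω
  obtain ⟨-, hg⟩ := event_gap hη0 r hω
  unfold lsup
  apply limsup_le_of_le
  · isBoundedDefault
  · filter_upwards [hg] with j hj
    exact ENNReal.ofReal_le_ofReal (hj.trans hr1)

theorem ae_lower (hE : ∀ n, MeasurableSet (E n)) (hind : iIndepSet E μ) (ht : Tame (fun n => μ.real (E n)))
    (hs : ¬ Summable (fun n => μ.real (E n))) {D : ℝ} (hD : 0 < D)
    (h : ENNReal.ofReal D < (4 * lam (fun n => μ.real (E n)))⁻¹) :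
    ∀ᵐ ω ∂μ, ENNReal.ofReal D ≤ lsup (fun n => ω ∈ E n) := by
  obtain ⟨c, hc, hcl, hcD⟩ := exists_c_lower hD h
  have hns := not_summable_of_frequently (fun n => measureReal_nonneg) (fun n => real_le_one (μ := μ) (E := E) n)
    ht hD hc hcD (small_of_lam_lt hc hcl)
  filter_upwards [ae_frequently_miss hE hind (W D) (W_disjoint hD) hns, ae_infinite hE hind hs] with ω h1 h2
  have h3 := freq_gap h2 hD h1
  unfold lsup
  apply le_limsup_of_frequently_le'
  exact h3.mono (fun j hj => ENNReal.ofReal_le_ofReal hj)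

/-- the exact law -/
theorem ae_law (hE : ∀ n, MeasurableSet (E n)) (hind : iIndepSet E μ) (ht : Tame (fun n => μ.real (E n)))
    (hs : ¬ Summable (fun n => μ.real (E n))) :
    ∀ᵐ ω ∂μ, {n | ω ∈ E n}.Infinite ∧
      lsup (fun n => ω ∈ E n) = (4 * lam (fun n => μ.real (E n)))⁻¹ := by
  obtain ⟨l, hl⟩ : ∃ l, l = (4 * lam (fun n => μ.real (E n)))⁻¹ := ⟨_, rfl⟩
  rw [← hl]
  have hU : ∀ q : ℚ, ∀ᵐ ω ∂μ, 0 < q → l < ENNReal.ofReal q → lsup (fun n => ω ∈ E n) ≤ ENNReal.ofReal q := by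
    intro q
    by_cases hq : 0 < q ∧ l < ENNReal.ofReal q
    · filter_upwards [ae_upper hE hind (D := (q : ℝ)) (by exact_mod_cast hq.1) (by rw [← hl]; exact hq.2)] with ω hω
      intro _ _
      exact hω
    · exact Eventually.of_forall (fun ω h1 h2 => absurd ⟨h1, h2⟩ hq)
  have hL : ∀ q : ℚ, ∀ᵐ ω ∂μ, 0 < q → ENNReal.ofReal q < l → ENNReal.ofReal q ≤ lsup (fun n => ω ∈ E n) := by
    intro q
    by_cases hq : 0 < q ∧ ENNReal.ofReal q < l
    · filter_upwards [ae_lower hE hind ht hs (D := (q : ℝ)) (by exact_mod_cast hq.1) (by rw [← hl]; exact hq.2)] with ω hω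
      intro _ _
      exact hω
    · exact Eventually.of_forall (fun ω h1 h2 => absurd ⟨h1, h2⟩ hq)
  filter_upwards [ae_all_iff.2 hU, ae_all_iff.2 hL, ae_infinite hE hind hs] with ω h1 h2 h3
  refine ⟨h3, le_antisymm ?_ ?_⟩
  · by_contra hcon
    rw [not_le] at hcon
    obtain ⟨q, hq0, hq1, hq2⟩ := ENNReal.lt_iff_exists_rat_btwn.1 hcon
    have hq : 0 < q := by
      rcases hq0.eq_or_lt with h0 | h0
      · rw [← h0] at hq1
        simp at hq1
      · exact h0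
    exact absurd (h1 q hq hq1) (not_le.2 hq2)
  · by_contra hcon
    rw [not_le] at hcon
    obtain ⟨q, hq0, hq1, hq2⟩ := ENNReal.lt_iff_exists_rat_btwn.1 hcon
    have hq : 0 < q := by
      rcases hq0.eq_or_lt with h0 | h0
      · rw [← h0] at hq1
        simp at hq1
      · exact h0
    exact absurd (h2 q hq hq2) (not_le.2 hq1)

/-- exact threshold -/
theorem crit_iff_of_tame {p : ℕ → ℝ} (h0 : ∀ n, 0 ≤ p n) (h1 : ∀ n, p n ≤ 1) (ht : Tame p) :
    Crit p ↔ Tendsto (fun n : ℕ => p n * √n / Real.log n) atTop atTop := by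
  refine ⟨fun h => ?_, crit_of_tendsto h1⟩
  by_contra hcon
  rw [tendsto_atTop] at hcon
  push Not at hcon
  obtain ⟨M', hM'⟩ := hcon
  obtain ⟨M, hMdef⟩ : ∃ M, M = max M' 1 := ⟨_, rfl⟩
  have hM1 : 1 ≤ M := by rw [hMdef]; exact le_max_right _ _
  have hM0 : 0 < M := by linarith
  have hfr : ∃ᶠ n : ℕ in atTop, p n * √n / Real.log n < M :=
    hM'.mono (fun n hn => lt_of_lt_of_le hn (by rw [hMdef]; exact le_max_left _ _))
  have hD : (0 : ℝ) < 1 / (8 * M) := by positivity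
  exact not_summable_of_frequently h0 h1 ht hD hM0 (by
    have : 4 * M * (1 / (8 * M)) = 1 / 2 := by field_simp; norm_num
    rw [this]; norm_num) hfr (h _ hD)

end Pool.Agent.D0H68.SQ
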