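import Pool.Agent.D0H68.SQ.Seq

set_option autoImplicit false

open Filter Topology Finset MeasureTheory ProbabilityTheory ENNReal

namespace Pool.Agent.D0H68.SQ

open Pool.Agent.D0H68.SD (In Pr In_nonneg In_le In_one In_zero In_meas In_int Pr_meas Pr_bd)

/-! ### the value of the infimum for tame sequences -/

theorem lo_le_U {η D : ℝ} (hη : 0 < η) (hD : 0 < D) (k : ℕ) : lo η k ≤ ⌊(η * k + D) ^ 2⌋₊ := by
  unfold lo
  apply Nat.floor_le_floor
  exact pow_le_pow_left₀ (by positivity) (by linarith) 2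

theorem sum_lower_U {p : ℕ → ℝ} {c η D : ℝ} (hc : 0 < c) (hη : 0 < η) (hD : 0 < D)
    (hp : ∀ᶠ n : ℕ in atTop, c * Real.log n / √n ≤ p n) (c' : ℝ) (hc' : c' < 4 * c * D) :
    ∀ᶠ k : ℕ in atTop, c' * Real.log k ≤ ∑ n ∈ U η D k, p n := by
  have hlog : Tendsto (fun k : ℕ => Real.log (k : ℝ)) atTop atTop :=
    Real.tendsto_log_atTop.comp tendsto_natCast_atTop_atTop
  have hkη : Tendsto (fun k : ℕ => η * (k : ℝ)) atTop atTop :=
    Tendsto.const_mul_atTop hη tendsto_natCast_atTop_atTop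
  have hA : Tendsto (fun k : ℕ => 2 * D - (D ^ 2 + 1) / (η * k + D)) atTop (𝓝 (2 * D - 0)) := by
    apply tendsto_const_nhds.sub
    apply tendsto_const_nhds.div_atTop
    exact tendsto_atTop_add_const_right _ _ hkη
  have hB : Tendsto (fun k : ℕ => 1 + Real.log η / Real.log k) atTop (𝓝 (1 + 0)) :=
    tendsto_const_nhds.add (tendsto_const_nhds.div_atTop hlog)
  have hAB := (hA.mul hB).const_mul (2 * c)
  have hlim : c' < 2 * c * ((2 * D - 0) * (1 + 0)) := by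
    have : 2 * c * ((2 * D - 0) * (1 + 0)) = 4 * c * D := by ring
    rw [this]; exact hc'
  obtain ⟨N0, hN0⟩ := eventually_atTop.1 hp
  filter_upwards [hAB.eventually (lt_mem_nhds hlim), (lo_tendsto hη).eventually (eventually_ge_atTop N0),
    hlog.eventually (eventually_gt_atTop 0), hkη.eventually (eventually_gt_atTop 1),
    eventually_ge_atTop 1] with k h1 h2 h3 h4 h5
  have hk0 : (0 : ℝ) < k := by exact_mod_cast h5
  have hlogk : Real.log (η * k) = Real.log η + Real.log k := Real.log_mul hη.ne' hk0.ne'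
  have hlogpos : 0 < Real.log (η * k) := Real.log_pos h4
  have hkr : 0 < η * (k : ℝ) + D := by positivity
  have hterm : ∀ n ∈ U η D k, c * (2 * Real.log (η * k)) / (η * k + D) ≤ p n := by
    intro n hn
    unfold U at hn
    rw [mem_Ioc] at hn
    have e1 : (η * k) ^ 2 < n := lo_lt hn.1
    have e2 : (n : ℝ) ≤ (η * k + D) ^ 2 := (Nat.le_floor_iff (by positivity)).1 hn.2
    refine le_trans ?_ (hN0 n (by omega))
    have e3 : 2 * Real.log (η * k) ≤ Real.log n := by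
      have := Real.log_le_log (by positivity) e1.le
      rw [Real.log_pow] at this
      simpa using this
    have e4 : √(n : ℝ) ≤ η * k + D := Real.sqrt_le_iff.2 ⟨hkr.le, e2⟩
    have e5 : 0 < √(n : ℝ) := Real.sqrt_pos.2 (lt_trans (by positivity) e1)
    apply div_le_div₀ _ _ e5 e4
    · have : 0 ≤ Real.log n := le_trans (by positivity) e3
      positivity
    · exact mul_le_mul_of_nonneg_left e3 hc.le
  have hcard : 2 * (η * k) * D + D ^ 2 - 1 ≤ ((U η D k).card : ℝ) := by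
    unfold U
    rw [Nat.card_Ioc, Nat.cast_sub (lo_le_U hη hD k)]
    have e1 := Nat.lt_floor_add_one ((η * k + D) ^ 2)
    have e2 := lo_le η k
    nlinarith
  have hsum : ((U η D k).card : ℝ) * (c * (2 * Real.log (η * k)) / (η * k + D)) ≤ ∑ n ∈ U η D k, p n := by
    rw [← nsmul_eq_mul]
    exact Finset.card_nsmul_le_sum _ _ _ hterm
  refine le_trans ?_ hsum
  refine le_trans ?_ (mul_le_mul_of_nonneg_right hcard (by positivity))
  have e6 : (2 * (η * k) * D + D ^ 2 - 1) * (c * (2 * Real.log (η * k)) / (η * k + D)) =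
      2 * c * ((2 * D - (D ^ 2 + 1) / (η * k + D)) * (1 + Real.log η / Real.log k)) * Real.log k := by
    rw [hlogk]
    field_simp
    ring
  rw [e6]
  exact mul_le_mul_of_nonneg_right h1.le h3.le

theorem mem_good {p : ℕ → ℝ} {c D : ℝ} (h1 : ∀ n, p n ≤ 1) (hc : 0 < c) (hD : 0 < D) (hcD : 1 < 4 * c * D)
    (hp : ∀ᶠ n : ℕ in atTop, c * Real.log n / √n ≤ p n) : D ∈ good p := by
  refine ⟨hD, fun η hη => ?_⟩
  exact summable_of_sum_lower h1 (fun k => U η D k) (c' := (1 + 4 * c * D) / 2) (by linarith)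
    (sum_lower_U hc hη hD hp _ (by linarith))

theorem notMem_good {p : ℕ → ℝ} {c D : ℝ} (h0 : ∀ n, 0 ≤ p n) (h1 : ∀ n, p n ≤ 1) (ht : Tame p)
    (hc : 0 < c) (hD : 0 < D) (hcD : 4 * c * D < 1)
    (hfr : ∃ᶠ n : ℕ in atTop, p n * √n / Real.log n < c) : D ∉ good p := by
  intro hmem
  apply not_summable_of_frequently h0 h1 ht hD hc hcD hfr
  have h2 := hmem.2 D hD
  refine h2.congr (fun k => ?_)
  have : U D D k = W D k := by
    unfold U W lo
    congr 3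
    push_cast
    ring
  rw [this]

theorem inf_good {p : ℕ → ℝ} (h0 : ∀ n, 0 ≤ p n) (h1 : ∀ n, p n ≤ 1) (ht : Tame p) :
    sInf (ENNReal.ofReal '' good p) = (4 * lam p)⁻¹ := by
  apply le_antisymm
  · by_contra hcon
    rw [not_le] at hcon
    obtain ⟨r, hr0, hr1, hr2⟩ := ENNReal.lt_iff_exists_real_btwn.1 hcon
    have hr : 0 < r := by
      rcases hr0.eq_or_lt with h | h
      · rw [← h] at hr1
        simp at hr1
      · exact h
    obtain ⟨c, hc, hcl, hcD⟩ := exists_c_upper hr hr1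
    have hmem := mem_good h1 hc hr hcD (large_of_lt_lam hc hcl)
    exact absurd hr2 (not_lt.2 (sInf_le ⟨_, hmem, rfl⟩))
  · by_contra hcon
    rw [not_le, sInf_lt_iff] at hcon
    obtain ⟨_, ⟨D, hD, rfl⟩, hDl⟩ := hcon
    obtain ⟨c, hc, hcl, hcD⟩ := exists_c_lower hD.1 hDl
    exact notMem_good h0 h1 ht hc hD.1 hcD (small_of_lam_lt hc hcl) hD

/-- the model sequence `min 1 (c log n / √n)` -/
noncomputable def pc (c : ℝ) (n : ℕ) : ℝ := min 1 (c * (Real.log n / √n))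

theorem pc_nonneg {c : ℝ} (hc : 0 < c) (n : ℕ) : 0 ≤ pc c n := by
  unfold pc
  apply le_min zero_le_one
  have : 0 ≤ Real.log n := Real.log_natCast_nonneg n
  positivity

theorem pc_le (c : ℝ) (n : ℕ) : pc c n ≤ 1 := min_le_left _ _

theorem pc_tame {c : ℝ} (hc : 0 < c) : Tame (pc c) := by
  intro ε hε
  refine ⟨1, one_pos, ?_⟩
  filter_upwards [eventually_ge_atTop ⌈Real.exp 2⌉₊] with n hn m hnm _
  have h1 : Real.exp 2 ≤ n := (Nat.le_ceil _).trans (by exact_mod_cast hn)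
  have h2 : Real.exp 2 ≤ m := h1.trans (by exact_mod_cast hnm)
  have h3 : Real.log m / √m ≤ Real.log n / √n :=
    Real.log_div_sqrt_antitoneOn h1 h2 (by exact_mod_cast hnm)
  have h4 : pc c m ≤ pc c n := min_le_min le_rfl (mul_le_mul_of_nonneg_left h3 hc.le)
  have h5 := pc_nonneg hc n
  nlinarith

theorem pc_lam {c : ℝ} (hc : 0 < c) : lam (pc c) = ENNReal.ofReal c := by
  unfold lam
  apply Tendsto.liminf_eq
  have hsmall : Tendsto (fun k : ℕ => c * (Real.log (k : ℝ) / √(k : ℝ))) atTop (𝓝 (c * 0)) := by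
    apply Filter.Tendsto.const_mul
    have := (isLittleO_log_rpow_atTop (by norm_num : (0 : ℝ) < 1 / 2)).tendsto_div_nhds_zero
    refine (this.comp tendsto_natCast_atTop_atTop).congr (fun k => ?_)
    simp only [Function.comp, Real.sqrt_eq_rpow]
  rw [mul_zero] at hsmall
  apply tendsto_const_nhds.congr'
  filter_upwards [hsmall.eventually (gt_mem_nhds one_pos), eventually_ge_atTop 2] with n hn hn2
  have hn0 : (1 : ℝ) < n := by exact_mod_cast (by omega : 1 < n)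
  have hl : 0 < Real.log n := Real.log_pos hn0
  have hsq : 0 < √(n : ℝ) := Real.sqrt_pos.2 (by linarith)
  have : pc c n = c * (Real.log n / √n) := min_eq_right hn.le
  rw [this]
  congr 1
  field_simp

theorem pc_inf {c : ℝ} (hc : 0 < c) : sInf (ENNReal.ofReal '' good (pc c)) = (4 * ENNReal.ofReal c)⁻¹ := by
  rw [inf_good (pc_nonneg hc) (pc_le c) (pc_tame hc), pc_lam hc]

/-! ### sequential models -/

variable {Ω : Type} {m0 : MeasurableSpace Ω} {μ : Measure Ω} [IsProbabilityMeasure μ]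
  {ℱ : Filtration ℕ m0} {S V : ℕ → Set Ω} {p : ℕ → ℝ}

theorem seq_DQ (hS : ∀ n, MeasurableSet[ℱ n] (S n)) (h1 : ∀ n, p n ≤ 1) (h : Crit p) :
    ∀ᵐ ω ∂μ, (∀ᶠ n in atTop, p (n + 1) ≤ Pr μ ℱ S n ω) → DQ (fun n => ω ∈ S n) := by
  have h2 : ∀ m : ℕ, ∀ᵐ ω ∂μ, (∀ᶠ n in atTop, p (n + 1) ≤ Pr μ ℱ S n ω) →
      ∀ᶠ k in atTop, ∃ n ∈ W (1 / ((m : ℝ) + 1)) k, ω ∈ S n := by
    intro m
    have hδ : (0 : ℝ) < 1 / ((m : ℝ) + 1) := by positivity
    exact seqU hS h1 (lo (1 / ((m : ℝ) + 1))) (fun k => lo (1 / ((m : ℝ) + 1)) (k + 1)) (lo_tendsto hδ)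
      (fun k => lo_mono hδ (by omega)) (h _ hδ)
  filter_upwards [ae_all_iff.2 h2] with ω hω hq
  exact DQ_of_win (fun m => hω m hq)

theorem seq_not_DQ (hS : ∀ n, MeasurableSet[ℱ n] (S n)) (h0 : ∀ n, 0 ≤ p n) (h1 : ∀ n, p n ≤ 1)
    (h : ¬ Crit p) :
    ∀ᵐ ω ∂μ, (∀ᶠ n in atTop, Pr μ ℱ S n ω ≤ p (n + 1)) → ¬ DQ (fun n => ω ∈ S n) := by
  unfold Crit at h
  push Not at h
  obtain ⟨δ, hδ, hs⟩ := h
  filter_upwards [seqL hS h0 h1 (lo δ) (fun k => lo δ (k + 1)) (lo_tendsto hδ)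
    (fun k => lo_mono hδ (by omega)) (fun k => le_rfl) hs] with ω hω hq hD
  obtain ⟨k, h2, n, h3, h4⟩ := ((hω hq).and_eventually (win_of_DQ hD hδ)).exists
  exact h2 n h3 h4

theorem seq_le_good (hS : ∀ n, MeasurableSet[ℱ n] (S n)) (h1 : ∀ n, p n ≤ 1) {D : ℝ} (h : D ∈ good p) :
    ∀ᵐ ω ∂μ, (∀ᶠ n in atTop, p (n + 1) ≤ Pr μ ℱ S n ω) →
      {n | ω ∈ S n}.Infinite ∧ lsup (fun n => ω ∈ S n) ≤ ENNReal.ofReal D := by
  obtain ⟨hD, h⟩ := h
  have h2 : ∀ m : ℕ, ∀ᵐ ω ∂μ, (∀ᶠ n in atTop, p (n + 1) ≤ Pr μ ℱ S n ω) →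
      ∀ᶠ k in atTop, ∃ n ∈ U (1 / ((m : ℝ) + 1)) D k, ω ∈ S n := by
    intro m
    have hδ : (0 : ℝ) < 1 / ((m : ℝ) + 1) := by positivity
    exact seqU hS h1 (lo (1 / ((m : ℝ) + 1))) _ (lo_tendsto hδ) (fun k => lo_le_U hδ hD k) (h _ hδ)
  filter_upwards [ae_all_iff.2 h2] with ω hω hq
  have hinf : {n | ω ∈ S n}.Infinite := by
    have hδ : (0 : ℝ) < 1 / (((0 : ℕ) : ℝ) + 1) := by norm_num
    apply Set.infinite_of_forall_exists_gt
    intro N
    obtain ⟨k, h3, h4⟩ := ((hω 0 hq).and ((lo_tendsto hδ).eventually (eventually_ge_atTop N))).exists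
    obtain ⟨n, hn, hpn⟩ := h3
    unfold U at hn
    rw [mem_Ioc] at hn
    exact ⟨n, hpn, by omega⟩
  refine ⟨hinf, ?_⟩
  have h3 : ∀ m : ℕ, lsup (fun n => ω ∈ S n) ≤ ENNReal.ofReal (1 / ((m : ℝ) + 1) + D) := by
    intro m
    have h4 := event_gap_U (by positivity) hD (hω m hq)
    unfold lsup
    apply limsup_le_of_le
    · isBoundedDefault
    · filter_upwards [h4] with j hj
      exact ENNReal.ofReal_le_ofReal hj
  have h5 : Tendsto (fun m : ℕ => ENNReal.ofReal (1 / ((m : ℝ) + 1) + D)) atTop (𝓝 (ENNReal.ofReal (0 + D))) :=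
    ENNReal.tendsto_ofReal (tendsto_one_div_add_atTop_nhds_zero_nat.add_const D)
  rw [zero_add] at h5
  exact ge_of_tendsto' h5 h3

theorem seq_ge_bad (hS : ∀ n, MeasurableSet[ℱ n] (S n)) (h0 : ∀ n, 0 ≤ p n) (h1 : ∀ n, p n ≤ 1)
    {D : ℝ} (hD : 0 < D) (h : D ∉ good p) :
    ∀ᵐ ω ∂μ, (∀ᶠ n in atTop, Pr μ ℱ S n ω ≤ p (n + 1)) → {n | ω ∈ S n}.Infinite →
      ENNReal.ofReal D ≤ lsup (fun n => ω ∈ S n) := by
  unfold good at h
  simp only [Set.mem_setOf_eq, not_and] at h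
  have h' := h hD
  push Not at h'
  obtain ⟨η, hη, hns⟩ := h'
  obtain ⟨m, hmdef⟩ : ∃ m, m = ⌈D / η⌉₊ := ⟨_, rfl⟩
  have hm : 1 ≤ m := by
    rw [hmdef]
    exact Nat.ceil_pos.2 (by positivity)
  have hmD : D ≤ η * m := by
    have : D / η ≤ m := by rw [hmdef]; exact Nat.le_ceil _
    rw [div_le_iff₀ hη] at this
    linarith
  obtain ⟨i, hi⟩ := exists_class hns m hm
  have ht : Tendsto (fun j : ℕ => m * j + i) atTop atTop :=
    tendsto_atTop_mono (fun j => le_trans (Nat.le_mul_of_pos_left j (by omega)) (Nat.le_add_right _ _)) tendsto_id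
  have hord : ∀ j : ℕ, ⌊(η * ((m * j + i : ℕ) : ℝ) + D) ^ 2⌋₊ ≤ lo η (m * (j + 1) + i) := by
    intro j
    unfold lo
    apply Nat.floor_le_floor
    apply pow_le_pow_left₀ (by positivity)
    push_cast
    nlinarith
  have hmiss := seqL (μ := μ) hS h0 h1 (fun j => lo η (m * j + i)) (fun j => ⌊(η * ((m * j + i : ℕ) : ℝ) + D) ^ 2⌋₊)
    ((lo_tendsto hη).comp ht) (fun j => lo_le_U hη hD _) hord hi
  filter_upwards [hmiss] with ω h2 hq hinf
  have h3 : ∃ᶠ k in atTop, ∀ n ∈ U η D k, ω ∉ S n := ht.frequently (h2 hq)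
  unfold lsup
  apply le_limsup_of_frequently_le'
  exact (freq_gap_U hinf hη hD h3).mono (fun j hj => ENNReal.ofReal_le_ofReal hj)

/-- comparison with independent models: at least `p` -/
theorem seq_le (hS : ∀ n, MeasurableSet[ℱ n] (S n)) (h1 : ∀ n, p n ≤ 1) :
    ∀ᵐ ω ∂μ, (∀ᶠ n in atTop, p (n + 1) ≤ Pr μ ℱ S n ω) →
      ((good p).Nonempty → {n | ω ∈ S n}.Infinite) ∧
      lsup (fun n => ω ∈ S n) ≤ sInf (ENNReal.ofReal '' good p) := by
  obtain ⟨l, hl⟩ : ∃ l, l = sInf (ENNReal.ofReal '' good p) := ⟨_, rfl⟩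
  rw [← hl]
  have hU : ∀ q : ℚ, ∀ᵐ ω ∂μ, (∀ᶠ n in atTop, p (n + 1) ≤ Pr μ ℱ S n ω) → l < ENNReal.ofReal q →
      lsup (fun n => ω ∈ S n) ≤ ENNReal.ofReal q := by
    intro q
    by_cases hq : l < ENNReal.ofReal q
    · have hq' := hq
      rw [hl, sInf_lt_iff] at hq'
      obtain ⟨_, ⟨D, hD, rfl⟩, hDq⟩ := hq'
      filter_upwards [seq_le_good hS h1 hD] with ω hω h2
      intro _
      exact (hω h2).2.trans hDq.le
    · exact Eventually.of_forall (fun ω _ h1 => absurd h1 hq)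
  have hI : ∀ᵐ ω ∂μ, (∀ᶠ n in atTop, p (n + 1) ≤ Pr μ ℱ S n ω) → (good p).Nonempty → {n | ω ∈ S n}.Infinite := by
    by_cases hne : (good p).Nonempty
    · obtain ⟨D, hD⟩ := hne
      filter_upwards [seq_le_good hS h1 hD] with ω hω h2 _
      exact (hω h2).1
    · exact Eventually.of_forall (fun ω _ h => absurd h hne)
  filter_upwards [ae_all_iff.2 hU, hI] with ω h2 h3 hq
  refine ⟨h3 hq, ?_⟩
  by_contra hcon
  rw [not_le] at hcon
  obtain ⟨q, hq0, hq1, hq2⟩ := ENNReal.lt_iff_exists_rat_btwn.1 hcon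
  exact absurd (h2 q hq hq1) (not_le.2 hq2)

/-- comparison with independent models: at most `p` -/
theorem seq_ge (hS : ∀ n, MeasurableSet[ℱ n] (S n)) (h0 : ∀ n, 0 ≤ p n) (h1 : ∀ n, p n ≤ 1) :
    ∀ᵐ ω ∂μ, (∀ᶠ n in atTop, Pr μ ℱ S n ω ≤ p (n + 1)) → {n | ω ∈ S n}.Infinite →
      sInf (ENNReal.ofReal '' good p) ≤ lsup (fun n => ω ∈ S n) := by
  obtain ⟨l, hl⟩ : ∃ l, l = sInf (ENNReal.ofReal '' good p) := ⟨_, rfl⟩
  rw [← hl]
  have hL : ∀ q : ℚ, ∀ᵐ ω ∂μ, (∀ᶠ n in atTop, Pr μ ℱ S n ω ≤ p (n + 1)) → {n | ω ∈ S n}.Infinite →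
      0 < q → ENNReal.ofReal q < l → ENNReal.ofReal q ≤ lsup (fun n => ω ∈ S n) := by
    intro q
    by_cases hq : 0 < q ∧ ENNReal.ofReal q < l
    · have hnot : (q : ℝ) ∉ good p := by
        intro hmem
        have : l ≤ ENNReal.ofReal q := by
          rw [hl]
          exact sInf_le ⟨_, hmem, rfl⟩
        exact absurd hq.2 (not_lt.2 this)
      filter_upwards [seq_ge_bad hS h0 h1 (D := (q : ℝ)) (by exact_mod_cast hq.1) hnot] with ω hω h2 h3
      intro _ _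
      exact hω h2 h3
    · exact Eventually.of_forall (fun ω _ _ h1 h2 => absurd ⟨h1, h2⟩ hq)
  filter_upwards [ae_all_iff.2 hL] with ω h2 hq hinf
  by_contra hcon
  rw [not_le] at hcon
  obtain ⟨q, hq0, hq1, hq2⟩ := ENNReal.lt_iff_exists_rat_btwn.1 hcon
  have hq' : 0 < q := by
    rcases hq0.eq_or_lt with h0 | h0
    · rw [← h0] at hq1
      simp at hq1
    · exact h0
  exact absurd (h2 q hq hinf hq' hq2) (not_le.2 hq1)

end Pool.Agent.D0H68.SQ
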