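import Pool.Agent.D0H68.SQ.Win

set_option autoImplicit false

open Filter Topology Finset MeasureTheory ProbabilityTheory ENNReal

namespace Pool.Agent.D0H68.SQ

variable {Ω : Type*} [MeasurableSpace Ω] {μ : Measure Ω} [IsProbabilityMeasure μ] {E : ℕ → Set Ω}

/-- no event with index in `T` happens -/
def Bad (E : ℕ → Set Ω) (T : Finset ℕ) : Set Ω := ⋂ n ∈ T, (E n)ᶜ

theorem mem_bad (T : Finset ℕ) (ω : Ω) : ω ∈ Bad E T ↔ ∀ n ∈ T, ω ∉ E n := by
  unfold Bad
  simp

theorem measurableSet_bad (hE : ∀ n, MeasurableSet (E n)) (T : Finset ℕ) : MeasurableSet (Bad E T) :=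
  Finset.measurableSet_biInter T (fun n _ => (hE n).compl)

theorem measure_bad' (hind : iIndepSet E μ) (T : Finset ℕ) : μ (Bad E T) = ∏ n ∈ T, μ (E n)ᶜ := by
  unfold Bad
  apply (iIndepSet_iff E μ).1 hind T
  intro i _
  exact (MeasurableSpace.measurableSet_generateFrom (Set.mem_singleton _)).compl

theorem measure_bad (hE : ∀ n, MeasurableSet (E n)) (hind : iIndepSet E μ) (T : Finset ℕ) :
    μ (Bad E T) = ENNReal.ofReal (∏ n ∈ T, (1 - μ.real (E n))) := by
  rw [measure_bad' hind, ENNReal.ofReal_prod_of_nonneg]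
  · apply Finset.prod_congr rfl
    intro n _
    rw [← probReal_compl_eq_one_sub (hE n), ofReal_measureReal]
  · intro n _
    have : μ.real (E n) ≤ 1 := measureReal_le_one
    linarith

theorem ae_eventually_hit (hE : ∀ n, MeasurableSet (E n)) (hind : iIndepSet E μ) (T : ℕ → Finset ℕ)
    (hs : Summable (fun k => ∏ n ∈ T k, (1 - μ.real (E n)))) :
    ∀ᵐ ω ∂μ, ∀ᶠ k in atTop, ∃ n ∈ T k, ω ∈ E n := by
  have h1 : (∑' k, μ (Bad E (T k))) ≠ ∞ := by
    simp_rw [measure_bad hE hind]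
    exact hs.tsum_ofReal_ne_top
  filter_upwards [ae_eventually_notMem h1] with ω hω
  filter_upwards [hω] with k hk
  rw [mem_bad] at hk
  push Not at hk
  exact hk

theorem ae_frequently_miss (hE : ∀ n, MeasurableSet (E n)) (hind : iIndepSet E μ) (T : ℕ → Finset ℕ)
    (hT : ∀ i j, i ≠ j → Disjoint (T i) (T j))
    (hs : ¬ Summable (fun k => ∏ n ∈ T k, (1 - μ.real (E n)))) :
    ∀ᵐ ω ∂μ, ∃ᶠ k in atTop, ∀ n ∈ T k, ω ∉ E n := by
  have hprod : ∀ k, 0 ≤ ∏ n ∈ T k, (1 - μ.real (E n)) := by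
    intro k
    apply Finset.prod_nonneg
    intro n _
    have : μ.real (E n) ≤ 1 := measureReal_le_one
    linarith
  have h1 : (∑' k, μ (Bad E (T k))) = ∞ := by
    by_contra hne
    apply hs
    have := ENNReal.summable_toReal hne
    refine this.congr (fun k => ?_)
    rw [measure_bad hE hind, ENNReal.toReal_ofReal (hprod k)]
  have hI : iIndepSet (fun k => Bad E (T k)) μ := by
    rw [iIndepSet_iff_meas_biInter (fun k => measurableSet_bad hE (T k))]
    intro s
    have h2 : (⋂ k ∈ s, Bad E (T k)) = Bad E (s.biUnion T) := by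
      unfold Bad
      rw [Finset.set_biInter_biUnion]
    rw [h2, measure_bad' hind, Finset.prod_biUnion]
    · apply Finset.prod_congr rfl
      intro k _
      rw [measure_bad' hind]
    · intro i _ j _ hij
      exact hT i j hij
  have h3 := measure_limsup_eq_one (fun k => measurableSet_bad hE (T k)) hI h1
  have h4 : ∀ᵐ ω ∂μ, ω ∈ limsup (fun k => Bad E (T k)) atTop := by
    rw [← prob_compl_eq_zero_iff (MeasurableSet.measurableSet_limsup (fun k => measurableSet_bad hE (T k)))] at h3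
    exact h3
  filter_upwards [h4] with ω hω
  rw [mem_limsup_iff_frequently_mem] at hω
  refine hω.mono (fun k hk => ?_)
  rwa [mem_bad] at hk

theorem W_disjoint {δ : ℝ} (hδ : 0 < δ) (i j : ℕ) (h : i ≠ j) : Disjoint (W δ i) (W δ j) := by
  rw [Finset.disjoint_left]
  intro n hn hn'
  unfold W at hn hn'
  rw [mem_Ioc] at hn hn'
  rcases lt_or_gt_of_ne h with h' | h'
  · have := lo_mono hδ (show i + 1 ≤ j by omega)
    omega
  · have := lo_mono hδ (show j + 1 ≤ i by omega)
    omega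

/-- the series of the probabilities of no success in the windows `((δ k) ^ 2, (δ (k + 1)) ^ 2]` converges for
every `δ > 0` -/
def Crit (p : ℕ → ℝ) : Prop := ∀ δ : ℝ, 0 < δ → Summable (fun k => ∏ n ∈ W δ k, (1 - p n))

theorem ae_DQ (hE : ∀ n, MeasurableSet (E n)) (hind : iIndepSet E μ) (h : Crit (fun n => μ.real (E n))) :
    ∀ᵐ ω ∂μ, DQ (fun n => ω ∈ E n) := by
  have h1 : ∀ m : ℕ, ∀ᵐ ω ∂μ, ∀ᶠ k in atTop, ∃ n ∈ W (1 / ((m : ℝ) + 1)) k, ω ∈ E n :=
    fun m => ae_eventually_hit hE hind _ (h _ (by positivity))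
  filter_upwards [ae_all_iff.2 h1] with ω hω
  exact DQ_of_win hω

theorem ae_not_DQ (hE : ∀ n, MeasurableSet (E n)) (hind : iIndepSet E μ)
    (h : ¬ Crit (fun n => μ.real (E n))) : ∀ᵐ ω ∂μ, ¬ DQ (fun n => ω ∈ E n) := by
  unfold Crit at h
  push Not at h
  obtain ⟨δ, hδ, hs⟩ := h
  filter_upwards [ae_frequently_miss hE hind (W δ) (W_disjoint hδ) hs] with ω hω hD
  obtain ⟨k, h1, n, h2, h3⟩ := (hω.and_eventually (win_of_DQ hD hδ)).exists
  exact h1 n h2 h3

end Pool.Agent.D0H68.SQ
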