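import Pool.Agent.D0H68.SQ.Path

set_option autoImplicit false

open Filter Topology Finset MeasureTheory ProbabilityTheory ENNReal

namespace Pool.Agent.D0H68.SQ

open Pool.Agent.D0H68.SD (In Pr In_nonneg In_le In_one In_zero In_meas In_int Pr_meas Pr_bd)

theorem DQ_of_lsup_zero {q : ℕ → Prop} (hinf : {n | q n}.Infinite) (h : lsup q = 0) : DQ q := by
  refine ⟨hinf, ?_⟩
  have h1 : Tendsto (fun k : ℕ => ENNReal.ofReal (gap q k)) atTop (𝓝 0) :=
    tendsto_of_le_liminf_of_limsup_le zero_le (le_of_eq h)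
  have h2 := (ENNReal.tendsto_toReal ENNReal.zero_ne_top).comp h1
  refine h2.congr (fun k => ?_)
  simp only [Function.comp]
  rw [ENNReal.toReal_ofReal (gap_nonneg hinf k)]
  rfl

theorem lsup_zero_of_DQ {q : ℕ → Prop} (h : DQ q) : lsup q = 0 := by
  unfold lsup
  apply Tendsto.limsup_eq
  have h1 := ENNReal.tendsto_ofReal h.2
  rw [ENNReal.ofReal_zero] at h1
  exact h1

variable {Ω : Type} {m0 : MeasurableSpace Ω} {μ : Measure Ω} [IsProbabilityMeasure μ]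
  {ℱ : Filtration ℕ m0} {S : ℕ → Set Ω}

/-- the normalised conditional probability of the choice of `n + 1` -/
noncomputable def cn (μ : Measure Ω) (ℱ : Filtration ℕ m0) (S : ℕ → Set Ω) (n : ℕ) (ω : Ω) : ℝ≥0∞ :=
  ENNReal.ofReal ((μ[(S (n + 1)).indicator (fun _ => (1 : ℝ)) | ℱ n]) ω * √((n + 1 : ℕ) : ℝ) /
    Real.log ((n + 1 : ℕ) : ℝ))

theorem pathwise (hS : ∀ n, MeasurableSet[ℱ n] (S n)) :
    ∀ᵐ ω ∂μ,
      (0 < liminf (fun n => cn μ ℱ S n ω) atTop → {n | ω ∈ S n}.Infinite) ∧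
      ({n | ω ∈ S n}.Infinite →
        (4 * limsup (fun n => cn μ ℱ S n ω) atTop)⁻¹ ≤ lsup (fun n => ω ∈ S n) ∧
        lsup (fun n => ω ∈ S n) ≤ (4 * liminf (fun n => cn μ ℱ S n ω) atTop)⁻¹) := by
  have hU : ∀ q : ℚ, ∀ᵐ ω ∂μ, 0 < q → (∀ᶠ n in atTop, pc (q : ℝ) (n + 1) ≤ Pr μ ℱ S n ω) →
      {n | ω ∈ S n}.Infinite ∧ lsup (fun n => ω ∈ S n) ≤ (4 * ENNReal.ofReal (q : ℝ))⁻¹ := by
    intro q
    by_cases hq : 0 < q
    · have hq' : (0 : ℝ) < q := by exact_mod_cast hq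
      filter_upwards [seq_le (μ := μ) hS (pc_le (q : ℝ))] with ω hω _ h2
      obtain ⟨h3, h4⟩ := hω h2
      rw [pc_inf hq'] at h4
      refine ⟨h3 ?_, h4⟩
      by_contra hne
      rw [Set.not_nonempty_iff_eq_empty] at hne
      have h5 := pc_inf hq'
      rw [hne, Set.image_empty, sInf_empty] at h5
      have h6 : (4 * ENNReal.ofReal (q : ℝ)) = 0 := by
        rw [← ENNReal.inv_eq_top]
        exact h5.symm
      rw [mul_eq_zero] at h6
      rcases h6 with h6 | h6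
      · norm_num at h6
      · rw [ENNReal.ofReal_eq_zero] at h6
        linarith
    · exact Eventually.of_forall (fun ω h => absurd h hq)
  have hL : ∀ q : ℚ, ∀ᵐ ω ∂μ, 0 < q → (∀ᶠ n in atTop, Pr μ ℱ S n ω ≤ pc (q : ℝ) (n + 1)) →
      {n | ω ∈ S n}.Infinite → (4 * ENNReal.ofReal (q : ℝ))⁻¹ ≤ lsup (fun n => ω ∈ S n) := by
    intro q
    by_cases hq : 0 < q
    · have hq' : (0 : ℝ) < q := by exact_mod_cast hq
      filter_upwards [seq_ge (μ := μ) hS (pc_nonneg hq') (pc_le (q : ℝ))] with ω hω _ h2 h3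
      have h4 := hω h2 h3
      rwa [pc_inf hq'] at h4
    · exact Eventually.of_forall (fun ω h => absurd h hq)
  have hb : ∀ᵐ ω ∂μ, ∀ n, 0 ≤ Pr μ ℱ S n ω ∧ Pr μ ℱ S n ω ≤ 1 := ae_all_iff.2 fun n => Pr_bd hS n
  filter_upwards [ae_all_iff.2 hU, ae_all_iff.2 hL, hb] with ω h1 h2 h3
  -- large conditional probabilities
  have hlarge : ∀ q : ℚ, 0 < q → ENNReal.ofReal (q : ℝ) < liminf (fun n => cn μ ℱ S n ω) atTop →
      ∀ᶠ n in atTop, pc (q : ℝ) (n + 1) ≤ Pr μ ℱ S n ω := by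
    intro q hq hlt
    have hq' : (0 : ℝ) < q := by exact_mod_cast hq
    filter_upwards [eventually_lt_of_lt_liminf hlt, eventually_ge_atTop 1] with n hn hn1
    have hn0 : (1 : ℝ) < ((n + 1 : ℕ) : ℝ) := by exact_mod_cast (by omega : 1 < n + 1)
    have hl : 0 < Real.log ((n + 1 : ℕ) : ℝ) := Real.log_pos hn0
    have hsq : 0 < √((n + 1 : ℕ) : ℝ) := Real.sqrt_pos.2 (by linarith)
    unfold cn at hn
    rw [ENNReal.ofReal_lt_ofReal_iff_of_nonneg hq'.le, lt_div_iff₀ hl] at hn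
    refine (min_le_right _ _).trans ?_
    rw [mul_div_assoc', div_le_iff₀ hsq]
    exact hn.le
  have hsmall : ∀ q : ℚ, 0 < q → limsup (fun n => cn μ ℱ S n ω) atTop < ENNReal.ofReal (q : ℝ) →
      ∀ᶠ n in atTop, Pr μ ℱ S n ω ≤ pc (q : ℝ) (n + 1) := by
    intro q hq hlt
    have hq' : (0 : ℝ) < q := by exact_mod_cast hq
    filter_upwards [eventually_lt_of_limsup_lt hlt, eventually_ge_atTop 1] with n hn hn1
    have hn0 : (1 : ℝ) < ((n + 1 : ℕ) : ℝ) := by exact_mod_cast (by omega : 1 < n + 1)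
    have hl : 0 < Real.log ((n + 1 : ℕ) : ℝ) := Real.log_pos hn0
    have hsq : 0 < √((n + 1 : ℕ) : ℝ) := Real.sqrt_pos.2 (by linarith)
    unfold cn at hn
    rw [ENNReal.ofReal_lt_ofReal_iff hq', div_lt_iff₀ hl] at hn
    unfold pc
    apply le_min (h3 n).2
    rw [mul_div_assoc', le_div_iff₀ hsq]
    exact hn.le
  have hqpos : ∀ {x : ℝ≥0∞} {q : ℚ}, 0 ≤ q → x < ENNReal.ofReal (q : ℝ) → 0 < q := by
    intro x q h0 hx
    rcases h0.eq_or_lt with h | h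
    · rw [← h] at hx
      simp at hx
    · exact h
  have h4ne : (4 : ℝ≥0∞) ≠ 0 := by norm_num
  have h4top : (4 : ℝ≥0∞) ≠ ∞ := by norm_num
  refine ⟨?_, fun hinf => ⟨?_, ?_⟩⟩
  · intro hpos
    obtain ⟨q, hq0, hq1, hq2⟩ := ENNReal.lt_iff_exists_rat_btwn.1 hpos
    have hq := hqpos hq0 hq1
    exact (h1 q hq (hlarge q hq hq2)).1
  · rw [ENNReal.inv_le_iff_inv_le]
    by_contra hcon
    rw [not_le] at hcon
    have h5 : limsup (fun n => cn μ ℱ S n ω) atTop < (lsup (fun n => ω ∈ S n))⁻¹ / 4 := by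
      rw [ENNReal.lt_div_iff_mul_lt (Or.inl h4ne) (Or.inl h4top), mul_comm]
      exact hcon
    obtain ⟨q, hq0, hq1, hq2⟩ := ENNReal.lt_iff_exists_rat_btwn.1 h5
    have hq := hqpos hq0 hq1
    have h6 := h2 q hq (hsmall q hq hq1) hinf
    rw [ENNReal.inv_le_iff_inv_le] at h6
    have h7 : ENNReal.ofReal (q : ℝ) < (lsup (fun n => ω ∈ S n))⁻¹ / 4 := hq2
    rw [ENNReal.lt_div_iff_mul_lt (Or.inl h4ne) (Or.inl h4top), mul_comm] at h7
    exact absurd h6 (not_le.2 h7)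
  · rw [ENNReal.le_inv_iff_le_inv]
    by_contra hcon
    rw [not_le] at hcon
    have h5 : (lsup (fun n => ω ∈ S n))⁻¹ / 4 < liminf (fun n => cn μ ℱ S n ω) atTop := by
      rw [ENNReal.div_lt_iff (Or.inl h4ne) (Or.inl h4top), mul_comm]
      exact hcon
    obtain ⟨q, hq0, hq1, hq2⟩ := ENNReal.lt_iff_exists_rat_btwn.1 h5
    have hq := hqpos hq0 hq1
    have h6 := (h1 q hq (hlarge q hq hq2)).2
    rw [ENNReal.le_inv_iff_le_inv] at h6
    have h7 : (lsup (fun n => ω ∈ S n))⁻¹ / 4 < ENNReal.ofReal (q : ℝ) := hq1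
    rw [ENNReal.div_lt_iff (Or.inl h4ne) (Or.inl h4top), mul_comm] at h7
    exact absurd h6 (not_le.2 h7)

/-- the statement of the question, pathwise, for all random sets -/
theorem pathwise_DQ (hS : ∀ n, MeasurableSet[ℱ n] (S n)) :
    ∀ᵐ ω ∂μ,
      (liminf (fun n => cn μ ℱ S n ω) atTop = ∞ → DQ (fun n => ω ∈ S n)) ∧
      (limsup (fun n => cn μ ℱ S n ω) atTop < ∞ → ¬ DQ (fun n => ω ∈ S n)) := by
  filter_upwards [pathwise (μ := μ) hS] with ω h
  obtain ⟨h1, h2⟩ := h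
  constructor
  · intro h3
    have hinf := h1 (by rw [h3]; exact ENNReal.zero_lt_top)
    apply DQ_of_lsup_zero hinf
    have h4 := (h2 hinf).2
    rw [h3] at h4
    have h5 : (4 * (∞ : ℝ≥0∞))⁻¹ = 0 := by
      rw [ENNReal.mul_top (by norm_num), ENNReal.inv_top]
    rw [h5] at h4
    exact le_antisymm h4 zero_le
  · intro h3 hD
    have h4 := (h2 hD.1).1
    rw [lsup_zero_of_DQ hD] at h4
    have h5 := le_antisymm h4 zero_le
    rw [ENNReal.inv_eq_zero] at h5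
    exact absurd h5 (ENNReal.mul_ne_top (by norm_num) h3.ne)

end Pool.Agent.D0H68.SQ
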