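import Pool.Agent.D0H68.SQ.Wl2

set_option autoImplicit false

open Filter Topology Finset MeasureTheory ProbabilityTheory ENNReal

namespace Pool.Agent.D0H68.SQ

open Pool.Agent.D0H68.SD (In Pr In_nonneg In_le In_one In_zero In_meas In_int Pr_meas Pr_bd)

variable {Ω : Type} {m0 : MeasurableSpace Ω} {μ : Measure Ω} [IsProbabilityMeasure μ]
  {ℱ : Filtration ℕ m0} {S V : ℕ → Set Ω}

/-- the product of the conditional probabilities of not choosing `m`, `a < m ≤ b` -/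
noncomputable def Qm (μ : Measure Ω) (ℱ : Filtration ℕ m0) (S : ℕ → Set Ω) (a b : ℕ) (ω : Ω) : ℝ :=
  ∏ n ∈ Ico a b, (1 - Pr μ ℱ S n ω)

theorem Qm_meas (a b : ℕ) : StronglyMeasurable[ℱ (b - 1)] (Qm μ ℱ S a b) := by
  unfold Qm
  apply Finset.stronglyMeasurable_fun_prod
  intro j hj
  rw [mem_Ico] at hj
  exact stronglyMeasurable_const.sub ((Pr_meas j).mono (ℱ.mono (by omega)))

theorem Qm_succ {a b : ℕ} (hab : a ≤ b) (ω : Ω) :
    Qm μ ℱ S a (b + 1) ω = Qm μ ℱ S a b ω * (1 - Pr μ ℱ S b ω) := by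
  unfold Qm
  rw [Finset.prod_Ico_succ_top hab]

theorem Qm_anti {ω : Ω} (h : ∀ n, 0 ≤ Pr μ ℱ S n ω ∧ Pr μ ℱ S n ω ≤ 1) (a : ℕ) {b c : ℕ} (hbc : b ≤ c) :
    Qm μ ℱ S a c ω ≤ Qm μ ℱ S a b ω := by
  unfold Qm
  apply Finset.prod_le_prod_of_subset_of_le_one
  · intro x hx
    rw [mem_Ico] at hx ⊢
    omega
  · intro n _
    linarith [(h n).2]
  · intro n _ _
    linarith [(h n).1]

/-- the product of the inverses, cut at `q` -/
noncomputable def Gq (μ : Measure Ω) (ℱ : Filtration ℕ m0) (S : ℕ → Set Ω) (q : ℝ) (a b : ℕ) (ω : Ω) : ℝ :=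
  ∏ n ∈ Ico a b, (max (1 - Pr μ ℱ S n ω) q)⁻¹

theorem Gq_meas {q : ℝ} (hq : 0 < q) (a b : ℕ) : StronglyMeasurable[ℱ (b - 1)] (Gq μ ℱ S q a b) := by
  unfold Gq
  apply Finset.stronglyMeasurable_fun_prod
  intro j hj
  rw [mem_Ico] at hj
  have h1 : StronglyMeasurable[ℱ j] (fun ω => 1 - Pr μ ℱ S j ω) := stronglyMeasurable_const.sub (Pr_meas j)
  have h2 : Continuous fun x : ℝ => (max x q)⁻¹ := by
    refine (continuous_id.max continuous_const).inv₀ (fun x => ?_)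
    exact (lt_of_lt_of_le hq (le_max_right _ _)).ne'
  exact (h2.comp_stronglyMeasurable h1).mono (ℱ.mono (by omega))

theorem Gq_bd {q : ℝ} (hq : 0 < q) (a b : ℕ) (ω : Ω) : ‖Gq μ ℱ S q a b ω‖ ≤ (q⁻¹) ^ (b - a) := by
  unfold Gq
  rw [Real.norm_eq_abs, Finset.abs_prod]
  have h2 : ∏ n ∈ Ico a b, |(max (1 - Pr μ ℱ S n ω) q)⁻¹| ≤ ∏ n ∈ Ico a b, q⁻¹ := by
    apply Finset.prod_le_prod
    · intro n _
      exact abs_nonneg _
    · intro n _
      rw [abs_inv]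
      have h1 : q ≤ |max (1 - Pr μ ℱ S n ω) q| := (le_max_right _ _).trans (le_abs_self _)
      exact inv_anti₀ hq h1
  rwa [Finset.prod_const, Nat.card_Ico] at h2

theorem Gq_nonneg {q : ℝ} (hq : 0 < q) (a b : ℕ) (ω : Ω) : 0 ≤ Gq μ ℱ S q a b ω :=
  Finset.prod_nonneg (fun _ _ => inv_nonneg.2 (hq.le.trans (le_max_right _ _)))

theorem Gq_succ (q : ℝ) {a b : ℕ} (hab : a ≤ b) (ω : Ω) :
    Gq μ ℱ S q a (b + 1) ω = Gq μ ℱ S q a b ω * (max (1 - Pr μ ℱ S b ω) q)⁻¹ := by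
  unfold Gq
  rw [Finset.prod_Ico_succ_top hab]

theorem Gq_int (hV : ∀ n, MeasurableSet[ℱ n] (V n)) {q : ℝ} (hq : 0 < q) (a b c : ℕ) :
    Integrable (fun ω => Gq μ ℱ S q a b ω * Nn V a c ω) μ := by
  have h1 : AEStronglyMeasurable (Gq μ ℱ S q a b) μ :=
    ((Gq_meas (μ := μ) (ℱ := ℱ) (S := S) hq a b).mono (ℱ.le _)).aestronglyMeasurable
  exact (Nn_int hV a c).bdd_mul h1 (ae_of_all _ fun ω => Gq_bd hq a b ω)

theorem upper_q (hS : ∀ n, MeasurableSet[ℱ n] (S n)) {q : ℝ} (hq : 0 < q) {a b : ℕ} (hab : a ≤ b) :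
    ∫ ω, Gq μ ℱ S q a b ω * Nn S a b ω ∂μ ≤ 1 := by
  induction b, hab using Nat.le_induction with
  | base =>
    rw [Nn_self]
    have : ∀ ω, Gq μ ℱ S q a a ω = 1 := by
      intro ω
      simp [Gq]
    simp [this]
  | succ b hab ih =>
    have e0 := cond_step (μ := μ) hS hab
      ((Gq_meas (μ := μ) (ℱ := ℱ) (S := S) hq a (b + 1)).mono (ℱ.mono (by omega)))
      (ae_of_all μ fun ω => Gq_bd hq a (b + 1) ω)
    have e1 : ∫ ω, Gq μ ℱ S q a (b + 1) ω * Nn S a (b + 1) ω ∂μ =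
        ∫ ω, Gq μ ℱ S q a (b + 1) ω * (Nn S a b ω * (1 - Pr μ ℱ S b ω)) ∂μ := by
      rw [← integral_congr_ae e0]
      exact (integral_condExp (ℱ.le b)).symm
    rw [e1]
    refine le_trans ?_ ih
    apply integral_mono_ae
    · have : Integrable (μ[(Gq μ ℱ S q a (b + 1)) * Nn S a (b + 1) | ℱ b]) μ := integrable_condExp
      exact this.congr e0
    · exact Gq_int hS hq a b b
    · filter_upwards [Pr_bd hS b] with ω hP
      rw [Gq_succ q hab]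
      have h1 : Gq μ ℱ S q a b ω * (max (1 - Pr μ ℱ S b ω) q)⁻¹ * (Nn S a b ω * (1 - Pr μ ℱ S b ω)) =
          (Gq μ ℱ S q a b ω * Nn S a b ω) * ((max (1 - Pr μ ℱ S b ω) q)⁻¹ * (1 - Pr μ ℱ S b ω)) := by ring
      rw [h1]
      have h2 : 0 ≤ Gq μ ℱ S q a b ω * Nn S a b ω := mul_nonneg (Gq_nonneg hq a b ω) (Nn_nonneg S a b ω)
      apply mul_le_of_le_one_right h2
      have h3 : 0 < max (1 - Pr μ ℱ S b ω) q := lt_of_lt_of_le hq (le_max_right _ _)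
      rw [inv_mul_le_iff₀ h3, mul_one]
      exact le_max_left _ _

theorem tail_q (hS : ∀ n, MeasurableSet[ℱ n] (S n)) {a b : ℕ} (hab : a ≤ b) {q : ℝ} (hq : 0 < q) (hq1 : q ≤ 1) :
    μ ({ω | Qm μ ℱ S a b ω ≤ q} ∩ Bad S (Ioc a b)) ≤ ENNReal.ofReal q := by
  have h1 := mul_meas_ge_le_integral_of_nonneg (μ := μ)
    (f := fun ω => Gq μ ℱ S q a b ω * Nn S a b ω)
    (ae_of_all _ fun ω => mul_nonneg (Gq_nonneg hq a b ω) (Nn_nonneg S a b ω)) (Gq_int hS hq a b b) (q⁻¹)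
  have hb : ∀ᵐ ω ∂μ, ∀ n, 0 ≤ Pr μ ℱ S n ω ∧ Pr μ ℱ S n ω ≤ 1 := ae_all_iff.2 fun n => Pr_bd hS n
  have h2 : ({ω | Qm μ ℱ S a b ω ≤ q} ∩ Bad S (Ioc a b) : Set Ω) ≤ᵐ[μ]
      ({ω | q⁻¹ ≤ Gq μ ℱ S q a b ω * Nn S a b ω} : Set Ω) := by
    filter_upwards [hb] with ω hω
    rintro ⟨h3, h4⟩
    have h5 : Nn S a b ω = 1 := by rw [Nn_eq, Set.indicator_of_mem h4]
    have h6 : q⁻¹ ≤ Gq μ ℱ S q a b ω * Nn S a b ω := by
      rw [h5, mul_one]
      unfold Gq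
      rw [Finset.prod_inv_distrib]
      have h7 : 0 < ∏ n ∈ Ico a b, max (1 - Pr μ ℱ S n ω) q :=
        Finset.prod_pos (fun n _ => lt_of_lt_of_le hq (le_max_right _ _))
      apply inv_anti₀ h7
      by_cases hall : ∀ n ∈ Ico a b, q ≤ 1 - Pr μ ℱ S n ω
      · have h8 : ∏ n ∈ Ico a b, max (1 - Pr μ ℱ S n ω) q = Qm μ ℱ S a b ω := by
          unfold Qm
          exact Finset.prod_congr rfl (fun n hn => max_eq_left (hall n hn))
        rw [h8]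
        exact h3
      · push Not at hall
        obtain ⟨n, hn, hlt⟩ := hall
        have h8 : ∏ n ∈ Ico a b, max (1 - Pr μ ℱ S n ω) q ≤ ∏ n ∈ {n}, max (1 - Pr μ ℱ S n ω) q := by
          apply Finset.prod_le_prod_of_subset_of_le_one
          · intro x hx
            rw [mem_singleton] at hx
            rw [hx]
            exact hn
          · intro i _
            exact hq.le.trans (le_max_right _ _)
          · intro i _ _
            exact max_le (by linarith [(hω i).1]) hq1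
        rw [Finset.prod_singleton, max_eq_right hlt.le] at h8
        exact h8
    exact h6
  have h3 := h1.trans (upper_q hS hq hab)
  have h4 : μ.real {ω | q⁻¹ ≤ Gq μ ℱ S q a b ω * Nn S a b ω} ≤ q := by
    rw [inv_mul_le_iff₀ hq, mul_one] at h3
    exact h3
  refine (measure_mono_ae h2).trans ?_
  rw [← ofReal_measureReal]
  exact ENNReal.ofReal_le_ofReal h4

theorem exp_log_le_one {σ : ℝ} (hσ : 0 ≤ σ) (k : ℕ) : Real.exp (-(σ * Real.log k)) ≤ 1 := by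
  rw [Real.exp_le_one_iff, neg_nonpos]
  exact mul_nonneg hσ (Real.log_natCast_nonneg k)

/-- windows with a small product are hit -/
theorem winU_q (hS : ∀ n, MeasurableSet[ℱ n] (S n)) {σ : ℝ} (hσ : 1 < σ) (a b : ℕ → ℕ) (hab : ∀ k, a k ≤ b k) :
    ∀ᵐ ω ∂μ, (∀ᶠ k : ℕ in atTop, Qm μ ℱ S (a k) (b k) ω ≤ Real.exp (-(σ * Real.log k))) →
      ∀ᶠ k in atTop, ∃ m ∈ Ioc (a k) (b k), ω ∈ S m := by
  have h2 : (∑' k : ℕ, μ ({ω | Qm μ ℱ S (a k) (b k) ω ≤ Real.exp (-(σ * Real.log k))} ∩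
      Bad S (Ioc (a k) (b k)))) ≠ ∞ := by
    have hs : Summable (fun k : ℕ => Real.exp (-(σ * Real.log k))) := by
      have h3 : Summable (fun k : ℕ => (k : ℝ) ^ (-σ)) := Real.summable_nat_rpow.2 (by linarith)
      refine summable_of_isBigO_nat h3 ?_
      rw [Asymptotics.isBigO_iff]
      refine ⟨1, ?_⟩
      filter_upwards [eventually_ge_atTop 1] with k hk1
      have hk0 : (0 : ℝ) < k := by exact_mod_cast hk1
      rw [Real.norm_of_nonneg (Real.exp_pos _).le, Real.norm_of_nonneg (by positivity), one_mul,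
        Real.rpow_def_of_pos hk0]
      apply Real.exp_le_exp.2
      linarith
    exact ne_top_of_le_ne_top hs.tsum_ofReal_ne_top
      (ENNReal.tsum_le_tsum (fun k => tail_q hS (hab k) (Real.exp_pos _) (exp_log_le_one (by linarith) k)))
  filter_upwards [ae_eventually_notMem h2] with ω hω hq
  filter_upwards [hω, hq] with k hk hk2
  have h3 : ω ∉ Bad S (Ioc (a k) (b k)) := fun h => hk ⟨hk2, h⟩
  rw [mem_bad] at h3
  push Not at h3
  exact h3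

/-- lower bound for the conditional probability of no success -/
theorem lower_q (hV : ∀ n, MeasurableSet[ℱ n] (V n)) {q : ℝ} (hq : 0 < q) {a b : ℕ} (hab : a ≤ b)
    (hv : ∀ᵐ ω ∂μ, ∀ n, q ≤ 1 - Pr μ ℱ V n ω) (ht : ∀ᵐ ω ∂μ, q ≤ Qm μ ℱ V a b ω) :
    ∀ᵐ ω ∂μ, q ≤ (μ[Nn V a b | ℱ a]) ω := by
  have main : ∀ c : ℕ, a ≤ c → ∀ᵐ ω ∂μ, 1 ≤ (μ[(fun ω => Gq μ ℱ V q a c ω * Nn V a c ω) | ℱ a]) ω := by
    intro c hac
    induction c, hac using Nat.le_induction with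
    | base =>
      have : (fun ω => Gq μ ℱ V q a a ω * Nn V a a ω) = fun _ => (1 : ℝ) := by
        funext ω
        rw [Nn_self]
        simp [Gq]
      rw [this, condExp_const (ℱ.le a)]
      simp
    | succ c hac ih =>
      have e0 := cond_step (μ := μ) hV hac
        ((Gq_meas (μ := μ) (ℱ := ℱ) (S := V) hq a (c + 1)).mono (ℱ.mono (by omega)))
        (ae_of_all μ fun ω => Gq_bd hq a (c + 1) ω)
      have e1 : μ[μ[(Gq μ ℱ V q a (c + 1)) * Nn V a (c + 1) | ℱ c] | ℱ a] =ᵐ[μ]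
          μ[(Gq μ ℱ V q a (c + 1)) * Nn V a (c + 1) | ℱ a] :=
        condExp_condExp_of_le (ℱ.mono hac) (ℱ.le c)
      have e2 : μ[(fun ω => Gq μ ℱ V q a c ω * Nn V a c ω) | ℱ a] ≤ᵐ[μ]
          μ[μ[(Gq μ ℱ V q a (c + 1)) * Nn V a (c + 1) | ℱ c] | ℱ a] := by
        apply condExp_mono (Gq_int hV hq a c c) integrable_condExp
        filter_upwards [e0, hv] with ω h2 h3
        rw [h2, Gq_succ q hac, max_eq_left (h3 c)]
        have hpos : 0 < 1 - Pr μ ℱ V c ω := lt_of_lt_of_le hq (h3 c)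
        apply le_of_eq
        field_simp
      filter_upwards [ih, e1, e2] with ω h2 h3 h4
      have h5 : (μ[(fun ω => Gq μ ℱ V q a (c + 1) ω * Nn V a (c + 1) ω) | ℱ a]) ω =
          (μ[(Gq μ ℱ V q a (c + 1)) * Nn V a (c + 1) | ℱ a]) ω := rfl
      rw [h5, ← h3]
      exact h2.trans h4
  have e3 : μ[(fun ω => Gq μ ℱ V q a b ω * Nn V a b ω) | ℱ a] ≤ᵐ[μ]
      μ[(fun ω => q⁻¹ * Nn V a b ω) | ℱ a] := by
    apply condExp_mono (Gq_int hV hq a b b) ((Nn_int hV a b).const_mul _)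
    filter_upwards [ht, hv] with ω h1 h2
    apply mul_le_mul_of_nonneg_right _ (Nn_nonneg V a b ω)
    have h3 : Gq μ ℱ V q a b ω = (Qm μ ℱ V a b ω)⁻¹ := by
      unfold Gq Qm
      rw [Finset.prod_inv_distrib]
      congr 1
      exact Finset.prod_congr rfl (fun n _ => max_eq_left (h2 n))
    rw [h3]
    exact inv_anti₀ hq h1
  have e4 : μ[(fun ω => q⁻¹ * Nn V a b ω) | ℱ a] =ᵐ[μ]
      fun ω => q⁻¹ * (μ[Nn V a b | ℱ a]) ω := by
    have := condExp_smul (μ := μ) (q⁻¹) (Nn V a b) (ℱ a)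
    exact this
  filter_upwards [main b hab, e3, e4] with ω h1 h2 h3
  have h4 : 1 ≤ q⁻¹ * (μ[Nn V a b | ℱ a]) ω := by
    rw [← h3]
    exact h1.trans h2
  rwa [le_inv_mul_iff₀ hq, mul_one] at h4

/-- `S m`, cut where the product from `a` is below `q` -/
def Vq (μ : Measure Ω) (ℱ : Filtration ℕ m0) (S : ℕ → Set Ω) (q : ℝ) (a m : ℕ) : Set Ω :=
  S m ∩ {ω | q ≤ 1 - Pr μ ℱ S (m - 1) ω ∧ q ≤ Qm μ ℱ S a m ω}

theorem Vq_set_meas (q : ℝ) (a m : ℕ) :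
    MeasurableSet[ℱ (m - 1)] {ω | q ≤ 1 - Pr μ ℱ S (m - 1) ω ∧ q ≤ Qm μ ℱ S a m ω} := by
  apply MeasurableSet.inter
  · exact measurableSet_le measurable_const (stronglyMeasurable_const.sub (Pr_meas (m - 1))).measurable
  · exact measurableSet_le measurable_const (Qm_meas a m).measurable

theorem Vq_meas (hS : ∀ n, MeasurableSet[ℱ n] (S n)) (q : ℝ) (a m : ℕ) :
    MeasurableSet[ℱ m] (Vq μ ℱ S q a m) :=
  (hS m).inter (ℱ.mono (Nat.sub_le _ _) _ (Vq_set_meas q a m))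

theorem Vq_pr (hS : ∀ n, MeasurableSet[ℱ n] (S n)) (q : ℝ) (a n : ℕ) :
    ∀ᵐ ω ∂μ, Pr μ ℱ (Vq μ ℱ S q a) n ω ≤
      {ω | q ≤ 1 - Pr μ ℱ S n ω ∧ q ≤ Qm μ ℱ S a (n + 1) ω}.indicator (Pr μ ℱ S n) ω := by
  have hA : MeasurableSet[ℱ n] {ω | q ≤ 1 - Pr μ ℱ S n ω ∧ q ≤ Qm μ ℱ S a (n + 1) ω} := Vq_set_meas q a (n + 1)
  have hint := In_int (μ := μ) (Vq_meas (μ := μ) hS q a) (n + 1)
  have hAi : Integrable ({ω | q ≤ 1 - Pr μ ℱ S n ω ∧ q ≤ Qm μ ℱ S a (n + 1) ω}.indicator (fun _ => (1 : ℝ))) μ :=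
    (integrable_const (1 : ℝ)).indicator (ℱ.le n _ hA)
  have e1 : Pr μ ℱ (Vq μ ℱ S q a) n ≤ᵐ[μ]
      μ[{ω | q ≤ 1 - Pr μ ℱ S n ω ∧ q ≤ Qm μ ℱ S a (n + 1) ω}.indicator (fun _ => (1 : ℝ)) | ℱ n] := by
    apply condExp_mono hint hAi
    refine ae_of_all _ (fun ω => ?_)
    apply Set.indicator_le_indicator_of_subset
    · exact Set.inter_subset_right
    · intro _; exact zero_le_one
  rw [condExp_of_stronglyMeasurable (ℱ.le n) (stronglyMeasurable_const.indicator hA) hAi] at e1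
  have e2 : Pr μ ℱ (Vq μ ℱ S q a) n ≤ᵐ[μ] Pr μ ℱ S n := by
    apply condExp_mono hint (In_int hS (n + 1))
    refine ae_of_all _ (fun ω => ?_)
    apply Set.indicator_le_indicator_of_subset
    · exact Set.inter_subset_left
    · intro _; exact zero_le_one
  filter_upwards [e1, e2] with ω h2 h3
  by_cases h : ω ∈ {ω | q ≤ 1 - Pr μ ℱ S n ω ∧ q ≤ Qm μ ℱ S a (n + 1) ω}
  · rw [Set.indicator_of_mem h]
    exact h3
  · rw [Set.indicator_of_notMem h] at h2 ⊢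
    exact h2

theorem Vq_prod (hS : ∀ n, MeasurableSet[ℱ n] (S n)) {q : ℝ} (hq0 : 0 < q) (hq : q ≤ 1) (a b : ℕ) (hab : a ≤ b) :
    (∀ᵐ ω ∂μ, ∀ n, q ≤ 1 - Pr μ ℱ (Vq μ ℱ S q a) n ω) ∧ ∀ᵐ ω ∂μ, q ≤ Qm μ ℱ (Vq μ ℱ S q a) a b ω := by
  have h1 : ∀ᵐ ω ∂μ, ∀ n, Pr μ ℱ (Vq μ ℱ S q a) n ω ≤
      {ω | q ≤ 1 - Pr μ ℱ S n ω ∧ q ≤ Qm μ ℱ S a (n + 1) ω}.indicator (Pr μ ℱ S n) ω :=
    ae_all_iff.2 fun n => Vq_pr hS q a n
  have hb : ∀ᵐ ω ∂μ, ∀ n, 0 ≤ Pr μ ℱ S n ω ∧ Pr μ ℱ S n ω ≤ 1 := ae_all_iff.2 fun n => Pr_bd hS n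
  constructor
  · filter_upwards [h1, hb] with ω h2 h3 n
    have h4 := h2 n
    by_cases h : ω ∈ {ω | q ≤ 1 - Pr μ ℱ S n ω ∧ q ≤ Qm μ ℱ S a (n + 1) ω}
    · rw [Set.indicator_of_mem h] at h4
      linarith [h.1]
    · rw [Set.indicator_of_notMem h] at h4
      linarith
  filter_upwards [h1, hb] with ω h2 h3
  have h4 : ∀ n, Pr μ ℱ (Vq μ ℱ S q a) n ω ≤ Pr μ ℱ S n ω := by
    intro n
    refine (h2 n).trans ?_
    by_cases h : ω ∈ {ω | q ≤ 1 - Pr μ ℱ S n ω ∧ q ≤ Qm μ ℱ S a (n + 1) ω}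
    · rw [Set.indicator_of_mem h]
    · rw [Set.indicator_of_notMem h]
      exact (h3 n).1
  have h4' : ∀ c, Qm μ ℱ S a c ω ≤ Qm μ ℱ (Vq μ ℱ S q a) a c ω := by
    intro c
    unfold Qm
    apply Finset.prod_le_prod
    · intro n _
      linarith [(h3 n).2]
    · intro n _
      linarith [h4 n]
  induction b, hab using Nat.le_induction with
  | base => simpa [Qm] using hq
  | succ b hab ih =>
    by_cases h : ω ∈ {ω | q ≤ 1 - Pr μ ℱ S b ω ∧ q ≤ Qm μ ℱ S a (b + 1) ω}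
    · exact h.2.trans (h4' (b + 1))
    · have h5 := h2 b
      rw [Set.indicator_of_notMem h] at h5
      rw [Qm_succ hab]
      nlinarith

/-- windows with a large product are missed infinitely often -/
theorem winL_q (hS : ∀ n, MeasurableSet[ℱ n] (S n)) (a b : ℕ → ℕ)
    (hab : ∀ k, a k ≤ b k) (hba : ∀ k, b k ≤ a (k + 1)) :
    ∀ᵐ ω ∂μ, (∀ᶠ k : ℕ in atTop, Real.exp (-Real.log k) ≤ Qm μ ℱ S (a k) (b k) ω) →
      ∃ᶠ k in atTop, ∀ m ∈ Ioc (a k) (b k), ω ∉ S m := by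
  have ha : Monotone a := monotone_nat_of_le_succ (fun k => (hab k).trans (hba k))
  let Vk : ℕ → ℕ → Set Ω := fun k => Vq μ ℱ S (Real.exp (-Real.log k)) (a k)
  let G : Filtration ℕ m0 := ⟨fun k => ℱ (a k), fun i j hij => ℱ.mono (ha hij), fun k => ℱ.le _⟩
  let s : ℕ → Set Ω := fun k => Nat.casesOn k ∅ (fun k => Bad (Vk k) (Ioc (a k) (b k)))
  have hs' : ∀ n, MeasurableSet[G n] (s n) := by
    intro n
    cases n with
    | zero => exact @MeasurableSet.empty _ (G 0)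
    | succ k => exact ℱ.mono (hba k) _ (bad_meas (Vq_meas hS _ (a k)) (a k) (b k))
  have hone : ∀ k : ℕ, Real.exp (-Real.log k) ≤ 1 := by
    intro k
    have := exp_log_le_one zero_le_one k
    rwa [one_mul] at this
  have hlow : ∀ᵐ ω ∂μ, ∀ k : ℕ, Real.exp (-Real.log k) ≤ (μ[(s (k + 1)).indicator (1 : Ω → ℝ) | G k]) ω := by
    rw [ae_all_iff]
    intro k
    obtain ⟨h1, h2⟩ := Vq_prod (μ := μ) hS (Real.exp_pos (-Real.log k)) (hone k) (a k) (b k) (hab k)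
    have h3 := lower_q (μ := μ) (Vq_meas hS (Real.exp (-Real.log k)) (a k)) (Real.exp_pos _) (hab k) h1 h2
    rw [Nn_eq] at h3
    exact h3
  have hdiv : Tendsto (fun n : ℕ => ∑ k ∈ range n, Real.exp (-Real.log (k : ℝ))) atTop atTop := by
    rw [← not_summable_iff_tendsto_nat_atTop_of_nonneg (fun k => (Real.exp_pos _).le)]
    intro hsum
    apply Real.not_summable_natCast_inv
    refine Summable.of_nonneg_of_le (fun k => by positivity) (fun k => ?_) hsum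
    rcases Nat.eq_zero_or_pos k with h | h
    · subst h
      simp
    · have hk0 : (0 : ℝ) < k := by exact_mod_cast h
      rw [Real.exp_neg, Real.exp_log hk0]
  have hb : ∀ᵐ ω ∂μ, ∀ n, 0 ≤ Pr μ ℱ S n ω ∧ Pr μ ℱ S n ω ≤ 1 := ae_all_iff.2 fun n => Pr_bd hS n
  filter_upwards [ae_mem_limsup_atTop_iff μ hs', hlow, hb] with ω h2 h3 h6 hA
  have h4 : ω ∈ limsup s atTop := by
    rw [h2]
    exact tendsto_atTop_mono (fun n => Finset.sum_le_sum (fun k _ => h3 k)) hdiv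
  rw [mem_limsup_iff_frequently_mem, frequently_atTop] at h4
  have h7 : ∃ᶠ k in atTop, ω ∈ Bad (Vk k) (Ioc (a k) (b k)) := by
    rw [frequently_atTop]
    intro K
    obtain ⟨k, hk, hmem⟩ := h4 (K + 1)
    obtain ⟨j, rfl⟩ : ∃ j, k = j + 1 := ⟨k - 1, by omega⟩
    exact ⟨j, by omega, hmem⟩
  refine (h7.and_eventually hA).mono (fun k hk m hm hSm => ?_)
  obtain ⟨hk, hkA⟩ := hk
  rw [mem_bad] at hk
  apply hk m hm
  rw [mem_Ioc] at hm
  have h8 : Real.exp (-Real.log k) ≤ Qm μ ℱ S (a k) m ω := hkA.trans (Qm_anti h6 (a k) hm.2)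
  refine ⟨hSm, ?_, h8⟩
  refine h8.trans ?_
  obtain ⟨j, rfl⟩ : ∃ j, m = j + 1 := ⟨m - 1, by omega⟩
  rw [Qm_succ (by omega : a k ≤ j), Nat.add_sub_cancel]
  have h9 : Qm μ ℱ S (a k) j ω ≤ 1 := by
    unfold Qm
    exact Finset.prod_le_one (fun n _ => by linarith [(h6 n).2]) (fun n _ => by linarith [(h6 n).1])
  have h10 : 0 ≤ 1 - Pr μ ℱ S j ω := by linarith [(h6 j).2]
  exact mul_le_of_le_one_left h10 h9

end Pool.Agent.D0H68.SQ
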