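import Pool.Agent.D0H68.SQ.Pw

set_option autoImplicit false

open Filter Topology Finset MeasureTheory ProbabilityTheory ENNReal

namespace Pool.Agent.D0H68.SQ

open Pool.Agent.D0H68.SD (In Pr In_nonneg In_le In_one In_zero In_meas In_int Pr_meas Pr_bd)

variable {Ω : Type} {m0 : MeasurableSpace Ω} {μ : Measure Ω} [IsProbabilityMeasure μ]
  {ℱ : Filtration ℕ m0} {S : ℕ → Set Ω}

/-- the product of the conditional probabilities of not choosing `m`, `x < m ≤ (√x + δ) ^ 2` -/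
noncomputable def Qw (μ : Measure Ω) (ℱ : Filtration ℕ m0) (S : ℕ → Set Ω) (δ : ℝ) (x : ℕ) (ω : Ω) : ℝ :=
  ∏ n ∈ Ico x ⌊(√(x : ℝ) + δ) ^ 2⌋₊, (1 - (μ[(S (n + 1)).indicator (fun _ => (1 : ℝ)) | ℱ n]) ω)

theorem Qw_eq (δ : ℝ) (x : ℕ) (ω : Ω) : Qw μ ℱ S δ x ω = Qm μ ℱ S x ⌊(√(x : ℝ) + δ) ^ 2⌋₊ ω := rfl

theorem rpow_eq_exp {x : ℕ} (hx : 1 ≤ x) (ρ : ℝ) : (x : ℝ) ^ (-ρ) = Real.exp (-(ρ * Real.log x)) := by
  have h : (0 : ℝ) < x := by exact_mod_cast hx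
  rw [Real.rpow_def_of_pos h]
  congr 1
  ring

/-- small products -/
theorem prodlaw_le (hS : ∀ n, MeasurableSet[ℱ n] (S n)) {δ ρ : ℝ} (hδ : 0 < δ) (hρ : 1 / 2 < ρ) :
    ∀ᵐ ω ∂μ, (∀ᶠ x : ℕ in atTop, Qw μ ℱ S δ x ω ≤ (x : ℝ) ^ (-ρ)) →
      {n | ω ∈ S n}.Infinite ∧ lsup (fun n => ω ∈ S n) ≤ ENNReal.ofReal δ := by
  have hb : ∀ᵐ ω ∂μ, ∀ n, 0 ≤ Pr μ ℱ S n ω ∧ Pr μ ℱ S n ω ≤ 1 := ae_all_iff.2 fun n => Pr_bd hS n
  obtain ⟨σ, hσ⟩ : ∃ σ, σ = (1 + 2 * ρ) / 2 := ⟨_, rfl⟩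
  have hσ1 : 1 < σ := by rw [hσ]; linarith
  have hσρ : σ / ρ < 2 := by rw [hσ, div_lt_iff₀ (by linarith)]; linarith
  have h2 : ∀ m : ℕ, ∀ᵐ ω ∂μ, (∀ᶠ k : ℕ in atTop,
      Qm μ ℱ S (lo (1 / ((m : ℝ) + 1)) k) ⌊(1 / ((m : ℝ) + 1) * k + δ) ^ 2⌋₊ ω ≤ Real.exp (-(σ * Real.log k))) →
      ∀ᶠ k in atTop, ∃ n ∈ U (1 / ((m : ℝ) + 1)) δ k, ω ∈ S n := by
    intro m
    have hη : (0 : ℝ) < 1 / ((m : ℝ) + 1) := by positivity
    exact winU_q hS hσ1 (lo (1 / ((m : ℝ) + 1))) _ (fun k => lo_le_U hη hδ k)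
  filter_upwards [ae_all_iff.2 h2, hb] with ω hω h0 hM
  have h3 : ∀ m : ℕ, ∀ᶠ k in atTop, ∃ n ∈ U (1 / ((m : ℝ) + 1)) δ k, ω ∈ S n := by
    intro m
    have hη : (0 : ℝ) < 1 / ((m : ℝ) + 1) := by positivity
    apply hω m
    filter_upwards [(lo_tendsto hη).eventually hM, log_lo_ge hη hσρ,
      (lo_tendsto hη).eventually (eventually_ge_atTop 1)] with k h4 h5 h9
    have h6 : σ * Real.log k ≤ ρ * Real.log (lo (1 / ((m : ℝ) + 1)) k : ℕ) := by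
      have h7 := mul_le_mul_of_nonneg_left h5 (by linarith : (0 : ℝ) ≤ ρ)
      have h8 : ρ * (σ / ρ * Real.log k) = σ * Real.log k := by
        have : ρ ≠ 0 := by linarith
        field_simp
      rwa [h8] at h7
    rw [rpow_eq_exp h9, Qw_eq] at h4
    refine le_trans ?_ (h4.trans (Real.exp_le_exp.2 (neg_le_neg h6)))
    apply Qm_anti h0
    apply Nat.floor_le_floor
    apply pow_le_pow_left₀ (by positivity)
    have := sqrt_lo_le hη k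
    linarith
  have hinf : {n | ω ∈ S n}.Infinite := by
    have hη : (0 : ℝ) < 1 / (((0 : ℕ) : ℝ) + 1) := by norm_num
    apply Set.infinite_of_forall_exists_gt
    intro N
    obtain ⟨k, h4, h5⟩ := ((h3 0).and ((lo_tendsto hη).eventually (eventually_ge_atTop N))).exists
    obtain ⟨n, hn, hpn⟩ := h4
    unfold U at hn
    rw [mem_Ioc] at hn
    exact ⟨n, hpn, by omega⟩
  refine ⟨hinf, ?_⟩
  have h4 : ∀ m : ℕ, lsup (fun n => ω ∈ S n) ≤ ENNReal.ofReal (1 / ((m : ℝ) + 1) + δ) := by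
    intro m
    have h5 := event_gap_U (by positivity) hδ (h3 m)
    unfold lsup
    apply limsup_le_of_le
    · isBoundedDefault
    · filter_upwards [h5] with j hj
      exact ENNReal.ofReal_le_ofReal hj
  have h5 : Tendsto (fun m : ℕ => ENNReal.ofReal (1 / ((m : ℝ) + 1) + δ)) atTop (𝓝 (ENNReal.ofReal (0 + δ))) :=
    ENNReal.tendsto_ofReal (tendsto_one_div_add_atTop_nhds_zero_nat.add_const δ)
  rw [zero_add] at h5
  exact ge_of_tendsto' h5 h4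

/-- large products -/
theorem prodlaw_ge (hS : ∀ n, MeasurableSet[ℱ n] (S n)) {δ δ' ρ : ℝ} (hδ : 0 < δ) (hδ' : δ < δ') (hρ0 : 0 < ρ)
    (hρ : ρ < 1 / 2) :
    ∀ᵐ ω ∂μ, (∀ᶠ x : ℕ in atTop, (x : ℝ) ^ (-ρ) ≤ Qw μ ℱ S δ' x ω) → {n | ω ∈ S n}.Infinite →
      ENNReal.ofReal δ ≤ lsup (fun n => ω ∈ S n) := by
  have hb : ∀ᵐ ω ∂μ, ∀ n, 0 ≤ Pr μ ℱ S n ω ∧ Pr μ ℱ S n ω ≤ 1 := ae_all_iff.2 fun n => Pr_bd hS n
  have hτρ : 2 < 1 / ρ := by rw [lt_div_iff₀ hρ0]; linarith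
  have hkη : Tendsto (fun k : ℕ => δ * (k : ℝ)) atTop atTop :=
    Tendsto.const_mul_atTop hδ tendsto_natCast_atTop_atTop
  filter_upwards [winL_q (μ := μ) hS (lo δ) (fun k => lo δ (k + 1))
    (fun k => lo_mono hδ (by omega)) (fun k => le_rfl), hb] with ω hω h0 hM hinf
  have h1 : ∃ᶠ k in atTop, ∀ n ∈ W δ k, ω ∉ S n := by
    apply hω
    obtain ⟨ε, hε⟩ : ∃ ε, ε = δ' - δ := ⟨_, rfl⟩
    have hε0 : 0 < ε := by rw [hε]; linarith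
    filter_upwards [(lo_tendsto hδ).eventually hM, log_lo_le hδ hτρ,
      hkη.eventually (eventually_ge_atTop ((1 + ε ^ 2) / (2 * ε))),
      hkη.eventually (eventually_ge_atTop ε), (lo_tendsto hδ).eventually (eventually_ge_atTop 1)]
      with k h4 h5 h6 h7 h11
    have h8 : ρ * Real.log (lo δ k : ℕ) ≤ Real.log k := by
      have h9 := mul_le_mul_of_nonneg_left h5 hρ0.le
      have h10 : ρ * (1 / ρ * Real.log k) = Real.log k := by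
        field_simp
      rwa [h10] at h9
    rw [rpow_eq_exp h11, Qw_eq] at h4
    refine (Real.exp_le_exp.2 (neg_le_neg h8)).trans (h4.trans ?_)
    apply Qm_anti h0
    unfold lo
    apply Nat.floor_le_floor
    apply pow_le_pow_left₀ (by positivity)
    push_cast
    have h9 : δ * k - ε ≤ √((⌊(δ * (k : ℝ)) ^ 2⌋₊ : ℕ) : ℝ) := by
      apply Real.le_sqrt_of_sq_le
      have h10 := lt_lo δ k
      unfold lo at h10
      rw [div_le_iff₀ (by positivity)] at h6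
      nlinarith
    rw [hε] at h9
    linarith
  unfold lsup
  apply le_limsup_of_frequently_le'
  exact (freq_gap hinf hδ h1).mono (fun j hj => ENNReal.ofReal_le_ofReal hj)

/-- **the window law** -/
theorem product_law (hS : ∀ n, MeasurableSet[ℱ n] (S n)) :
    ∀ᵐ ω ∂μ, ∀ δ : ℝ, 0 < δ →
      ((∃ ρ : ℝ, 1 / 2 < ρ ∧ ∀ᶠ x : ℕ in atTop, Qw μ ℱ S δ x ω ≤ (x : ℝ) ^ (-ρ)) →
        {n | ω ∈ S n}.Infinite ∧ lsup (fun n => ω ∈ S n) ≤ ENNReal.ofReal δ) ∧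
      ((∃ ρ : ℝ, ρ < 1 / 2 ∧ ∀ᶠ x : ℕ in atTop, (x : ℝ) ^ (-ρ) ≤ Qw μ ℱ S δ x ω) → {n | ω ∈ S n}.Infinite →
        ENNReal.ofReal δ ≤ lsup (fun n => ω ∈ S n)) := by
  have hb : ∀ᵐ ω ∂μ, ∀ n, 0 ≤ Pr μ ℱ S n ω ∧ Pr μ ℱ S n ω ≤ 1 := ae_all_iff.2 fun n => Pr_bd hS n
  have hU : ∀ q r : ℚ, ∀ᵐ ω ∂μ, 0 < q → 1 / 2 < (r : ℝ) →
      (∀ᶠ x : ℕ in atTop, Qw μ ℱ S (q : ℝ) x ω ≤ (x : ℝ) ^ (-(r : ℝ))) →
      {n | ω ∈ S n}.Infinite ∧ lsup (fun n => ω ∈ S n) ≤ ENNReal.ofReal (q : ℝ) := by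
    intro q r
    by_cases hq : 0 < q ∧ 1 / 2 < (r : ℝ)
    · filter_upwards [prodlaw_le (μ := μ) hS (δ := (q : ℝ)) (by exact_mod_cast hq.1) hq.2] with ω hω _ _ h
      exact hω h
    · exact Eventually.of_forall (fun ω h1 h2 => absurd ⟨h1, h2⟩ hq)
  have hL : ∀ q q' r : ℚ, ∀ᵐ ω ∂μ, 0 < q → q < q' → 0 < (r : ℝ) → (r : ℝ) < 1 / 2 →
      (∀ᶠ x : ℕ in atTop, (x : ℝ) ^ (-(r : ℝ)) ≤ Qw μ ℱ S (q' : ℝ) x ω) → {n | ω ∈ S n}.Infinite →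
      ENNReal.ofReal (q : ℝ) ≤ lsup (fun n => ω ∈ S n) := by
    intro q q' r
    by_cases hq : 0 < q ∧ q < q' ∧ 0 < (r : ℝ) ∧ (r : ℝ) < 1 / 2
    · filter_upwards [prodlaw_ge (μ := μ) hS (δ := (q : ℝ)) (δ' := (q' : ℝ)) (by exact_mod_cast hq.1)
        (by exact_mod_cast hq.2.1) hq.2.2.1 hq.2.2.2] with ω hω _ _ _ _ h1 h2
      exact hω h1 h2
    · exact Eventually.of_forall (fun ω h1 h2 h3 h4 => absurd ⟨h1, h2, h3, h4⟩ hq)
  filter_upwards [ae_all_iff.2 fun q => ae_all_iff.2 (hU q),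
    ae_all_iff.2 fun q => ae_all_iff.2 fun q' => ae_all_iff.2 (hL q q'), hb] with ω h1 h2 h0 δ hδ
  have hmono : ∀ (δ₁ δ₂ : ℝ) (x : ℕ), 0 < δ₁ → δ₁ ≤ δ₂ → Qw μ ℱ S δ₂ x ω ≤ Qw μ ℱ S δ₁ x ω := by
    intro δ₁ δ₂ x h3 h4
    rw [Qw_eq, Qw_eq]
    apply Qm_anti h0
    apply Nat.floor_le_floor
    exact pow_le_pow_left₀ (by positivity) (by linarith) 2
  constructor
  · rintro ⟨ρ, hρ, hM⟩
    obtain ⟨r, hr1, hr2⟩ := exists_rat_btwn hρ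
    have hall : ∀ q : ℚ, δ < (q : ℝ) → {n | ω ∈ S n}.Infinite ∧
        lsup (fun n => ω ∈ S n) ≤ ENNReal.ofReal (q : ℝ) := by
      intro q hq
      have hq0 : (0 : ℝ) < q := hδ.trans hq
      apply h1 q r (by exact_mod_cast hq0) (by exact_mod_cast hr1)
      filter_upwards [hM, eventually_ge_atTop 1] with x hx hx1
      have hl : (1 : ℝ) ≤ x := by exact_mod_cast hx1
      refine (hmono δ q x hδ hq.le).trans (hx.trans ?_)
      exact Real.rpow_le_rpow_of_exponent_le hl (by linarith)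
    obtain ⟨q₀, hq₀, -⟩ := exists_rat_btwn (show δ < δ + 1 by linarith)
    refine ⟨(hall q₀ hq₀).1, ?_⟩
    by_contra hcon
    rw [not_le] at hcon
    obtain ⟨q, hq0, hq1, hq2⟩ := ENNReal.lt_iff_exists_rat_btwn.1 hcon
    have hq1' : ENNReal.ofReal δ < ENNReal.ofReal (q : ℝ) := hq1
    rw [ENNReal.ofReal_lt_ofReal_iff_of_nonneg hδ.le] at hq1'
    exact absurd (hall q hq1').2 (not_le.2 hq2)
  · rintro ⟨ρ, hρ, hM⟩ hinf
    obtain ⟨r, hr1, hr2⟩ := exists_rat_btwn (max_lt hρ (by norm_num : (0 : ℝ) < 1 / 2))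
    have hall : ∀ q : ℚ, 0 < q → (q : ℝ) < δ → ENNReal.ofReal (q : ℝ) ≤ lsup (fun n => ω ∈ S n) := by
      intro q hq hqδ
      obtain ⟨q', hq1, hq2⟩ := exists_rat_btwn hqδ
      have hq0 : (0 : ℝ) < q := by exact_mod_cast hq
      apply h2 q q' r hq (by exact_mod_cast hq1) (lt_of_le_of_lt (le_max_right _ _) hr1) hr2 _ hinf
      filter_upwards [hM, eventually_ge_atTop 1] with x hx hx1
      have hl : (1 : ℝ) ≤ x := by exact_mod_cast hx1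
      refine le_trans ?_ (hx.trans (hmono q' δ x (hq0.trans hq1) hq2.le))
      exact Real.rpow_le_rpow_of_exponent_le hl (by linarith [(le_max_left ρ 0).trans hr1.le])
    by_contra hcon
    rw [not_le] at hcon
    obtain ⟨q, hq0, hq1, hq2⟩ := ENNReal.lt_iff_exists_rat_btwn.1 hcon
    have hq' : 0 < q := by
      rcases hq0.eq_or_lt with h3 | h3
      · rw [← h3] at hq1
        simp at hq1
      · exact h3
    have hq2' : ENNReal.ofReal (q : ℝ) < ENNReal.ofReal δ := hq2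
    rw [ENNReal.ofReal_lt_ofReal_iff hδ] at hq2'
    exact absurd (hall q hq' hq2') (not_le.2 hq1)

end Pool.Agent.D0H68.SQ
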