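import Pool.Agent.D0H68.SQ.Slide
import Pool.Agent.D0H68.SD.Mart

set_option autoImplicit false

open Filter Topology Finset MeasureTheory ProbabilityTheory ENNReal

namespace Pool.Agent.D0H68.SQ

open Pool.Agent.D0H68.SD (In Pr In_nonneg In_le In_one In_zero In_meas In_int Pr_meas Pr_bd)

variable {Ω : Type} {m0 : MeasurableSpace Ω} {μ : Measure Ω} [IsProbabilityMeasure μ]
  {ℱ : Filtration ℕ m0} {S V : ℕ → Set Ω} {p : ℕ → ℝ}

omit m0 in
theorem mem_bad' (E : ℕ → Set Ω) (T : Finset ℕ) (ω : Ω) : ω ∈ Bad E T ↔ ∀ n ∈ T, ω ∉ E n := by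
  unfold Bad
  simp

/-- the indicator of the event that no event with index in `(a, b]` happens, as a product -/
noncomputable def Nn (V : ℕ → Set Ω) (a b : ℕ) (ω : Ω) : ℝ := ∏ m ∈ Ioc a b, (1 - In V m ω)

theorem Nn_eq (V : ℕ → Set Ω) (a b : ℕ) :
    Nn V a b = (Bad V (Ioc a b)).indicator (fun _ => (1 : ℝ)) := by
  funext ω
  by_cases h : ω ∈ Bad V (Ioc a b)
  · rw [Set.indicator_of_mem h]
    rw [mem_bad'] at h
    unfold Nn
    apply Finset.prod_eq_one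
    intro m hm
    rw [In_zero (h m hm), sub_zero]
  · rw [Set.indicator_of_notMem h]
    rw [mem_bad'] at h
    push Not at h
    obtain ⟨m, hm, hV⟩ := h
    unfold Nn
    apply Finset.prod_eq_zero hm
    rw [In_one hV, sub_self]

theorem bad_meas (hV : ∀ n, MeasurableSet[ℱ n] (V n)) (a b : ℕ) :
    MeasurableSet[ℱ b] (Bad V (Ioc a b)) := by
  unfold Bad
  apply Finset.measurableSet_biInter
  intro m hm
  rw [mem_Ioc] at hm
  exact (ℱ.mono hm.2 _ (hV m)).compl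

theorem Nn_meas (hV : ∀ n, MeasurableSet[ℱ n] (V n)) (a b : ℕ) : StronglyMeasurable[ℱ b] (Nn V a b) := by
  rw [Nn_eq]
  exact stronglyMeasurable_const.indicator (bad_meas hV a b)

theorem Nn_nonneg (V : ℕ → Set Ω) (a b : ℕ) (ω : Ω) : 0 ≤ Nn V a b ω := by
  rw [Nn_eq]
  exact Set.indicator_nonneg (fun _ _ => zero_le_one) _

theorem Nn_le (V : ℕ → Set Ω) (a b : ℕ) (ω : Ω) : Nn V a b ω ≤ 1 := by
  rw [Nn_eq]
  by_cases h : ω ∈ Bad V (Ioc a b)
  · rw [Set.indicator_of_mem h]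
  · rw [Set.indicator_of_notMem h]; exact zero_le_one

theorem Nn_int (hV : ∀ n, MeasurableSet[ℱ n] (V n)) (a b : ℕ) : Integrable (Nn V a b) μ := by
  rw [Nn_eq]
  exact (integrable_const (1 : ℝ)).indicator (ℱ.le b _ (bad_meas hV a b))

theorem Nn_self (V : ℕ → Set Ω) (a : ℕ) : Nn V a a = fun _ => (1 : ℝ) := by
  funext ω
  simp [Nn]

/-- one step -/
theorem Nn_step (hV : ∀ n, MeasurableSet[ℱ n] (V n)) {a b : ℕ} (hab : a ≤ b) :
    μ[Nn V a (b + 1) | ℱ b] =ᵐ[μ] fun ω => Nn V a b ω * (1 - Pr μ ℱ V b ω) := by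
  have h1 : Nn V a (b + 1) = Nn V a b * (fun ω => 1 - In V (b + 1) ω) := by
    funext ω
    simp only [Nn, Pi.mul_apply]
    rw [Finset.prod_Ioc_succ_top hab]
  have hg : Integrable (fun ω => 1 - In V (b + 1) ω) μ := (integrable_const _).sub (In_int hV (b + 1))
  have h2 := condExp_stronglyMeasurable_mul_of_bound (μ := μ) (ℱ.le b) (Nn_meas hV a b) hg 1
    (ae_of_all _ fun ω => by rw [Real.norm_of_nonneg (Nn_nonneg V a b ω)]; exact Nn_le V a b ω)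
  have h3 : μ[(fun ω => 1 - In V (b + 1) ω) | ℱ b] =ᵐ[μ] fun ω => 1 - Pr μ ℱ V b ω := by
    have h4 := condExp_sub (μ := μ) (m := ℱ b) (integrable_const (1 : ℝ)) (In_int (μ := μ) hV (b + 1))
    rw [condExp_const (ℱ.le b)] at h4
    exact h4
  rw [h1]
  filter_upwards [h2, h3] with ω e1 e2
  rw [e1, Pi.mul_apply, e2]

/-- upper bound for the probability of no success -/
theorem upper (hV : ∀ n, MeasurableSet[ℱ n] (V n)) (h1 : ∀ n, p n ≤ 1)
    (hv : ∀ n, ∀ᵐ ω ∂μ, p (n + 1) ≤ Pr μ ℱ V n ω) {a b : ℕ} (hab : a ≤ b) :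
    ∫ ω, Nn V a b ω ∂μ ≤ ∏ m ∈ Ioc a b, (1 - p m) := by
  induction b, hab using Nat.le_induction with
  | base => rw [Nn_self]; simp
  | succ b hab ih =>
    rw [Finset.prod_Ioc_succ_top hab]
    have hp : 0 ≤ 1 - p (b + 1) := by linarith [h1 (b + 1)]
    have e1 : ∫ ω, Nn V a (b + 1) ω ∂μ = ∫ ω, Nn V a b ω * (1 - Pr μ ℱ V b ω) ∂μ := by
      rw [← integral_condExp (ℱ.le b) (f := Nn V a (b + 1))]
      exact integral_congr_ae (Nn_step hV hab)
    have e2 : ∫ ω, Nn V a b ω * (1 - Pr μ ℱ V b ω) ∂μ ≤ ∫ ω, Nn V a b ω * (1 - p (b + 1)) ∂μ := by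
      apply integral_mono_ae
      · have : Integrable (μ[Nn V a (b + 1) | ℱ b]) μ := integrable_condExp
        exact this.congr (Nn_step hV hab)
      · exact (Nn_int hV a b).mul_const _
      · filter_upwards [hv b] with ω hω
        exact mul_le_mul_of_nonneg_left (by linarith) (Nn_nonneg V a b ω)
    rw [e1]
    refine e2.trans ?_
    rw [integral_mul_const]
    exact mul_le_mul_of_nonneg_right ih hp

/-- lower bound for the conditional probability of no success -/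
theorem lower (hV : ∀ n, MeasurableSet[ℱ n] (V n)) (h1 : ∀ n, p n ≤ 1)
    (hv : ∀ n, ∀ᵐ ω ∂μ, Pr μ ℱ V n ω ≤ p (n + 1)) {a b : ℕ} (hab : a ≤ b) :
    ∀ᵐ ω ∂μ, ∏ m ∈ Ioc a b, (1 - p m) ≤ (μ[Nn V a b | ℱ a]) ω := by
  induction b, hab using Nat.le_induction with
  | base =>
    rw [Nn_self, condExp_const (ℱ.le a)]
    simp
  | succ b hab ih =>
    rw [Finset.prod_Ioc_succ_top hab]
    have hp : 0 ≤ 1 - p (b + 1) := by linarith [h1 (b + 1)]
    have e1 : μ[μ[Nn V a (b + 1) | ℱ b] | ℱ a] =ᵐ[μ] μ[Nn V a (b + 1) | ℱ a] :=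
      condExp_condExp_of_le (ℱ.mono hab) (ℱ.le b)
    have e2 : μ[(fun ω => (1 - p (b + 1)) * Nn V a b ω) | ℱ a] ≤ᵐ[μ] μ[μ[Nn V a (b + 1) | ℱ b] | ℱ a] := by
      apply condExp_mono ((Nn_int hV a b).const_mul _) integrable_condExp
      filter_upwards [Nn_step hV hab, hv b] with ω h2 h3
      rw [h2, mul_comm]
      exact mul_le_mul_of_nonneg_left (by linarith) (Nn_nonneg V a b ω)
    have e3 : μ[(fun ω => (1 - p (b + 1)) * Nn V a b ω) | ℱ a] =ᵐ[μ]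
        fun ω => (1 - p (b + 1)) * (μ[Nn V a b | ℱ a]) ω := by
      have := condExp_smul (μ := μ) (1 - p (b + 1)) (Nn V a b) (ℱ a)
      exact this
    filter_upwards [ih, e1, e2, e3] with ω h2 h3 h4 h5
    rw [← h3]
    refine le_trans ?_ h4
    rw [h5, mul_comm]
    exact mul_le_mul_of_nonneg_left h2 hp

theorem seq_hit (hV : ∀ n, MeasurableSet[ℱ n] (V n)) (h1 : ∀ n, p n ≤ 1)
    (hv : ∀ n, ∀ᵐ ω ∂μ, p (n + 1) ≤ Pr μ ℱ V n ω) (a b : ℕ → ℕ) (hab : ∀ k, a k ≤ b k)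
    (hs : Summable (fun k => ∏ m ∈ Ioc (a k) (b k), (1 - p m))) :
    ∀ᵐ ω ∂μ, ∀ᶠ k in atTop, ∃ m ∈ Ioc (a k) (b k), ω ∈ V m := by
  have h2 : (∑' k, μ (Bad V (Ioc (a k) (b k)))) ≠ ∞ := by
    have h3 : ∀ k, μ (Bad V (Ioc (a k) (b k))) ≤ ENNReal.ofReal (∏ m ∈ Ioc (a k) (b k), (1 - p m)) := by
      intro k
      rw [← ofReal_measureReal]
      apply ENNReal.ofReal_le_ofReal
      have h4 := upper (μ := μ) hV h1 hv (hab k)
      rw [Nn_eq, integral_indicator_const _ (ℱ.le _ _ (bad_meas hV _ _))] at h4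
      simpa using h4
    exact ne_top_of_le_ne_top hs.tsum_ofReal_ne_top (ENNReal.tsum_le_tsum h3)
  filter_upwards [ae_eventually_notMem h2] with ω hω
  filter_upwards [hω] with k hk
  rw [mem_bad] at hk
  push Not at hk
  exact hk

theorem seq_miss (hV : ∀ n, MeasurableSet[ℱ n] (V n)) (h1 : ∀ n, p n ≤ 1)
    (hv : ∀ n, ∀ᵐ ω ∂μ, Pr μ ℱ V n ω ≤ p (n + 1)) (a b : ℕ → ℕ) (hab : ∀ k, a k ≤ b k)
    (hba : ∀ k, b k ≤ a (k + 1)) (hs : ¬ Summable (fun k => ∏ m ∈ Ioc (a k) (b k), (1 - p m))) :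
    ∀ᵐ ω ∂μ, ∃ᶠ k in atTop, ∀ m ∈ Ioc (a k) (b k), ω ∉ V m := by
  have ha : Monotone a := monotone_nat_of_le_succ (fun k => (hab k).trans (hba k))
  let G : Filtration ℕ m0 := ⟨fun k => ℱ (a k), fun i j hij => ℱ.mono (ha hij), fun k => ℱ.le _⟩
  let s : ℕ → Set Ω := fun k => Nat.casesOn k ∅ (fun k => Bad V (Ioc (a k) (b k)))
  have hs' : ∀ n, MeasurableSet[G n] (s n) := by
    intro n
    cases n with
    | zero => exact @MeasurableSet.empty _ (G 0)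
    | succ k => exact ℱ.mono (hba k) _ (bad_meas hV (a k) (b k))
  have hprod : ∀ k, 0 ≤ ∏ m ∈ Ioc (a k) (b k), (1 - p m) := fun k =>
    Finset.prod_nonneg (fun m _ => by linarith [h1 m])
  have hlow : ∀ᵐ ω ∂μ, ∀ k, ∏ m ∈ Ioc (a k) (b k), (1 - p m) ≤
      (μ[(s (k + 1)).indicator (1 : Ω → ℝ) | G k]) ω := by
    rw [ae_all_iff]
    intro k
    have h2 := lower (μ := μ) hV h1 hv (hab k)
    rw [Nn_eq] at h2
    exact h2
  filter_upwards [ae_mem_limsup_atTop_iff μ hs', hlow] with ω h2 h3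
  have h4 : ω ∈ limsup s atTop := by
    rw [h2]
    refine tendsto_atTop_mono (fun n => Finset.sum_le_sum (fun k _ => h3 k)) ?_
    exact (not_summable_iff_tendsto_nat_atTop_of_nonneg hprod).1 hs
  rw [mem_limsup_iff_frequently_mem, frequently_atTop] at h4
  rw [frequently_atTop]
  intro K
  obtain ⟨k, hk, hmem⟩ := h4 (K + 1)
  obtain ⟨j, rfl⟩ : ∃ j, k = j + 1 := ⟨k - 1, by omega⟩
  refine ⟨j, by omega, ?_⟩
  have h5 : ω ∈ Bad V (Ioc (a j) (b j)) := hmem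
  rwa [mem_bad] at h5

/-- `S m`, enlarged where the conditional probability is below `p m` -/
def Vp (μ : Measure Ω) (ℱ : Filtration ℕ m0) (S : ℕ → Set Ω) (p : ℕ → ℝ) (m : ℕ) : Set Ω :=
  S m ∪ {ω | Pr μ ℱ S (m - 1) ω < p m}

/-- `S m`, cut where the conditional probability is above `p m` -/
def Vm (μ : Measure Ω) (ℱ : Filtration ℕ m0) (S : ℕ → Set Ω) (p : ℕ → ℝ) (m : ℕ) : Set Ω :=
  S m ∩ {ω | Pr μ ℱ S (m - 1) ω ≤ p m}

theorem Vp_meas (hS : ∀ n, MeasurableSet[ℱ n] (S n)) (n : ℕ) : MeasurableSet[ℱ n] (Vp μ ℱ S p n) := by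
  apply MeasurableSet.union (hS n)
  have h1 : StronglyMeasurable[ℱ n] (Pr μ ℱ S (n - 1)) := (Pr_meas (n - 1)).mono (ℱ.mono (Nat.sub_le _ _))
  exact measurableSet_lt h1.measurable measurable_const

theorem Vm_meas (hS : ∀ n, MeasurableSet[ℱ n] (S n)) (n : ℕ) : MeasurableSet[ℱ n] (Vm μ ℱ S p n) := by
  apply MeasurableSet.inter (hS n)
  have h1 : StronglyMeasurable[ℱ n] (Pr μ ℱ S (n - 1)) := (Pr_meas (n - 1)).mono (ℱ.mono (Nat.sub_le _ _))
  exact measurableSet_le h1.measurable measurable_const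

theorem Vp_pr (hS : ∀ n, MeasurableSet[ℱ n] (S n)) (h1 : ∀ n, p n ≤ 1) (n : ℕ) :
    ∀ᵐ ω ∂μ, p (n + 1) ≤ Pr μ ℱ (Vp μ ℱ S p) n ω := by
  have hA : MeasurableSet[ℱ n] {ω | Pr μ ℱ S n ω < p (n + 1)} :=
    measurableSet_lt (Pr_meas n).measurable measurable_const
  have hint := In_int (μ := μ) (Vp_meas (p := p) (μ := μ) hS) (n + 1)
  have hAi : Integrable ({ω | Pr μ ℱ S n ω < p (n + 1)}.indicator (fun _ => (1 : ℝ))) μ :=
    (integrable_const (1 : ℝ)).indicator (ℱ.le n _ hA)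
  have e1 : μ[{ω | Pr μ ℱ S n ω < p (n + 1)}.indicator (fun _ => (1 : ℝ)) | ℱ n] ≤ᵐ[μ]
      Pr μ ℱ (Vp μ ℱ S p) n := by
    apply condExp_mono hAi hint
    refine ae_of_all _ (fun ω => ?_)
    by_cases h : ω ∈ {ω | Pr μ ℱ S n ω < p (n + 1)}
    · rw [Set.indicator_of_mem h]
      have : ω ∈ Vp μ ℱ S p (n + 1) := Or.inr h
      unfold In
      rw [Set.indicator_of_mem this]
    · rw [Set.indicator_of_notMem h]
      exact In_nonneg _ _
  rw [condExp_of_stronglyMeasurable (ℱ.le n) (stronglyMeasurable_const.indicator hA) hAi] at e1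
  have e2 : Pr μ ℱ S n ≤ᵐ[μ] Pr μ ℱ (Vp μ ℱ S p) n := by
    apply condExp_mono (In_int hS (n + 1)) hint
    refine ae_of_all _ (fun ω => ?_)
    apply Set.indicator_le_indicator_of_subset
    · exact Set.subset_union_left
    · intro _; exact zero_le_one
  filter_upwards [e1, e2] with ω h2 h3
  by_cases h : ω ∈ {ω | Pr μ ℱ S n ω < p (n + 1)}
  · rw [Set.indicator_of_mem h] at h2
    exact (h1 (n + 1)).trans h2
  · have h' : ¬ (Pr μ ℱ S n ω < p (n + 1)) := h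
    rw [not_lt] at h'
    exact h'.trans h3

theorem Vm_pr (hS : ∀ n, MeasurableSet[ℱ n] (S n)) (h0 : ∀ n, 0 ≤ p n) (n : ℕ) :
    ∀ᵐ ω ∂μ, Pr μ ℱ (Vm μ ℱ S p) n ω ≤ p (n + 1) := by
  have hA : MeasurableSet[ℱ n] {ω | Pr μ ℱ S n ω ≤ p (n + 1)} :=
    measurableSet_le (Pr_meas n).measurable measurable_const
  have hint := In_int (μ := μ) (Vm_meas (p := p) (μ := μ) hS) (n + 1)
  have hAi : Integrable ({ω | Pr μ ℱ S n ω ≤ p (n + 1)}.indicator (fun _ => (1 : ℝ))) μ :=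
    (integrable_const (1 : ℝ)).indicator (ℱ.le n _ hA)
  have e1 : Pr μ ℱ (Vm μ ℱ S p) n ≤ᵐ[μ]
      μ[{ω | Pr μ ℱ S n ω ≤ p (n + 1)}.indicator (fun _ => (1 : ℝ)) | ℱ n] := by
    apply condExp_mono hint hAi
    refine ae_of_all _ (fun ω => ?_)
    apply Set.indicator_le_indicator_of_subset
    · exact Set.inter_subset_right
    · intro _; exact zero_le_one
  rw [condExp_of_stronglyMeasurable (ℱ.le n) (stronglyMeasurable_const.indicator hA) hAi] at e1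
  have e2 : Pr μ ℱ (Vm μ ℱ S p) n ≤ᵐ[μ] Pr μ ℱ S n := by
    apply condExp_mono hint (In_int hS (n + 1))
    refine ae_of_all _ (fun ω => ?_)
    apply Set.indicator_le_indicator_of_subset
    · exact Set.inter_subset_left
    · intro _; exact zero_le_one
  filter_upwards [e1, e2] with ω h2 h3
  by_cases h : ω ∈ {ω | Pr μ ℱ S n ω ≤ p (n + 1)}
  · exact h3.trans h
  · rw [Set.indicator_of_notMem h] at h2
    exact h2.trans (h0 (n + 1))

/-- late windows are hit -/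
theorem seqU (hS : ∀ n, MeasurableSet[ℱ n] (S n)) (h1 : ∀ n, p n ≤ 1) (a b : ℕ → ℕ)
    (ha : Tendsto a atTop atTop) (hab : ∀ k, a k ≤ b k)
    (hs : Summable (fun k => ∏ m ∈ Ioc (a k) (b k), (1 - p m))) :
    ∀ᵐ ω ∂μ, (∀ᶠ n in atTop, p (n + 1) ≤ Pr μ ℱ S n ω) → ∀ᶠ k in atTop, ∃ m ∈ Ioc (a k) (b k), ω ∈ S m := by
  filter_upwards [seq_hit (Vp_meas (p := p) (μ := μ) hS) h1 (Vp_pr hS h1) a b hab hs] with ω hω hq
  obtain ⟨N, hN⟩ := eventually_atTop.1 hq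
  filter_upwards [hω, ha.eventually (eventually_ge_atTop N)] with k hk hkN
  obtain ⟨m, hm, hV⟩ := hk
  refine ⟨m, hm, ?_⟩
  rcases hV with h | h
  · exact h
  · exfalso
    rw [mem_Ioc] at hm
    have h2 := hN (m - 1) (by omega)
    rw [Nat.sub_add_cancel (by omega)] at h2
    have h3 : Pr μ ℱ S (m - 1) ω < p m := h
    linarith

/-- infinitely many windows are missed -/
theorem seqL (hS : ∀ n, MeasurableSet[ℱ n] (S n)) (h0 : ∀ n, 0 ≤ p n) (h1 : ∀ n, p n ≤ 1) (a b : ℕ → ℕ)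
    (ha : Tendsto a atTop atTop) (hab : ∀ k, a k ≤ b k) (hba : ∀ k, b k ≤ a (k + 1))
    (hs : ¬ Summable (fun k => ∏ m ∈ Ioc (a k) (b k), (1 - p m))) :
    ∀ᵐ ω ∂μ, (∀ᶠ n in atTop, Pr μ ℱ S n ω ≤ p (n + 1)) → ∃ᶠ k in atTop, ∀ m ∈ Ioc (a k) (b k), ω ∉ S m := by
  filter_upwards [seq_miss (Vm_meas (p := p) (μ := μ) hS) h1 (Vm_pr hS h0) a b hab hba hs] with ω hω hq
  obtain ⟨N, hN⟩ := eventually_atTop.1 hq
  refine (hω.and_eventually (ha.eventually (eventually_ge_atTop N))).mono (fun k hk m hm hSm => ?_)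
  obtain ⟨hk, hkN⟩ := hk
  apply hk m hm
  refine ⟨hSm, ?_⟩
  rw [mem_Ioc] at hm
  have h2 := hN (m - 1) (by omega)
  rw [Nat.sub_add_cancel (by omega)] at h2
  exact h2

end Pool.Agent.D0H68.SQ
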