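import Pool.Agent.D0H68.SQ.Law

set_option autoImplicit false

open Filter Topology Finset MeasureTheory ProbabilityTheory ENNReal

namespace Pool.Agent.D0H68.SQ

/-- the integers `(η k) ^ 2 < n ≤ (η k + δ) ^ 2` -/
noncomputable def U (η δ : ℝ) (k : ℕ) : Finset ℕ := Ioc (lo η k) ⌊(η * k + δ) ^ 2⌋₊

/-- empty windows give long gaps -/
theorem freq_gap_U {p : ℕ → Prop} (hinf : {n | p n}.Infinite) {η D : ℝ} (hη : 0 < η) (hD : 0 < D)
    (h : ∃ᶠ k in atTop, ∀ n ∈ U η D k, ¬ p n) : ∃ᶠ j in atTop, D ≤ gap p j := by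
  classical
  have hinf' : (Set.ofPred p).Infinite := hinf
  have hmono : StrictMono (Nat.nth p) := Nat.nth_strictMono hinf'
  rw [frequently_atTop] at h ⊢
  intro J
  obtain ⟨K, hK⟩ := eventually_atTop.1 ((lo_tendsto hη).eventually (eventually_ge_atTop (Nat.nth p J)))
  obtain ⟨k, hk, hemp⟩ := h K
  have hlo := hK k hk
  have hc : J < Nat.count p (lo η k + 1) := by
    by_contra hcon
    have e1 : lo η k + 1 ≤ Nat.nth p (Nat.count p (lo η k + 1)) := Nat.le_nth_count hinf' _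
    have e2 : Nat.nth p (Nat.count p (lo η k + 1)) ≤ Nat.nth p J := hmono.monotone (by omega)
    omega
  obtain ⟨c, hc'⟩ : ∃ c, Nat.count p (lo η k + 1) = c + 1 := ⟨Nat.count p (lo η k + 1) - 1, by omega⟩
  have h1 : lo η k + 1 ≤ Nat.nth p (c + 1) := by rw [← hc']; exact Nat.le_nth_count hinf' _
  have h2 : Nat.nth p c < lo η k + 1 := Nat.nth_lt_of_lt_count (by omega)
  refine ⟨c, by omega, ?_⟩
  have h3 : ⌊(η * k + D) ^ 2⌋₊ < Nat.nth p (c + 1) := by
    by_contra hcon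
    apply hemp (Nat.nth p (c + 1))
    · unfold U
      rw [mem_Ioc]
      omega
    · exact Nat.nth_mem_of_infinite hinf' _
  have h4 : √((Nat.nth p c : ℕ) : ℝ) ≤ η * k := by
    apply Real.sqrt_le_iff.2
    exact ⟨by positivity, le_lo (by omega)⟩
  have h5 : η * k + D ≤ √((Nat.nth p (c + 1) : ℕ) : ℝ) := by
    apply Real.le_sqrt_of_sq_le
    exact (Nat.lt_of_floor_lt h3).le
  unfold gap
  linarith

/-- nonempty windows of the width `D` give gaps of length at most `η + D` -/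
theorem event_gap_U {p : ℕ → Prop} {η D : ℝ} (hη : 0 < η) (hD : 0 < D)
    (h : ∀ᶠ k in atTop, ∃ n ∈ U η D k, p n) : ∀ᶠ j in atTop, gap p j ≤ η + D := by
  classical
  have hinf : {n | p n}.Infinite := by
    apply Set.infinite_of_forall_exists_gt
    intro N
    obtain ⟨k, h1, h2⟩ := (h.and ((lo_tendsto hη).eventually (eventually_ge_atTop N))).exists
    obtain ⟨n, hn, hpn⟩ := h1
    unfold U at hn
    rw [mem_Ioc] at hn
    exact ⟨n, hpn, by omega⟩
  have hinf' : (Set.ofPred p).Infinite := hinf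
  have hmono : StrictMono (Nat.nth p) := Nat.nth_strictMono hinf'
  obtain ⟨K0, hK0⟩ := eventually_atTop.1 h
  obtain ⟨J, hJ⟩ := exists_nat_gt ((η * (K0 + 1)) ^ 2)
  filter_upwards [eventually_ge_atTop J] with j hj
  have hs : (J : ℝ) ≤ ((Nat.nth p j : ℕ) : ℝ) := by exact_mod_cast hj.trans (hmono.id_le j)
  obtain ⟨s, hsdef⟩ : ∃ s, s = Nat.nth p j := ⟨_, rfl⟩
  rw [← hsdef] at hs
  have hsq : η * (K0 + 1) < √(s : ℝ) := by
    apply Real.lt_sqrt_of_sq_lt
    linarith
  obtain ⟨k, hk⟩ : ∃ k, k = ⌈√(s : ℝ) / η⌉₊ - 1 := ⟨_, rfl⟩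
  have hceil : √(s : ℝ) / η ≤ ⌈√(s : ℝ) / η⌉₊ := Nat.le_ceil _
  have hceil2 : (⌈√(s : ℝ) / η⌉₊ : ℝ) < √(s : ℝ) / η + 1 := Nat.ceil_lt_add_one (by positivity)
  have hpos : K0 + 1 < √(s : ℝ) / η := by
    rw [lt_div_iff₀ hη]; linarith
  have hc1 : 1 ≤ ⌈√(s : ℝ) / η⌉₊ := by
    have : (0 : ℝ) < ⌈√(s : ℝ) / η⌉₊ := by
      have : (0 : ℝ) ≤ K0 := Nat.cast_nonneg _
      linarith
    exact_mod_cast this
  have hkr : (k : ℝ) = ⌈√(s : ℝ) / η⌉₊ - 1 := by rw [hk, Nat.cast_sub hc1]; simp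
  have h1 : η * k < √(s : ℝ) := by
    have : (k : ℝ) < √(s : ℝ) / η := by linarith
    rw [lt_div_iff₀ hη] at this
    linarith
  have h2 : √(s : ℝ) ≤ η * (k + 1) := by
    have : √(s : ℝ) / η ≤ k + 1 := by linarith
    rw [div_le_iff₀ hη] at this
    linarith
  have hkK : K0 ≤ k + 1 := by
    have : (K0 : ℝ) < k + 1 := by linarith
    have h' : K0 < k + 1 := by exact_mod_cast this
    omega
  obtain ⟨n, hn, hpn⟩ := hK0 (k + 1) hkK
  unfold U at hn
  rw [mem_Ioc] at hn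
  have h3 : s ≤ lo η (k + 1) := by
    unfold lo
    apply Nat.le_floor
    push_cast
    exact (Real.sqrt_le_iff.1 h2).2
  have h4 : s < n := by omega
  have h5 : Nat.nth p (Nat.count p n) = n := Nat.nth_count hpn
  have h6 : j < Nat.count p n := by
    rw [← hmono.lt_iff_lt, h5, ← hsdef]
    exact h4
  have h7 : Nat.nth p (j + 1) ≤ n := by
    rw [← h5]
    exact hmono.monotone h6
  have h8 : √((Nat.nth p (j + 1) : ℕ) : ℝ) ≤ η * (k + 1) + D := by
    apply Real.sqrt_le_iff.2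
    refine ⟨by positivity, ?_⟩
    have h9 : (n : ℝ) ≤ (η * ((k + 1 : ℕ) : ℝ) + D) ^ 2 := (Nat.le_floor_iff (by positivity)).1 hn.2
    have h10 : ((Nat.nth p (j + 1) : ℕ) : ℝ) ≤ n := by exact_mod_cast h7
    refine h10.trans (h9.trans (le_of_eq ?_))
    push_cast
    ring
  unfold gap
  rw [← hsdef]
  linarith

theorem exists_class {f : ℕ → ℝ} (hf : ¬ Summable f) (m : ℕ) (hm : 1 ≤ m) :
    ∃ i, ¬ Summable (fun j : ℕ => f (m * j + i)) := by
  by_contra hcon
  push Not at hcon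
  apply hf
  have hg : ∀ i ∈ range m, Summable (fun n : ℕ => if n % m = i then f n else 0) := by
    intro i hi
    rw [mem_range] at hi
    have hinj : Function.Injective (fun j : ℕ => m * j + i) := by
      intro a b hab
      have : m * a = m * b := by simpa using hab
      exact Nat.eq_of_mul_eq_mul_left (by omega) this
    rw [← hinj.summable_iff]
    · refine (hcon i).congr (fun j => ?_)
      simp only [Function.comp]
      rw [if_pos]
      rw [Nat.mul_add_mod, Nat.mod_eq_of_lt hi]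
    · intro n hn
      rw [if_neg]
      intro hmod
      apply hn
      refine ⟨n / m, ?_⟩
      simp only
      rw [← hmod]
      exact Nat.div_add_mod n m
  refine (summable_sum hg).congr (fun n => ?_)
  rw [Finset.sum_ite_eq, if_pos]
  rw [mem_range]
  exact Nat.mod_lt n (by omega)

variable {Ω : Type*} [MeasurableSpace Ω] {μ : Measure Ω} [IsProbabilityMeasure μ] {E : ℕ → Set Ω}

/-- the widths `δ > 0` for which the series of the probabilities of no success in the windows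
`((η k) ^ 2, (η k + δ) ^ 2]` converges, for every `η > 0` -/
def good (p : ℕ → ℝ) : Set ℝ :=
  {δ | 0 < δ ∧ ∀ η : ℝ, 0 < η → Summable (fun k => ∏ n ∈ U η δ k, (1 - p n))}

theorem ae_le_good (hE : ∀ n, MeasurableSet (E n)) (hind : iIndepSet E μ) {D : ℝ}
    (h : D ∈ good (fun n => μ.real (E n))) : ∀ᵐ ω ∂μ, lsup (fun n => ω ∈ E n) ≤ ENNReal.ofReal D := by
  obtain ⟨hD, h⟩ := h
  have h1 : ∀ m : ℕ, ∀ᵐ ω ∂μ, ∀ᶠ k in atTop, ∃ n ∈ U (1 / ((m : ℝ) + 1)) D k, ω ∈ E n :=
    fun m => ae_eventually_hit hE hind _ (h _ (by positivity))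
  filter_upwards [ae_all_iff.2 h1] with ω hω
  have h2 : ∀ m : ℕ, lsup (fun n => ω ∈ E n) ≤ ENNReal.ofReal (1 / ((m : ℝ) + 1) + D) := by
    intro m
    have h3 := event_gap_U (by positivity) hD (hω m)
    unfold lsup
    apply limsup_le_of_le
    · isBoundedDefault
    · filter_upwards [h3] with j hj
      exact ENNReal.ofReal_le_ofReal hj
  have h4 : Tendsto (fun m : ℕ => ENNReal.ofReal (1 / ((m : ℝ) + 1) + D)) atTop (𝓝 (ENNReal.ofReal (0 + D))) :=
    ENNReal.tendsto_ofReal (tendsto_one_div_add_atTop_nhds_zero_nat.add_const D)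
  rw [zero_add] at h4
  exact ge_of_tendsto' h4 h2

theorem ae_ge_bad (hE : ∀ n, MeasurableSet (E n)) (hind : iIndepSet E μ)
    (hs : ¬ Summable (fun n => μ.real (E n))) {D : ℝ} (hD : 0 < D)
    (h : D ∉ good (fun n => μ.real (E n))) : ∀ᵐ ω ∂μ, ENNReal.ofReal D ≤ lsup (fun n => ω ∈ E n) := by
  unfold good at h
  simp only [Set.mem_setOf_eq, not_and] at h
  have h' := h hD
  push Not at h'
  obtain ⟨η, hη, hns⟩ := h'
  obtain ⟨m, hmdef⟩ : ∃ m, m = ⌈D / η⌉₊ := ⟨_, rfl⟩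
  have hm : 1 ≤ m := by
    rw [hmdef]
    exact Nat.ceil_pos.2 (by positivity)
  have hmD : D ≤ η * m := by
    have : D / η ≤ m := by rw [hmdef]; exact Nat.le_ceil _
    rw [div_le_iff₀ hη] at this
    linarith
  obtain ⟨i, hi⟩ := exists_class hns m hm
  have hdisj : ∀ a b : ℕ, a < b → Disjoint (U η D (m * a + i)) (U η D (m * b + i)) := by
    intro a b hab
    rw [Finset.disjoint_left]
    intro n hn hn'
    unfold U at hn hn'
    rw [mem_Ioc] at hn hn'
    have e1 : (n : ℝ) ≤ (η * ((m * a + i : ℕ) : ℝ) + D) ^ 2 := (Nat.le_floor_iff (by positivity)).1 hn.2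
    have e2 : (η * ((m * b + i : ℕ) : ℝ)) ^ 2 < n := lo_lt hn'.1
    push_cast at e1 e2
    have e3 : (a : ℝ) + 1 ≤ b := by exact_mod_cast hab
    have e4 : η * ((m : ℝ) * a + i) + D ≤ η * ((m : ℝ) * b + i) := by
      have e5 : η * (m : ℝ) * (a + 1) ≤ η * (m : ℝ) * b := mul_le_mul_of_nonneg_left e3 (by positivity)
      nlinarith
    have e6 := pow_le_pow_left₀ (by positivity) e4 2
    linarith
  have hmiss := ae_frequently_miss hE hind (fun j => U η D (m * j + i)) (fun a b hab => by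
    rcases lt_or_gt_of_ne hab with h' | h'
    · exact hdisj a b h'
    · exact (hdisj b a h').symm) hi
  filter_upwards [hmiss, ae_infinite hE hind hs] with ω h1 h2
  have h3 : ∃ᶠ k in atTop, ∀ n ∈ U η D k, ω ∉ E n := by
    have ht : Tendsto (fun j : ℕ => m * j + i) atTop atTop :=
      tendsto_atTop_mono (fun j => le_trans (Nat.le_mul_of_pos_left j (by omega)) (Nat.le_add_right _ _)) tendsto_id
    exact ht.frequently h1
  unfold lsup
  apply le_limsup_of_frequently_le'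
  exact (freq_gap_U h2 hη hD h3).mono (fun j hj => ENNReal.ofReal_le_ofReal hj)

/-- **the exact law for all probabilities** -/
theorem ae_law_all (hE : ∀ n, MeasurableSet (E n)) (hind : iIndepSet E μ)
    (hs : ¬ Summable (fun n => μ.real (E n))) :
    ∀ᵐ ω ∂μ, {n | ω ∈ E n}.Infinite ∧
      lsup (fun n => ω ∈ E n) = sInf (ENNReal.ofReal '' good (fun n => μ.real (E n))) := by
  obtain ⟨l, hl⟩ : ∃ l, l = sInf (ENNReal.ofReal '' good (fun n => μ.real (E n))) := ⟨_, rfl⟩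
  rw [← hl]
  have hU : ∀ q : ℚ, ∀ᵐ ω ∂μ, l < ENNReal.ofReal q → lsup (fun n => ω ∈ E n) ≤ ENNReal.ofReal q := by
    intro q
    by_cases hq : l < ENNReal.ofReal q
    · have hq' := hq
      rw [hl, sInf_lt_iff] at hq'
      obtain ⟨_, ⟨D, hD, rfl⟩, hDq⟩ := hq'
      filter_upwards [ae_le_good hE hind hD] with ω hω
      intro _
      exact hω.trans hDq.le
    · exact Eventually.of_forall (fun ω h1 => absurd h1 hq)
  have hL : ∀ q : ℚ, ∀ᵐ ω ∂μ, 0 < q → ENNReal.ofReal q < l → ENNReal.ofReal q ≤ lsup (fun n => ω ∈ E n) := by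
    intro q
    by_cases hq : 0 < q ∧ ENNReal.ofReal q < l
    · have hnot : (q : ℝ) ∉ good (fun n => μ.real (E n)) := by
        intro hmem
        have : l ≤ ENNReal.ofReal q := by
          rw [hl]
          exact sInf_le ⟨_, hmem, rfl⟩
        exact absurd hq.2 (not_lt.2 this)
      filter_upwards [ae_ge_bad hE hind hs (D := (q : ℝ)) (by exact_mod_cast hq.1) hnot] with ω hω
      intro _ _
      exact hω
    · exact Eventually.of_forall (fun ω h1 h2 => absurd ⟨h1, h2⟩ hq)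
  filter_upwards [ae_all_iff.2 hU, ae_all_iff.2 hL, ae_infinite hE hind hs] with ω h1 h2 h3
  refine ⟨h3, le_antisymm ?_ ?_⟩
  · by_contra hcon
    rw [not_le] at hcon
    obtain ⟨q, hq0, hq1, hq2⟩ := ENNReal.lt_iff_exists_rat_btwn.1 hcon
    exact absurd (h1 q hq1) (not_le.2 hq2)
  · by_contra hcon
    rw [not_le] at hcon
    obtain ⟨q, hq0, hq1, hq2⟩ := ENNReal.lt_iff_exists_rat_btwn.1 hcon
    have hq : 0 < q := by
      rcases hq0.eq_or_lt with h0 | h0
      · rw [← h0] at hq1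
        simp at hq1
      · exact h0
    exact absurd (h2 q hq hq2) (not_le.2 hq1)

end Pool.Agent.D0H68.SQ
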