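import Pool.Agent.D0H68.SQ.Prob

set_option autoImplicit false

open Filter Topology Finset

namespace Pool.Agent.D0H68.SQ

theorem lo_lt {η : ℝ} {k n : ℕ} (h : lo η k < n) : (η * k) ^ 2 < n := by
  unfold lo at h
  exact Nat.lt_of_floor_lt h

theorem le_lo {η : ℝ} {k n : ℕ} (h : n ≤ lo η k) : (n : ℝ) ≤ (η * k) ^ 2 := by
  unfold lo at h
  exact (Nat.le_floor_iff (by positivity)).1 h

theorem lo_le (η : ℝ) (k : ℕ) : (lo η k : ℝ) ≤ (η * k) ^ 2 := le_lo le_rfl

theorem lt_lo (η : ℝ) (k : ℕ) : (η * k) ^ 2 - 1 < (lo η k : ℝ) := by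
  unfold lo
  have := Nat.lt_floor_add_one ((η * k) ^ 2)
  linarith

/-- the windows carry at least `c' log k` if `p n ≥ c log n / √n` and `c' < 4 c η r` -/
theorem sum_lower {p : ℕ → ℝ} {c η : ℝ} (hc : 0 < c) (hη : 0 < η) (r : ℕ)
    (hp : ∀ᶠ n : ℕ in atTop, c * Real.log n / √n ≤ p n) (c' : ℝ) (hc' : c' < 4 * c * η * r) :
    ∀ᶠ k : ℕ in atTop, c' * Real.log k ≤ ∑ n ∈ Ioc (lo η k) (lo η (k + r)), p n := by
  have hlog : Tendsto (fun k : ℕ => Real.log (k : ℝ)) atTop atTop :=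
    Real.tendsto_log_atTop.comp tendsto_natCast_atTop_atTop
  have hA : Tendsto (fun k : ℕ => 2 * η * r - (η ^ 2 * r ^ 2 + 1) / (η * (k + r))) atTop
      (𝓝 (2 * η * r - 0)) := by
    apply tendsto_const_nhds.sub
    apply tendsto_const_nhds.div_atTop
    apply Tendsto.const_mul_atTop hη
    exact tendsto_atTop_add_const_right _ _ tendsto_natCast_atTop_atTop
  have hB : Tendsto (fun k : ℕ => 1 + Real.log η / Real.log k) atTop (𝓝 (1 + 0)) :=
    tendsto_const_nhds.add (tendsto_const_nhds.div_atTop hlog)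
  have hAB := (hA.mul hB).const_mul (2 * c)
  have hlim : c' < 2 * c * ((2 * η * r - 0) * (1 + 0)) := by
    have : 2 * c * ((2 * η * r - 0) * (1 + 0)) = 4 * c * η * r := by ring
    rw [this]; exact hc'
  obtain ⟨N0, hN0⟩ := eventually_atTop.1 hp
  have hkη : Tendsto (fun k : ℕ => η * (k : ℝ)) atTop atTop :=
    Tendsto.const_mul_atTop hη tendsto_natCast_atTop_atTop
  filter_upwards [hAB.eventually (lt_mem_nhds hlim), (lo_tendsto hη).eventually (eventually_ge_atTop N0),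
    hlog.eventually (eventually_gt_atTop 0), hkη.eventually (eventually_gt_atTop 1),
    eventually_ge_atTop 1] with k h1 h2 h3 h4 h5
  have hk0 : (0 : ℝ) < k := by exact_mod_cast h5
  have hlogk : Real.log (η * k) = Real.log η + Real.log k := Real.log_mul hη.ne' hk0.ne'
  have hlogpos : 0 < Real.log (η * k) := Real.log_pos h4
  have hkr : 0 < η * ((k : ℝ) + r) := by positivity
  -- each term
  have hterm : ∀ n ∈ Ioc (lo η k) (lo η (k + r)), c * (2 * Real.log (η * k)) / (η * (k + r)) ≤ p n := by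
    intro n hn
    rw [mem_Ioc] at hn
    have e1 : (η * k) ^ 2 < n := lo_lt hn.1
    have e2 : (n : ℝ) ≤ (η * ((k + r : ℕ) : ℝ)) ^ 2 := le_lo hn.2
    push_cast at e2
    refine le_trans ?_ (hN0 n (by omega))
    have e3 : 2 * Real.log (η * k) ≤ Real.log n := by
      have := Real.log_le_log (by positivity) e1.le
      rw [Real.log_pow] at this
      simpa using this
    have e4 : √(n : ℝ) ≤ η * (k + r) := Real.sqrt_le_iff.2 ⟨hkr.le, e2⟩
    have e5 : 0 < √(n : ℝ) := Real.sqrt_pos.2 (lt_trans (by positivity) e1)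
    apply div_le_div₀ _ _ e5 e4
    · have : 0 ≤ Real.log n := le_trans (by positivity) e3
      positivity
    · exact mul_le_mul_of_nonneg_left e3 hc.le
  have hcard : η ^ 2 * (2 * k * r + r ^ 2) - 1 ≤ ((Ioc (lo η k) (lo η (k + r))).card : ℝ) := by
    rw [Nat.card_Ioc, Nat.cast_sub (lo_mono hη (by omega))]
    have e1 := lt_lo η (k + r)
    have e2 := lo_le η k
    push_cast at e1
    nlinarith
  have hsum : ((Ioc (lo η k) (lo η (k + r))).card : ℝ) * (c * (2 * Real.log (η * k)) / (η * (k + r))) ≤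
      ∑ n ∈ Ioc (lo η k) (lo η (k + r)), p n := by
    rw [← nsmul_eq_mul]
    exact Finset.card_nsmul_le_sum _ _ _ hterm
  refine le_trans ?_ hsum
  refine le_trans ?_ (mul_le_mul_of_nonneg_right hcard (by positivity))
  have e6 : (η ^ 2 * (2 * k * r + r ^ 2) - 1) * (c * (2 * Real.log (η * k)) / (η * (k + r))) =
      2 * c * ((2 * η * r - (η ^ 2 * r ^ 2 + 1) / (η * (k + r))) * (1 + Real.log η / Real.log k)) * Real.log k := by
    rw [hlogk]
    field_simp
    ring
  rw [e6]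
  exact mul_le_mul_of_nonneg_right h1.le h3.le

theorem prod_le_exp {p : ℕ → ℝ} (h1 : ∀ n, p n ≤ 1) (T : Finset ℕ) :
    ∏ n ∈ T, (1 - p n) ≤ Real.exp (-∑ n ∈ T, p n) := by
  rw [← Finset.sum_neg_distrib, Real.exp_sum]
  apply Finset.prod_le_prod
  · intro n _
    linarith [h1 n]
  · intro n _
    have := Real.add_one_le_exp (-p n)
    linarith

theorem summable_of_sum_lower {p : ℕ → ℝ} (h1 : ∀ n, p n ≤ 1) (T : ℕ → Finset ℕ) {c' : ℝ} (hc' : 1 < c')
    (h : ∀ᶠ k : ℕ in atTop, c' * Real.log k ≤ ∑ n ∈ T k, p n) :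
    Summable (fun k => ∏ n ∈ T k, (1 - p n)) := by
  have hs : Summable (fun k : ℕ => (k : ℝ) ^ (-c')) := Real.summable_nat_rpow.2 (by linarith)
  refine summable_of_isBigO_nat hs ?_
  rw [Asymptotics.isBigO_iff]
  refine ⟨1, ?_⟩
  filter_upwards [h, eventually_ge_atTop 1] with k hk hk1
  have hk0 : (0 : ℝ) < k := by exact_mod_cast hk1
  have hprod : 0 ≤ ∏ n ∈ T k, (1 - p n) := Finset.prod_nonneg (fun n _ => by linarith [h1 n])
  rw [Real.norm_of_nonneg hprod, Real.norm_of_nonneg (by positivity), one_mul]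
  refine (prod_le_exp h1 _).trans ?_
  rw [Real.rpow_def_of_pos hk0]
  apply Real.exp_le_exp.2
  linarith

theorem crit_of_tendsto {p : ℕ → ℝ} (h1 : ∀ n, p n ≤ 1)
    (h : Tendsto (fun n : ℕ => p n * √n / Real.log n) atTop atTop) : Crit p := by
  intro δ hδ
  have hc : 0 < 1 / δ := by positivity
  have hp : ∀ᶠ n : ℕ in atTop, 1 / δ * Real.log n / √n ≤ p n := by
    filter_upwards [h.eventually (eventually_ge_atTop (1 / δ)), eventually_ge_atTop 2] with n hn hn2
    have hn0 : (1 : ℝ) < n := by exact_mod_cast (by omega : 1 < n)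
    have hl : 0 < Real.log n := Real.log_pos hn0
    have hsq : 0 < √(n : ℝ) := Real.sqrt_pos.2 (by linarith)
    rw [le_div_iff₀ hl] at hn
    rw [div_le_iff₀ hsq]
    exact hn
  have := sum_lower hc hδ 1 hp 2 (by
    have : 4 * (1 / δ) * δ * ((1 : ℕ) : ℝ) = 4 := by field_simp; norm_num
    rw [this]; norm_num)
  exact summable_of_sum_lower h1 (W δ) (by norm_num : (1 : ℝ) < 2) this

/-- for small probabilities the products are not smaller than the exponentials -/
theorem exp_le_prod {p : ℕ → ℝ} {a : ℝ} (ha : a < 1) (T : Finset ℕ)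
    (h : ∀ n ∈ T, p n ≤ a) (h0 : ∀ n ∈ T, 0 ≤ p n) :
    Real.exp (-(1 / (1 - a)) * ∑ n ∈ T, p n) ≤ ∏ n ∈ T, (1 - p n) := by
  rw [Finset.mul_sum, Real.exp_sum]
  apply Finset.prod_le_prod
  · intro n _
    positivity
  · intro n hn
    have ha' : 0 < 1 - a := by linarith
    have hpn : 0 < 1 - p n := by linarith [h n hn]
    have e1 : 1 / (1 - p n) ≤ Real.exp (1 / (1 - a) * p n) := by
      have e2 : 1 / (1 - p n) = p n / (1 - p n) + 1 := by field_simp; ring
      rw [e2]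
      refine (Real.add_one_le_exp _).trans ?_
      apply Real.exp_le_exp.2
      rw [div_mul_eq_mul_div, one_mul]
      exact div_le_div_of_nonneg_left (h0 n hn) ha' (by linarith [h n hn])
    have e3 : -(1 / (1 - a)) * p n = -(1 / (1 - a) * p n) := by ring
    rw [e3, Real.exp_neg]
    rw [div_le_iff₀ hpn] at e1
    rw [inv_le_iff_one_le_mul₀ (Real.exp_pos _)]
    linarith

theorem not_crit_of_antitone {p : ℕ → ℝ} (h0 : ∀ n, 0 ≤ p n) (h1' : ∀ n, p n ≤ 1) (hanti : Antitone p)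
    (h : ¬ Tendsto (fun n : ℕ => p n * √n / Real.log n) atTop atTop) : ¬ Crit p := by
  rw [tendsto_atTop] at h
  push Not at h
  obtain ⟨M', hM'⟩ := h
  obtain ⟨M, hMdef⟩ : ∃ M, M = max M' 1 := ⟨_, rfl⟩
  have hM1 : 1 ≤ M := by rw [hMdef]; exact le_max_right _ _
  have hM0 : 0 < M := by linarith
  have hfr : ∃ᶠ n : ℕ in atTop, p n * √n / Real.log n < M := by
    refine hM'.mono (fun n hn => ?_)
    exact lt_of_lt_of_le hn (by rw [hMdef]; exact le_max_left _ _)
  intro hcrit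
  obtain ⟨δ, hδdef⟩ : ∃ δ : ℝ, δ = 1 / (32 * M) := ⟨_, rfl⟩
  have hδ : 0 < δ := by rw [hδdef]; positivity
  have hδM : 8 * δ * M = 1 / 4 := by rw [hδdef]; field_simp; norm_num
  obtain ⟨S, hS⟩ : ∃ S, S = ∑' k, ∏ n ∈ W δ k, (1 - p n) := ⟨_, rfl⟩
  have hsum := hcrit δ hδ
  have hlog : Tendsto (fun k : ℕ => Real.log (k : ℝ)) atTop atTop :=
    Real.tendsto_log_atTop.comp tendsto_natCast_atTop_atTop
  have hsqrt : Tendsto (fun k : ℕ => √(k : ℝ)) atTop atTop :=
    Real.tendsto_sqrt_atTop.comp tendsto_natCast_atTop_atTop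
  have hbig : Tendsto (fun k : ℕ => Real.exp (Real.log (k : ℝ) / 4)) atTop atTop :=
    Real.tendsto_exp_atTop.comp (hlog.atTop_div_const (by norm_num))
  have hsmall : Tendsto (fun k : ℕ => M * (Real.log (k : ℝ) / √(k : ℝ))) atTop (𝓝 (M * 0)) := by
    apply Tendsto.const_mul
    have := (isLittleO_log_rpow_atTop (by norm_num : (0 : ℝ) < 1 / 2)).tendsto_div_nhds_zero
    refine (this.comp tendsto_natCast_atTop_atTop).congr (fun k => ?_)
    simp only [Function.comp, Real.sqrt_eq_rpow]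
  rw [mul_zero] at hsmall
  obtain ⟨n, h1, h2, h3, h4, h5⟩ := (hfr.and_eventually ((hsmall.eventually (gt_mem_nhds (by norm_num : (0 : ℝ) < 1 / 2))).and
    ((hbig.eventually (eventually_gt_atTop (2 * δ * Real.exp 1 * (|S| + 1)))).and
    ((hsqrt.eventually (eventually_ge_atTop (4 * δ))).and (eventually_ge_atTop 2))))).exists
  have hn0 : (1 : ℝ) < n := by exact_mod_cast (by omega : 1 < n)
  have hl : 0 < Real.log n := Real.log_pos hn0
  have hsq : 0 < √(n : ℝ) := Real.sqrt_pos.2 (by linarith)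
  obtain ⟨q, hq⟩ : ∃ q, q = M * (Real.log (n : ℝ) / √(n : ℝ)) := ⟨_, rfl⟩
  rw [← hq] at h2
  have hq0 : 0 ≤ q := by rw [hq]; positivity
  have hpn : p n ≤ q := by
    rw [div_lt_iff₀ hl] at h1
    rw [hq, mul_div_assoc', le_div_iff₀ hsq]
    exact h1.le
  have hqs : q * √(n : ℝ) = M * Real.log n := by rw [hq]; field_simp
  -- the windows
  obtain ⟨a, ha⟩ : ∃ a, a = ⌈√(n : ℝ) / δ⌉₊ := ⟨_, rfl⟩
  obtain ⟨b, hb⟩ : ∃ b, b = ⌊2 * √(n : ℝ) / δ⌋₊ := ⟨_, rfl⟩
  have hwin : ∀ k ∈ Ico a b, Real.exp (-(Real.log n / 4) - 1) ≤ ∏ m ∈ W δ k, (1 - p m) := by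
    intro k hk
    rw [mem_Ico] at hk
    have e1 : √(n : ℝ) ≤ δ * k := by
      have : √(n : ℝ) / δ ≤ k := by
        refine (Nat.le_ceil _).trans ?_
        rw [← ha]
        exact_mod_cast hk.1
      rw [div_le_iff₀ hδ] at this
      linarith
    have e2 : δ * (k + 1) ≤ 2 * √(n : ℝ) := by
      have : ((k + 1 : ℕ) : ℝ) ≤ 2 * √(n : ℝ) / δ := by
        refine le_trans ?_ (Nat.floor_le (by positivity : 0 ≤ 2 * √(n : ℝ) / δ))
        rw [← hb]
        exact_mod_cast hk.2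
      rw [le_div_iff₀ hδ] at this
      push_cast at this
      linarith
    have hmem : ∀ m ∈ W δ k, p m ≤ q := by
      intro m hm
      unfold W at hm
      rw [mem_Ioc] at hm
      have e3 : (δ * k) ^ 2 < m := lo_lt hm.1
      have e4 : (n : ℝ) ≤ (δ * k) ^ 2 := by
        have := pow_le_pow_left₀ hsq.le e1 2
        rwa [Real.sq_sqrt (by linarith)] at this
      have e5 : n ≤ m := by
        have : (n : ℝ) < m := by linarith
        exact_mod_cast this.le
      exact (hanti e5).trans hpn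
    have hcard : ((W δ k).card : ℝ) ≤ 4 * δ * √(n : ℝ) + 1 := by
      unfold W
      rw [Nat.card_Ioc, Nat.cast_sub (lo_mono hδ (by omega))]
      have e6 := lt_lo δ k
      have e7 := lo_le δ (k + 1)
      push_cast at e7
      nlinarith
    have hsum' : ∑ m ∈ W δ k, p m ≤ (4 * δ * √(n : ℝ) + 1) * q := by
      have := Finset.sum_le_card_nsmul (W δ k) p q hmem
      rw [nsmul_eq_mul] at this
      exact this.trans (mul_le_mul_of_nonneg_right hcard hq0)
    have hex := exp_le_prod (show (1 / 2 : ℝ) < 1 by norm_num) (W δ k)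
      (fun m hm => (hmem m hm).trans h2.le) (fun m _ => h0 m)
    refine le_trans ?_ hex
    apply Real.exp_le_exp.2
    have e8 : (4 * δ * √(n : ℝ) + 1) * q = 4 * δ * (M * Real.log n) + q := by
      rw [← hqs]; ring
    have e9 : (1 : ℝ) / (1 - 1 / 2) = 2 := by norm_num
    rw [e9]
    have e10 : 8 * δ * M * Real.log n = Real.log n / 4 := by rw [hδM]; ring
    nlinarith
  have hle : ∑ k ∈ Ico a b, ∏ m ∈ W δ k, (1 - p m) ≤ S := by
    rw [hS]
    exact hsum.sum_le_tsum _ (fun k _ => Finset.prod_nonneg (fun m _ => by linarith [h1' m]))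
  have hge : ((Ico a b).card : ℝ) * Real.exp (-(Real.log n / 4) - 1) ≤ ∑ k ∈ Ico a b, ∏ m ∈ W δ k, (1 - p m) := by
    rw [← nsmul_eq_mul]
    exact Finset.card_nsmul_le_sum _ _ _ hwin
  have hcard : √(n : ℝ) / δ - 2 ≤ ((Ico a b).card : ℝ) := by
    rw [Nat.card_Ico]
    have e1 : (a : ℝ) < √(n : ℝ) / δ + 1 := by rw [ha]; exact Nat.ceil_lt_add_one (by positivity)
    have e2 : 2 * √(n : ℝ) / δ < b + 1 := by rw [hb]; exact Nat.lt_floor_add_one _
    have e3 : (b : ℝ) - a ≤ ((b - a : ℕ) : ℝ) := by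
      rw [sub_le_iff_le_add]
      exact_mod_cast (by omega : b ≤ (b - a) + a)
    have e4 : 2 * √(n : ℝ) / δ = √(n : ℝ) / δ + √(n : ℝ) / δ := by ring
    linarith
  have hcard2 : √(n : ℝ) / (2 * δ) ≤ √(n : ℝ) / δ - 2 := by
    have e1 : 4 ≤ √(n : ℝ) / δ := by rw [le_div_iff₀ hδ]; exact h4
    have e2 : √(n : ℝ) / (2 * δ) = √(n : ℝ) / δ / 2 := by field_simp
    rw [e2]
    linarith
  have hfin : √(n : ℝ) / (2 * δ) * Real.exp (-(Real.log n / 4) - 1) ≤ S := by
    refine le_trans ?_ (hge.trans hle)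
    exact mul_le_mul_of_nonneg_right (hcard2.trans hcard) (Real.exp_pos _).le
  have hsqe : √(n : ℝ) = Real.exp (Real.log n / 4) * Real.exp (Real.log n / 4) := by
    rw [← Real.exp_add, Real.sqrt_eq_rpow, Real.rpow_def_of_pos (by linarith)]
    congr 1
    ring
  have hx : √(n : ℝ) / (2 * δ) * Real.exp (-(Real.log n / 4) - 1) = Real.exp (Real.log n / 4) / (2 * δ * Real.exp 1) := by
    rw [hsqe, Real.exp_sub, Real.exp_neg]
    field_simp
  rw [hx, div_le_iff₀ (by positivity)] at hfin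
  have hS' : S ≤ |S| := le_abs_self S
  have hpos : 0 < 2 * δ * Real.exp 1 := by positivity
  have := mul_le_mul_of_nonneg_right hS' hpos.le
  nlinarith

end Pool.Agent.D0H68.SQ
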