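import Mathlib

set_option autoImplicit false

open Filter Topology Finset

namespace Pool.Agent.D0H68.SQ

/-- the set of the `n` with `p n` is infinite and the differences of the square roots of consecutive elements
tend to `0` -/
def DQ (p : ℕ → Prop) : Prop :=
  {n | p n}.Infinite ∧
    Tendsto (fun k => √((Nat.nth p (k + 1) : ℕ) : ℝ) - √((Nat.nth p k : ℕ) : ℝ)) atTop (𝓝 0)

/-- `⌊(δ k) ^ 2⌋` -/
noncomputable def lo (δ : ℝ) (k : ℕ) : ℕ := ⌊(δ * k) ^ 2⌋₊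

/-- the integers `(δ k) ^ 2 < n ≤ (δ (k + 1)) ^ 2` -/
noncomputable def W (δ : ℝ) (k : ℕ) : Finset ℕ := Ioc (lo δ k) (lo δ (k + 1))

theorem lo_mono {δ : ℝ} (hδ : 0 < δ) : Monotone (lo δ) := by
  intro a b h
  unfold lo
  apply Nat.floor_le_floor
  have : (a : ℝ) ≤ b := by exact_mod_cast h
  exact pow_le_pow_left₀ (by positivity) (mul_le_mul_of_nonneg_left this hδ.le) 2

theorem lo_tendsto {δ : ℝ} (hδ : 0 < δ) : Tendsto (lo δ) atTop atTop := by
  unfold lo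
  apply tendsto_nat_floor_atTop.comp
  apply (tendsto_pow_atTop (by norm_num : (2 : ℕ) ≠ 0)).comp
  exact tendsto_natCast_atTop_atTop.const_mul_atTop hδ

theorem win_of_DQ {p : ℕ → Prop} (h : DQ p) {δ : ℝ} (hδ : 0 < δ) : ∀ᶠ k in atTop, ∃ n ∈ W δ k, p n := by
  classical
  obtain ⟨hinf, ht⟩ := h
  obtain ⟨J, hJ⟩ := eventually_atTop.1 (ht.eventually (gt_mem_nhds hδ))
  filter_upwards [(lo_tendsto hδ).eventually (eventually_ge_atTop (Nat.nth p J))] with k hk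
  have hinf' : (setOf p).Infinite := hinf
  have hc : J < Nat.count p (lo δ k + 1) := by
    by_contra hcon
    have e1 : lo δ k + 1 ≤ Nat.nth p (Nat.count p (lo δ k + 1)) := Nat.le_nth_count hinf' _
    have e2 : Nat.nth p (Nat.count p (lo δ k + 1)) ≤ Nat.nth p J :=
      (Nat.nth_strictMono hinf').monotone (by omega)
    omega
  obtain ⟨c, hc'⟩ : ∃ c, Nat.count p (lo δ k + 1) = c + 1 := ⟨Nat.count p (lo δ k + 1) - 1, by omega⟩
  have h1 : lo δ k + 1 ≤ Nat.nth p (c + 1) := by rw [← hc']; exact Nat.le_nth_count hinf' _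
  have h2 : Nat.nth p c < lo δ k + 1 := Nat.nth_lt_of_lt_count (by omega)
  refine ⟨Nat.nth p (c + 1), ?_, Nat.nth_mem_of_infinite hinf' _⟩
  have h3 := hJ c (by omega)
  have h4 : √((Nat.nth p c : ℕ) : ℝ) ≤ δ * k := by
    apply Real.sqrt_le_iff.2
    refine ⟨by positivity, ?_⟩
    have : Nat.nth p c ≤ lo δ k := by omega
    exact (Nat.le_floor_iff (by positivity)).1 this
  have h5 : √((Nat.nth p (c + 1) : ℕ) : ℝ) ≤ δ * (k + 1 : ℕ) := by push_cast; linarith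
  unfold W
  rw [mem_Ioc]
  refine ⟨by omega, ?_⟩
  unfold lo
  apply Nat.le_floor
  exact (Real.sqrt_le_iff.1 h5).2

theorem DQ_of_win {p : ℕ → Prop} (h : ∀ m : ℕ, ∀ᶠ k in atTop, ∃ n ∈ W (1 / ((m : ℝ) + 1)) k, p n) : DQ p := by
  classical
  have hinf : {n | p n}.Infinite := by
    apply Set.infinite_of_forall_exists_gt
    intro N
    have hδ : (0 : ℝ) < 1 / (((0 : ℕ) : ℝ) + 1) := by norm_num
    obtain ⟨k, h1, h2⟩ := ((h 0).and ((lo_tendsto hδ).eventually (eventually_ge_atTop N))).exists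
    obtain ⟨n, hn, hpn⟩ := h1
    unfold W at hn
    rw [mem_Ioc] at hn
    exact ⟨n, hpn, by omega⟩
  refine ⟨hinf, ?_⟩
  have hinf' : (setOf p).Infinite := hinf
  have hmono : StrictMono (Nat.nth p) := Nat.nth_strictMono hinf'
  rw [Metric.tendsto_atTop]
  intro ε hε
  obtain ⟨m, hm⟩ := exists_nat_gt (2 / ε)
  have hm0 : (0 : ℝ) < (m : ℝ) + 1 := by positivity
  obtain ⟨δ, hδdef⟩ : ∃ δ : ℝ, δ = 1 / ((m : ℝ) + 1) := ⟨_, rfl⟩
  have hδ : 0 < δ := by rw [hδdef]; positivity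
  have hδε : 2 * δ < ε := by
    rw [hδdef]
    rw [div_lt_iff₀ hε] at hm
    rw [mul_one_div, div_lt_iff₀ hm0]
    nlinarith
  obtain ⟨K0, hK0⟩ := eventually_atTop.1 (h m)
  rw [← hδdef] at hK0
  obtain ⟨J, hJ⟩ := exists_nat_gt ((δ * (K0 + 1)) ^ 2)
  refine ⟨J, fun j hj => ?_⟩
  have hs : (J : ℝ) ≤ ((Nat.nth p j : ℕ) : ℝ) := by exact_mod_cast hj.trans (hmono.id_le j)
  obtain ⟨s, hsdef⟩ : ∃ s, s = Nat.nth p j := ⟨_, rfl⟩
  rw [← hsdef] at hs
  have hsq : δ * (K0 + 1) < √(s : ℝ) := by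
    apply Real.lt_sqrt_of_sq_lt
    linarith
  obtain ⟨k, hk⟩ : ∃ k, k = ⌈√(s : ℝ) / δ⌉₊ - 1 := ⟨_, rfl⟩
  have hceil : √(s : ℝ) / δ ≤ ⌈√(s : ℝ) / δ⌉₊ := Nat.le_ceil _
  have hceil2 : (⌈√(s : ℝ) / δ⌉₊ : ℝ) < √(s : ℝ) / δ + 1 := Nat.ceil_lt_add_one (by positivity)
  have hpos : K0 + 1 < √(s : ℝ) / δ := by
    rw [lt_div_iff₀ hδ]; linarith
  have hc1 : 1 ≤ ⌈√(s : ℝ) / δ⌉₊ := by
    have : (0 : ℝ) < ⌈√(s : ℝ) / δ⌉₊ := by
      have : (0 : ℝ) ≤ K0 := Nat.cast_nonneg _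
      linarith
    exact_mod_cast this
  have hkr : (k : ℝ) = ⌈√(s : ℝ) / δ⌉₊ - 1 := by rw [hk, Nat.cast_sub hc1]; simp
  have h1 : δ * k < √(s : ℝ) := by
    have : (k : ℝ) < √(s : ℝ) / δ := by linarith
    rw [lt_div_iff₀ hδ] at this
    linarith
  have h2 : √(s : ℝ) ≤ δ * (k + 1) := by
    have : √(s : ℝ) / δ ≤ k + 1 := by linarith
    rw [div_le_iff₀ hδ] at this
    linarith
  have hkK : K0 ≤ k + 1 := by
    have : (K0 : ℝ) < k + 1 := by linarith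
    have h' : K0 < k + 1 := by exact_mod_cast this
    omega
  obtain ⟨n, hn, hpn⟩ := hK0 (k + 1) hkK
  unfold W at hn
  rw [mem_Ioc] at hn
  have h3 : s ≤ lo δ (k + 1) := by
    unfold lo
    apply Nat.le_floor
    push_cast
    exact (Real.sqrt_le_iff.1 h2).2
  have h4 : s < n := by omega
  have h5 : Nat.nth p (Nat.count p n) = n := Nat.nth_count hpn
  have h6 : j < Nat.count p n := by
    rw [← hmono.lt_iff_lt, h5, ← hsdef]
    exact h4
  have h7 : Nat.nth p (j + 1) ≤ n := by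
    rw [← h5]
    exact hmono.monotone h6
  have h8 : √((Nat.nth p (j + 1) : ℕ) : ℝ) ≤ δ * (k + 2) := by
    apply Real.sqrt_le_iff.2
    refine ⟨by positivity, ?_⟩
    have h9 : (n : ℝ) ≤ (δ * ((k + 1 + 1 : ℕ) : ℝ)) ^ 2 := (Nat.le_floor_iff (by positivity)).1 hn.2
    have h10 : ((Nat.nth p (j + 1) : ℕ) : ℝ) ≤ n := by exact_mod_cast h7
    refine h10.trans (h9.trans (le_of_eq ?_))
    push_cast
    ring
  have h11 : √(s : ℝ) ≤ √((Nat.nth p (j + 1) : ℕ) : ℝ) := by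
    apply Real.sqrt_le_sqrt
    rw [hsdef]
    exact_mod_cast (hmono (Nat.lt_succ_self j)).le
  rw [Real.dist_eq, sub_zero, ← hsdef, abs_of_nonneg (by linarith)]
  linarith

/-- the windows of width `δ / m` refine the windows of width `δ` -/
theorem W_refine {δ : ℝ} (hδ : 0 < δ) (m : ℕ) (hm : 1 ≤ m) (k : ℕ) (w : ℕ → ℝ) :
    ∑ n ∈ W δ k, w n = ∑ i ∈ range m, ∑ n ∈ W (δ / m) (m * k + i), w n := by
  have hm0 : (0 : ℝ) < m := by exact_mod_cast hm
  have hlo : ∀ j, lo δ j = lo (δ / m) (m * j) := by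
    intro j
    unfold lo
    congr 2
    push_cast
    field_simp
  have hδm : 0 < δ / m := by positivity
  have key : ∀ r : ℕ, ∑ i ∈ range r, ∑ n ∈ W (δ / m) (m * k + i), w n =
      ∑ n ∈ Ioc (lo (δ / m) (m * k)) (lo (δ / m) (m * k + r)), w n := by
    intro r
    induction r with
    | zero => simp
    | succ r ih =>
      rw [Finset.sum_range_succ, ih]
      unfold W
      rw [Finset.sum_Ioc_consecutive _ (lo_mono hδm (by omega)) (lo_mono hδm (by omega))]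
      rfl
  rw [key m]
  unfold W
  rw [hlo k, hlo (k + 1)]
  congr 2

end Pool.Agent.D0H68.SQ
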