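import Pool.Agent.D0H68.SQ.Pth2

set_option autoImplicit false

open Filter Topology Finset MeasureTheory ProbabilityTheory ENNReal

namespace Pool.Agent.D0H68.SQ

open Pool.Agent.D0H68.SD (In Pr In_nonneg In_le In_one In_zero In_meas In_int Pr_meas Pr_bd)

variable {Ω : Type} {m0 : MeasurableSpace Ω} {μ : Measure Ω} [IsProbabilityMeasure μ]
  {ℱ : Filtration ℕ m0} {S V : ℕ → Set Ω}

/-- the sum of the conditional probabilities of the choice of `m`, `a < m ≤ b` -/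
noncomputable def Am (μ : Measure Ω) (ℱ : Filtration ℕ m0) (S : ℕ → Set Ω) (a b : ℕ) (ω : Ω) : ℝ :=
  ∑ n ∈ Ico a b, Pr μ ℱ S n ω

theorem Am_meas (a b : ℕ) : StronglyMeasurable[ℱ (b - 1)] (Am μ ℱ S a b) := by
  unfold Am
  apply Finset.stronglyMeasurable_fun_sum
  intro j hj
  rw [mem_Ico] at hj
  exact (Pr_meas j).mono (ℱ.mono (by omega))

theorem Am_succ {a b : ℕ} (hab : a ≤ b) (ω : Ω) : Am μ ℱ S a (b + 1) ω = Am μ ℱ S a b ω + Pr μ ℱ S b ω := by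
  unfold Am
  rw [Finset.sum_Ico_succ_top hab]

theorem Am_bd (hS : ∀ n, MeasurableSet[ℱ n] (S n)) (a b : ℕ) :
    ∀ᵐ ω ∂μ, 0 ≤ Am μ ℱ S a b ω ∧ Am μ ℱ S a b ω ≤ b := by
  have hb : ∀ᵐ ω ∂μ, ∀ n, 0 ≤ Pr μ ℱ S n ω ∧ Pr μ ℱ S n ω ≤ 1 := ae_all_iff.2 fun n => Pr_bd hS n
  filter_upwards [hb] with ω hω
  unfold Am
  refine ⟨Finset.sum_nonneg (fun n _ => (hω n).1), ?_⟩
  refine (Finset.sum_le_card_nsmul _ _ 1 (fun n _ => (hω n).2)).trans ?_
  rw [Nat.card_Ico, nsmul_eq_mul, mul_one]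
  exact_mod_cast Nat.sub_le b a

theorem one_sub_mul_exp_le {v : ℝ} : (1 - v) * Real.exp v ≤ 1 := by
  have h1 : 1 - v ≤ Real.exp (-v) := by
    have := Real.add_one_le_exp (-v)
    linarith
  have h2 := mul_le_mul_of_nonneg_right h1 (Real.exp_pos v).le
  rwa [← Real.exp_add, neg_add_cancel, Real.exp_zero] at h2

/-- the conditional expectation of the product, with a bounded past factor -/
theorem cond_step (hV : ∀ n, MeasurableSet[ℱ n] (V n)) {a b : ℕ} (hab : a ≤ b) {G : Ω → ℝ}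
    (hG : StronglyMeasurable[ℱ b] G) {c : ℝ} (hc : ∀ᵐ ω ∂μ, ‖G ω‖ ≤ c) :
    μ[G * Nn V a (b + 1) | ℱ b] =ᵐ[μ] fun ω => G ω * (Nn V a b ω * (1 - Pr μ ℱ V b ω)) := by
  have h1 := condExp_stronglyMeasurable_mul_of_bound (μ := μ) (ℱ.le b) hG (Nn_int hV a (b + 1)) c hc
  filter_upwards [h1, Nn_step hV hab] with ω e1 e2
  rw [e1, Pi.mul_apply, e2]

theorem expAm_meas (κ : ℝ) {a b : ℕ} : StronglyMeasurable[ℱ b] (fun ω => Real.exp (κ * Am μ ℱ S a (b + 1) ω)) := by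
  apply Real.continuous_exp.comp_stronglyMeasurable
  exact ((Am_meas a (b + 1)).mono (ℱ.mono (by omega))).const_mul κ

theorem expAm_meas' (κ : ℝ) {a b : ℕ} : StronglyMeasurable[ℱ b] (fun ω => Real.exp (κ * Am μ ℱ S a b ω)) := by
  apply Real.continuous_exp.comp_stronglyMeasurable
  exact ((Am_meas a b).mono (ℱ.mono (by omega))).const_mul κ

theorem expAm_bd (hS : ∀ n, MeasurableSet[ℱ n] (S n)) {κ : ℝ} (hκ : 0 ≤ κ) (a b : ℕ) :
    ∀ᵐ ω ∂μ, ‖Real.exp (κ * Am μ ℱ S a b ω)‖ ≤ Real.exp (κ * b) := by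
  filter_upwards [Am_bd hS a b] with ω hω
  rw [Real.norm_of_nonneg (Real.exp_pos _).le]
  exact Real.exp_le_exp.2 (mul_le_mul_of_nonneg_left hω.2 hκ)

theorem prod_int (hS : ∀ n, MeasurableSet[ℱ n] (S n)) (hV : ∀ n, MeasurableSet[ℱ n] (V n)) {κ : ℝ} (hκ : 0 ≤ κ)
    (a b c : ℕ) : Integrable (fun ω => Real.exp (κ * Am μ ℱ S a b ω) * Nn V a c ω) μ := by
  have h1 : AEStronglyMeasurable (fun ω => Real.exp (κ * Am μ ℱ S a b ω)) μ :=
    ((expAm_meas' (μ := μ) (ℱ := ℱ) (S := S) κ (a := a) (b := b)).mono (ℱ.le b)).aestronglyMeasurable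
  exact (Nn_int hV a c).bdd_mul h1 (expAm_bd hS hκ a b)

theorem upper_exp (hS : ∀ n, MeasurableSet[ℱ n] (S n)) {a b : ℕ} (hab : a ≤ b) :
    ∫ ω, Real.exp (1 * Am μ ℱ S a b ω) * Nn S a b ω ∂μ ≤ 1 := by
  induction b, hab using Nat.le_induction with
  | base =>
    rw [Nn_self]
    have : ∀ ω, Am μ ℱ S a a ω = 0 := by
      intro ω
      simp [Am]
    simp [this]
  | succ b hab ih =>
    have e0 := cond_step (μ := μ) hS hab (expAm_meas (μ := μ) (S := S) 1 (a := a) (b := b))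
      (expAm_bd hS zero_le_one a (b + 1))
    have e1 : ∫ ω, Real.exp (1 * Am μ ℱ S a (b + 1) ω) * Nn S a (b + 1) ω ∂μ =
        ∫ ω, Real.exp (1 * Am μ ℱ S a (b + 1) ω) * (Nn S a b ω * (1 - Pr μ ℱ S b ω)) ∂μ := by
      rw [← integral_congr_ae e0]
      exact (integral_condExp (ℱ.le b)).symm
    rw [e1]
    refine le_trans ?_ ih
    apply integral_mono_ae
    · have : Integrable (μ[(fun ω => Real.exp (1 * Am μ ℱ S a (b + 1) ω)) * Nn S a (b + 1) | ℱ b]) μ :=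
        integrable_condExp
      exact this.congr e0
    · exact prod_int hS hS zero_le_one a b b
    · filter_upwards with ω
      rw [Am_succ hab, one_mul, one_mul, Real.exp_add]
      have h1 : Real.exp (Am μ ℱ S a b ω) * Real.exp (Pr μ ℱ S b ω) * (Nn S a b ω * (1 - Pr μ ℱ S b ω)) =
          (Real.exp (Am μ ℱ S a b ω) * Nn S a b ω) * ((1 - Pr μ ℱ S b ω) * Real.exp (Pr μ ℱ S b ω)) := by ring
      rw [h1]
      have h2 : 0 ≤ Real.exp (Am μ ℱ S a b ω) * Nn S a b ω := mul_nonneg (Real.exp_pos _).le (Nn_nonneg S a b ω)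
      exact mul_le_of_le_one_right h2 one_sub_mul_exp_le

theorem tail (hS : ∀ n, MeasurableSet[ℱ n] (S n)) {a b : ℕ} (hab : a ≤ b) (t : ℝ) :
    μ ({ω | t ≤ Am μ ℱ S a b ω} ∩ Bad S (Ioc a b)) ≤ ENNReal.ofReal (Real.exp (-t)) := by
  have h1 := mul_meas_ge_le_integral_of_nonneg (μ := μ)
    (f := fun ω => Real.exp (1 * Am μ ℱ S a b ω) * Nn S a b ω)
    (ae_of_all _ fun ω => mul_nonneg (Real.exp_pos _).le (Nn_nonneg S a b ω)) (prod_int hS hS zero_le_one a b b)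
    (Real.exp t)
  have h2 : {ω | t ≤ Am μ ℱ S a b ω} ∩ Bad S (Ioc a b) ⊆
      {ω | Real.exp t ≤ Real.exp (1 * Am μ ℱ S a b ω) * Nn S a b ω} := by
    rintro ω ⟨h3, h4⟩
    have h5 : Nn S a b ω = 1 := by rw [Nn_eq, Set.indicator_of_mem h4]
    have h6 : Real.exp t ≤ Real.exp (1 * Am μ ℱ S a b ω) * Nn S a b ω := by
      rw [h5, mul_one, one_mul]
      exact Real.exp_le_exp.2 h3
    exact h6
  have h3 := h1.trans (upper_exp hS hab)
  have h4 : μ.real {ω | Real.exp t ≤ Real.exp (1 * Am μ ℱ S a b ω) * Nn S a b ω} ≤ Real.exp (-t) := by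
    rw [Real.exp_neg, ← one_div, le_div_iff₀ (Real.exp_pos _), mul_comm]
    exact h3
  refine (measure_mono h2).trans ?_
  rw [← ofReal_measureReal]
  exact ENNReal.ofReal_le_ofReal h4

/-- windows with a large sum of conditional probabilities are hit -/
theorem winU (hS : ∀ n, MeasurableSet[ℱ n] (S n)) {σ : ℝ} (hσ : 1 < σ) (a b : ℕ → ℕ) (hab : ∀ k, a k ≤ b k) :
    ∀ᵐ ω ∂μ, (∀ᶠ k : ℕ in atTop, σ * Real.log k ≤ Am μ ℱ S (a k) (b k) ω) →
      ∀ᶠ k in atTop, ∃ m ∈ Ioc (a k) (b k), ω ∈ S m := by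
  have h2 : (∑' k : ℕ, μ ({ω | σ * Real.log k ≤ Am μ ℱ S (a k) (b k) ω} ∩ Bad S (Ioc (a k) (b k)))) ≠ ∞ := by
    have hs : Summable (fun k : ℕ => Real.exp (-(σ * Real.log k))) := by
      have h3 : Summable (fun k : ℕ => (k : ℝ) ^ (-σ)) := Real.summable_nat_rpow.2 (by linarith)
      refine summable_of_isBigO_nat h3 ?_
      rw [Asymptotics.isBigO_iff]
      refine ⟨1, ?_⟩
      filter_upwards [eventually_ge_atTop 1] with k hk1
      have hk0 : (0 : ℝ) < k := by exact_mod_cast hk1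
      rw [Real.norm_of_nonneg (Real.exp_pos _).le, Real.norm_of_nonneg (by positivity), one_mul,
        Real.rpow_def_of_pos hk0]
      apply Real.exp_le_exp.2
      linarith
    exact ne_top_of_le_ne_top hs.tsum_ofReal_ne_top (ENNReal.tsum_le_tsum (fun k => tail hS (hab k) _))
  filter_upwards [ae_eventually_notMem h2] with ω hω hq
  filter_upwards [hω, hq] with k hk hk2
  have h3 : ω ∉ Bad S (Ioc (a k) (b k)) := fun h => hk ⟨hk2, h⟩
  rw [mem_bad] at h3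
  push Not at h3
  exact h3

/-- lower bound for the conditional probability of no success -/
theorem lower_exp (hV : ∀ n, MeasurableSet[ℱ n] (V n)) {q t : ℝ} (hq : q < 1)
    (hv : ∀ n, ∀ᵐ ω ∂μ, Pr μ ℱ V n ω ≤ q) {a b : ℕ} (hab : a ≤ b) (ht : ∀ᵐ ω ∂μ, Am μ ℱ V a b ω ≤ t) :
    ∀ᵐ ω ∂μ, Real.exp (-(1 / (1 - q)) * t) ≤ (μ[Nn V a b | ℱ a]) ω := by
  have hq' : 0 < 1 - q := by linarith
  obtain ⟨κ, hκ⟩ : ∃ κ, κ = 1 / (1 - q) := ⟨_, rfl⟩
  have hκ0 : 0 < κ := by rw [hκ]; positivity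
  have main : ∀ c : ℕ, a ≤ c → ∀ᵐ ω ∂μ, 1 ≤ (μ[(fun ω => Real.exp (κ * Am μ ℱ V a c ω) * Nn V a c ω) | ℱ a]) ω := by
    intro c hac
    induction c, hac using Nat.le_induction with
    | base =>
      have : (fun ω => Real.exp (κ * Am μ ℱ V a a ω) * Nn V a a ω) = fun _ => (1 : ℝ) := by
        funext ω
        rw [Nn_self]
        simp [Am]
      rw [this, condExp_const (ℱ.le a)]
      simp
    | succ c hac ih =>
      have e0 := cond_step (μ := μ) hV hac (expAm_meas (μ := μ) (S := V) κ (a := a) (b := c))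
        (expAm_bd hV hκ0.le a (c + 1))
      have e1 : μ[μ[(fun ω => Real.exp (κ * Am μ ℱ V a (c + 1) ω)) * Nn V a (c + 1) | ℱ c] | ℱ a] =ᵐ[μ]
          μ[(fun ω => Real.exp (κ * Am μ ℱ V a (c + 1) ω)) * Nn V a (c + 1) | ℱ a] :=
        condExp_condExp_of_le (ℱ.mono hac) (ℱ.le c)
      have e2 : μ[(fun ω => Real.exp (κ * Am μ ℱ V a c ω) * Nn V a c ω) | ℱ a] ≤ᵐ[μ]
          μ[μ[(fun ω => Real.exp (κ * Am μ ℱ V a (c + 1) ω)) * Nn V a (c + 1) | ℱ c] | ℱ a] := by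
        apply condExp_mono (prod_int hV hV hκ0.le a c c) integrable_condExp
        filter_upwards [e0, hv c, Pr_bd hV c] with ω h2 h3 h4
        rw [h2, Am_succ hac, mul_add, Real.exp_add]
        have h5 : 1 ≤ Real.exp (κ * Pr μ ℱ V c ω) * (1 - Pr μ ℱ V c ω) := by
          have hpos : 0 < 1 - Pr μ ℱ V c ω := by linarith
          have h6 : 1 / (1 - Pr μ ℱ V c ω) ≤ Real.exp (κ * Pr μ ℱ V c ω) := by
            have h7 : 1 / (1 - Pr μ ℱ V c ω) = Pr μ ℱ V c ω / (1 - Pr μ ℱ V c ω) + 1 := by field_simp; ring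
            rw [h7]
            refine (Real.add_one_le_exp _).trans ?_
            apply Real.exp_le_exp.2
            rw [hκ, div_mul_eq_mul_div, one_mul]
            exact div_le_div_of_nonneg_left h4.1 hq' (by linarith)
          rw [div_le_iff₀ hpos] at h6
          exact h6
        have h8 : 0 ≤ Real.exp (κ * Am μ ℱ V a c ω) * Nn V a c ω :=
          mul_nonneg (Real.exp_pos _).le (Nn_nonneg V a c ω)
        have h9 : Real.exp (κ * Am μ ℱ V a c ω) * Real.exp (κ * Pr μ ℱ V c ω) *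
            (Nn V a c ω * (1 - Pr μ ℱ V c ω)) = (Real.exp (κ * Am μ ℱ V a c ω) * Nn V a c ω) *
            (Real.exp (κ * Pr μ ℱ V c ω) * (1 - Pr μ ℱ V c ω)) := by ring
        rw [h9]
        exact le_mul_of_one_le_right h8 h5
      filter_upwards [ih, e1, e2] with ω h2 h3 h4
      have h5 : (μ[(fun ω => Real.exp (κ * Am μ ℱ V a (c + 1) ω) * Nn V a (c + 1) ω) | ℱ a]) ω =
          (μ[(fun ω => Real.exp (κ * Am μ ℱ V a (c + 1) ω)) * Nn V a (c + 1) | ℱ a]) ω := rfl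
      rw [h5, ← h3]
      exact h2.trans h4
  have e3 : μ[(fun ω => Real.exp (κ * Am μ ℱ V a b ω) * Nn V a b ω) | ℱ a] ≤ᵐ[μ]
      μ[(fun ω => Real.exp (κ * t) * Nn V a b ω) | ℱ a] := by
    apply condExp_mono (prod_int hV hV hκ0.le a b b) ((Nn_int hV a b).const_mul _)
    filter_upwards [ht] with ω h1
    exact mul_le_mul_of_nonneg_right (Real.exp_le_exp.2 (mul_le_mul_of_nonneg_left h1 hκ0.le)) (Nn_nonneg V a b ω)
  have e4 : μ[(fun ω => Real.exp (κ * t) * Nn V a b ω) | ℱ a] =ᵐ[μ]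
      fun ω => Real.exp (κ * t) * (μ[Nn V a b | ℱ a]) ω := by
    have := condExp_smul (μ := μ) (Real.exp (κ * t)) (Nn V a b) (ℱ a)
    exact this
  filter_upwards [main b hab, e3, e4] with ω h1 h2 h3
  have h4 : 1 ≤ Real.exp (κ * t) * (μ[Nn V a b | ℱ a]) ω := by
    rw [← h3]
    exact h1.trans h2
  rw [← hκ, neg_mul, Real.exp_neg]
  rw [inv_le_iff_one_le_mul₀ (Real.exp_pos _)]
  linarith

/-- `S m`, cut where the conditional probability is above `q` or the sum from `a` is above `t` -/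
def Vt (μ : Measure Ω) (ℱ : Filtration ℕ m0) (S : ℕ → Set Ω) (q t : ℝ) (a m : ℕ) : Set Ω :=
  S m ∩ {ω | Pr μ ℱ S (m - 1) ω ≤ q ∧ Am μ ℱ S a m ω ≤ t}

theorem Vt_set_meas (q t : ℝ) (a m : ℕ) :
    MeasurableSet[ℱ (m - 1)] {ω | Pr μ ℱ S (m - 1) ω ≤ q ∧ Am μ ℱ S a m ω ≤ t} := by
  apply MeasurableSet.inter
  · exact measurableSet_le (Pr_meas (m - 1)).measurable measurable_const
  · exact measurableSet_le (Am_meas a m).measurable measurable_const

theorem Vt_meas (hS : ∀ n, MeasurableSet[ℱ n] (S n)) (q t : ℝ) (a m : ℕ) :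
    MeasurableSet[ℱ m] (Vt μ ℱ S q t a m) :=
  (hS m).inter (ℱ.mono (Nat.sub_le _ _) _ (Vt_set_meas q t a m))

theorem Vt_pr (hS : ∀ n, MeasurableSet[ℱ n] (S n)) {q : ℝ} (t : ℝ) (a n : ℕ) :
    ∀ᵐ ω ∂μ, Pr μ ℱ (Vt μ ℱ S q t a) n ω ≤
      {ω | Pr μ ℱ S n ω ≤ q ∧ Am μ ℱ S a (n + 1) ω ≤ t}.indicator (Pr μ ℱ S n) ω := by
  have hA : MeasurableSet[ℱ n] {ω | Pr μ ℱ S n ω ≤ q ∧ Am μ ℱ S a (n + 1) ω ≤ t} := Vt_set_meas q t a (n + 1)
  have hint := In_int (μ := μ) (Vt_meas (μ := μ) hS q t a) (n + 1)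
  have hAi : Integrable ({ω | Pr μ ℱ S n ω ≤ q ∧ Am μ ℱ S a (n + 1) ω ≤ t}.indicator (fun _ => (1 : ℝ))) μ :=
    (integrable_const (1 : ℝ)).indicator (ℱ.le n _ hA)
  have e1 : Pr μ ℱ (Vt μ ℱ S q t a) n ≤ᵐ[μ]
      μ[{ω | Pr μ ℱ S n ω ≤ q ∧ Am μ ℱ S a (n + 1) ω ≤ t}.indicator (fun _ => (1 : ℝ)) | ℱ n] := by
    apply condExp_mono hint hAi
    refine ae_of_all _ (fun ω => ?_)
    apply Set.indicator_le_indicator_of_subset
    · exact Set.inter_subset_right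
    · intro _; exact zero_le_one
  rw [condExp_of_stronglyMeasurable (ℱ.le n) (stronglyMeasurable_const.indicator hA) hAi] at e1
  have e2 : Pr μ ℱ (Vt μ ℱ S q t a) n ≤ᵐ[μ] Pr μ ℱ S n := by
    apply condExp_mono hint (In_int hS (n + 1))
    refine ae_of_all _ (fun ω => ?_)
    apply Set.indicator_le_indicator_of_subset
    · exact Set.inter_subset_left
    · intro _; exact zero_le_one
  filter_upwards [e1, e2] with ω h2 h3
  by_cases h : ω ∈ {ω | Pr μ ℱ S n ω ≤ q ∧ Am μ ℱ S a (n + 1) ω ≤ t}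
  · rw [Set.indicator_of_mem h]
    exact h3
  · rw [Set.indicator_of_notMem h] at h2 ⊢
    exact h2

theorem Vt_sum (hS : ∀ n, MeasurableSet[ℱ n] (S n)) {q t : ℝ} (ht : 0 ≤ t) (a b : ℕ) (hab : a ≤ b) :
    ∀ᵐ ω ∂μ, Am μ ℱ (Vt μ ℱ S q t a) a b ω ≤ t := by
  have h1 : ∀ᵐ ω ∂μ, ∀ n, Pr μ ℱ (Vt μ ℱ S q t a) n ω ≤
      {ω | Pr μ ℱ S n ω ≤ q ∧ Am μ ℱ S a (n + 1) ω ≤ t}.indicator (Pr μ ℱ S n) ω :=
    ae_all_iff.2 fun n => Vt_pr hS t a n
  have hb : ∀ᵐ ω ∂μ, ∀ n, 0 ≤ Pr μ ℱ S n ω ∧ Pr μ ℱ S n ω ≤ 1 := ae_all_iff.2 fun n => Pr_bd hS n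
  filter_upwards [h1, hb] with ω h2 h3
  have h4 : ∀ n, Pr μ ℱ (Vt μ ℱ S q t a) n ω ≤ Pr μ ℱ S n ω := by
    intro n
    refine (h2 n).trans ?_
    by_cases h : ω ∈ {ω | Pr μ ℱ S n ω ≤ q ∧ Am μ ℱ S a (n + 1) ω ≤ t}
    · rw [Set.indicator_of_mem h]
    · rw [Set.indicator_of_notMem h]
      exact (h3 n).1
  induction b, hab using Nat.le_induction with
  | base => simpa [Am] using ht
  | succ b hab ih =>
    rw [Am_succ hab]
    by_cases h : ω ∈ {ω | Pr μ ℱ S b ω ≤ q ∧ Am μ ℱ S a (b + 1) ω ≤ t}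
    · have h5 : Am μ ℱ (Vt μ ℱ S q t a) a b ω ≤ Am μ ℱ S a b ω := by
        unfold Am
        exact Finset.sum_le_sum (fun n _ => h4 n)
      have h6 : Am μ ℱ S a (b + 1) ω ≤ t := h.2
      rw [Am_succ hab] at h6
      have h7 := h4 b
      linarith
    · have h5 := h2 b
      rw [Set.indicator_of_notMem h] at h5
      linarith

/-- windows with a small sum of conditional probabilities are missed infinitely often -/
theorem winL (hS : ∀ n, MeasurableSet[ℱ n] (S n)) {τ : ℝ} (hτ : 0 < τ) (hτ1 : τ < 1) (a b : ℕ → ℕ)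
    (ha' : Tendsto a atTop atTop) (hab : ∀ k, a k ≤ b k) (hba : ∀ k, b k ≤ a (k + 1)) :
    ∀ᵐ ω ∂μ, (∀ᶠ n in atTop, Pr μ ℱ S n ω ≤ 1 - τ) →
      (∀ᶠ k : ℕ in atTop, Am μ ℱ S (a k) (b k) ω ≤ τ * Real.log k) →
      ∃ᶠ k in atTop, ∀ m ∈ Ioc (a k) (b k), ω ∉ S m := by
  have ha : Monotone a := monotone_nat_of_le_succ (fun k => (hab k).trans (hba k))
  let Vk : ℕ → ℕ → Set Ω := fun k => Vt μ ℱ S (1 - τ) (τ * Real.log k) (a k)
  let G : Filtration ℕ m0 := ⟨fun k => ℱ (a k), fun i j hij => ℱ.mono (ha hij), fun k => ℱ.le _⟩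
  let s : ℕ → Set Ω := fun k => Nat.casesOn k ∅ (fun k => Bad (Vk k) (Ioc (a k) (b k)))
  have hs' : ∀ n, MeasurableSet[G n] (s n) := by
    intro n
    cases n with
    | zero => exact @MeasurableSet.empty _ (G 0)
    | succ k => exact ℱ.mono (hba k) _ (bad_meas (Vt_meas hS _ _ (a k)) (a k) (b k))
  have hlow : ∀ᵐ ω ∂μ, ∀ k : ℕ, Real.exp (-Real.log k) ≤ (μ[(s (k + 1)).indicator (1 : Ω → ℝ) | G k]) ω := by
    rw [ae_all_iff]
    intro k
    have ht0 : 0 ≤ τ * Real.log k := mul_nonneg hτ.le (Real.log_natCast_nonneg k)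
    have h2 := lower_exp (μ := μ) (Vt_meas hS (1 - τ) (τ * Real.log k) (a k)) (q := 1 - τ) (t := τ * Real.log k)
      (by linarith) (fun n => by
        filter_upwards [Vt_pr (μ := μ) hS (q := 1 - τ) (τ * Real.log k) (a k) n] with ω h3
        refine h3.trans ?_
        by_cases h : ω ∈ {ω | Pr μ ℱ S n ω ≤ 1 - τ ∧ Am μ ℱ S (a k) (n + 1) ω ≤ τ * Real.log k}
        · rw [Set.indicator_of_mem h]
          exact h.1
        · rw [Set.indicator_of_notMem h]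
          linarith) (hab k) (Vt_sum hS ht0 (a k) (b k) (hab k))
    rw [Nn_eq] at h2
    have h4 : -(1 / (1 - (1 - τ))) * (τ * Real.log k) = -Real.log k := by
      have h5 : 1 - (1 - τ) = τ := by ring
      rw [h5]
      field_simp
    rw [h4] at h2
    exact h2
  have hdiv : Tendsto (fun n : ℕ => ∑ k ∈ range n, Real.exp (-Real.log (k : ℝ))) atTop atTop := by
    rw [← not_summable_iff_tendsto_nat_atTop_of_nonneg (fun k => (Real.exp_pos _).le)]
    intro hsum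
    apply Real.not_summable_natCast_inv
    refine Summable.of_nonneg_of_le (fun k => by positivity) (fun k => ?_) hsum
    rcases Nat.eq_zero_or_pos k with h | h
    · subst h
      simp
    · have hk0 : (0 : ℝ) < k := by exact_mod_cast h
      rw [Real.exp_neg, Real.exp_log hk0]
  have hb : ∀ᵐ ω ∂μ, ∀ n, 0 ≤ Pr μ ℱ S n ω ∧ Pr μ ℱ S n ω ≤ 1 := ae_all_iff.2 fun n => Pr_bd hS n
  filter_upwards [ae_mem_limsup_atTop_iff μ hs', hlow, hb] with ω h2 h3 h6 hq hA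
  have h4 : ω ∈ limsup s atTop := by
    rw [h2]
    exact tendsto_atTop_mono (fun n => Finset.sum_le_sum (fun k _ => h3 k)) hdiv
  rw [mem_limsup_iff_frequently_mem, frequently_atTop] at h4
  have h7 : ∃ᶠ k in atTop, ω ∈ Bad (Vk k) (Ioc (a k) (b k)) := by
    rw [frequently_atTop]
    intro K
    obtain ⟨k, hk, hmem⟩ := h4 (K + 1)
    obtain ⟨j, rfl⟩ : ∃ j, k = j + 1 := ⟨k - 1, by omega⟩
    exact ⟨j, by omega, hmem⟩
  obtain ⟨N, hN⟩ := eventually_atTop.1 hq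
  refine (h7.and_eventually ((ha'.eventually (eventually_ge_atTop N)).and hA)).mono (fun k hk m hm hSm => ?_)
  obtain ⟨hk, hkN, hkA⟩ := hk
  rw [mem_bad] at hk
  apply hk m hm
  rw [mem_Ioc] at hm
  refine ⟨hSm, hN (m - 1) (by omega), ?_⟩
  refine le_trans ?_ hkA
  unfold Am
  apply Finset.sum_le_sum_of_subset_of_nonneg
  · intro x hx
    rw [mem_Ico] at hx ⊢
    omega
  · intro n _ _
    exact (h6 n).1

end Pool.Agent.D0H68.SQ
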